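import Mathlib
import Pool.Agent.Helper45.NC.Final

/-!
MP_ca8ee9_an, matrix Caratheodory theorem.  Captain: helper9.

THEOREM.  If `A ∈ M_k` is a compression of a normal matrix `B` with eigenvalues `b_1, ..., b_n`, then
`A` is a compression of a normal matrix whose eigenvalues are at most `(k+1)(k+2)/2` of the `b_l`.

A compression of `diag b` is the same thing as a family `v : ι → ℂ^k` (the conjugated rows of `V`)
with `∑ v_l v_l^* = 1`, `∑ b_l v_l v_l^* = A`.  We keep track of the three Hermitian matrices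
`Phi w v m = ∑ l, w_l(m) v_l v_l^*`, `m = 0, 1, 2`, where `w_l = (1, Re b_l, Im b_l)`.

PROOF (whole).  `Del w v`: there is `v'` with `Phi w v' = Phi w v` and some `v'_{l₀} = 0`.  We show
`Del` if `n > (k+1)(k+2)/2`, by induction on `k`, first for `b` in general position (`Gen`).
Fix an index `l₁`.  For large `K` let `v'` minimise
`F(u) = |u_{l₁}|² + K |Phi w u - Phi w v|²` over ALL `u`.  Then `|Phi w v' - Phi w v|² ≤ |v_{l₁}|²/K`.
With `L = -2K (Phi w v' - Phi w v)` (three Hermitian matrices, `L(c) = ∑ c_m L_m`) the first order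
conditions are `L(w_l) v'_l = 0` for `l ≠ l₁` and `L(w_{l₁}) v'_{l₁} = v'_{l₁}`.  As `n > 3k` there is
`ζ ≠ 0` with `∑ conj(ζ_l) w_l(m) v'_l = 0` for the three `m`; moving `v'_l` to `v'_l + s ζ_l ξ` changes
`Phi` by exactly `s² w̄ ξ ξ^*`, `w̄ = ∑ |ζ_l|² w_l`; comparing with the minimum gives `ζ_{l₁} = 0` (if
`v'_{l₁} ≠ 0`) and `ξ^* L(w̄) ξ ≤ 0`; put `c = w̄ / w̄(0)`.  Let `Z` be the common kernel of the `L_m`,
`p = k - dim Z ≥ 1`.
Case 1: some `L(1,x,y)` has kernel `Z`.  Then a `p × p` minor is a nonzero polynomial of degree `≤ p`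
that vanishes at all `b_l`, `l ≠ l₁`, with `v'_l ∉ Z`: at most `p(p+3)/2` indices by general position.
Case 2: all `L(1,x,y)` have a kernel bigger than `Z`.  Then so has `L(w' + i c)` for `w' = (0,*,*)`,
say `(L(w') + i L(c)) y = 0`, `y ∉ Z`; so `y^* L(c) y = 0`, hence `L(c) y = 0` (`L(c) ≤ 0`) and
`L(w') y = 0`.  Choose `w'` such that the line `c + ℝ w'` contains no `b_l` except possibly `c` itself.
With `e = L(w'') y ≠ 0`, `w''` a third direction, `0 = v'_l^* L(w_l) y = t_l v'_l^* e`, so `v'_l ⊥ e` for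
all `l` except `l₁` and the `l` with `b_l = c`: at most two indices.
In both cases: there are `p ≥ 1`, `I` with `|I| ≤ p(p+3)/2 + 1` and a subspace of dimension `k - p` which
contains all `v'_l`, `l ∉ I`.  By induction one of the `v'_l`, `l ∉ I`, can be removed, because
`n - p(p+3)/2 - 1 > (k-p+1)(k-p+2)/2` (this is `2p(k-p) ≥ 2` for `1 ≤ p < k`, and trivial for `p = k`).
So `Phi w v'` can be represented with a zero vector, and `Phi w v' → Phi w v` as `K → ∞`; the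
representations are bounded (trace of `Phi · 0`), so a limit exists: `Del w v`.
Finally general position is removed by a second limit.  ∎
-/

set_option autoImplicit false

namespace Pool.Agent.MCT

open Finset Filter
open scoped ComplexConjugate Topology

/-- homogeneous coordinates of a point of the plane -/
noncomputable def hom (z : ℂ) : Fin 3 → ℝ := ![1, z.re, z.im]

/-- three Hermitian matrices attached to the weights `w` and the vectors `v` -/
noncomputable def Phi {ι : Type} [Fintype ι] {k : ℕ} (w : ι → Fin 3 → ℝ) (v : ι → Fin k → ℂ) :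
    Fin 3 → Fin k → Fin k → ℂ :=
  fun m i j => ∑ l, (w l m : ℂ) * v l i * conj (v l j)

/-- one vector can be removed -/
def Del {ι : Type} [Fintype ι] {k : ℕ} (w : ι → Fin 3 → ℝ) (v : ι → Fin k → ℂ) : Prop :=
  ∃ (v' : ι → Fin k → ℂ) (l₀ : ι), v' l₀ = 0 ∧ Phi w v' = Phi w v

/-- a pencil is Hermitian -/
def Herm {k : ℕ} (L : Fin 3 → Fin k → Fin k → ℂ) : Prop := ∀ m i j, L m j i = conj (L m i j)

/-- the vector `L(c) x`; the coefficients `c` may be complex -/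
noncomputable def ap {k : ℕ} (L : Fin 3 → Fin k → Fin k → ℂ) (c : Fin 3 → ℂ) (x : Fin k → ℂ) :
    Fin k → ℂ :=
  fun i => ∑ m, ∑ j, c m * L m i j * x j

/-- a real vector as a complex one -/
noncomputable def co (c : Fin 3 → ℝ) : Fin 3 → ℂ := fun m => (c m : ℂ)

/-- the number `y^* L(c) x` -/
noncomputable def bil {k : ℕ} (L : Fin 3 → Fin k → Fin k → ℂ) (c : Fin 3 → ℂ) (y x : Fin k → ℂ) : ℂ :=
  ∑ i, conj (y i) * ap L c x i

/-- the common kernel of the three matrices -/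
def Ker {k : ℕ} (L : Fin 3 → Fin k → Fin k → ℂ) : Submodule ℂ (Fin k → ℂ) where
  carrier := {x | ∀ m i, ∑ j, L m i j * x j = 0}
  add_mem' := by
    intro x y hx hy m i
    simp only [Set.mem_ofPred_eq] at hx hy
    simp only [Pi.add_apply, mul_add, Finset.sum_add_distrib, hx m i, hy m i, add_zero]
  zero_mem' := by intro m i; simp
  smul_mem' := by
    intro a x hx m i
    simp only [Set.mem_ofPred_eq] at hx
    have : ∑ j, L m i j * (a • x) j = a * ∑ j, L m i j * x j := by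
      rw [Finset.mul_sum]
      refine Finset.sum_congr rfl (fun j _ => ?_)
      simp only [Pi.smul_apply, smul_eq_mul]
      ring
    rw [this, hx m i, mul_zero]

/-- the polynomial of degree at most `p` with coefficients `q`, at `(x, y)` -/
noncomputable def pol (p : ℕ) (q : ℕ → ℕ → ℂ) (x y : ℂ) : ℂ :=
  ∑ i ∈ range (p + 1), ∑ j ∈ range (p + 1 - i), q i j * x ^ i * y ^ j

/-- the points are in general position: they are different, and no nonzero polynomial of degree at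
most `p` (in the two real coordinates) vanishes at `(p+1)(p+2)/2` of them -/
def Gen {ι : Type} (b : ι → ℂ) : Prop :=
  Function.Injective b ∧ ∀ (p : ℕ) (S : Finset ι), (p + 1) * (p + 2) / 2 ≤ S.card →
    ∀ q : ℕ → ℕ → ℂ, (∀ l ∈ S, pol p q ((b l).re : ℂ) ((b l).im : ℂ) = 0) →
      ∀ i j, i + j ≤ p → q i j = 0

/-! ### A. Limits, blocks -/

/-- `St_Closed`.  PROOF.  From `Del (ws j) (vs j)` take `v'_j`, `l_j`.  As `ws j l 0 = 1`,
`∑_{l,i} ‖v'_j l i‖² = ∑_i Re (Phi (ws j) (v'_j) 0 i i) = ∑_i Re (Phi (ws j) (vs j) 0 i i)`, which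
converges, so it is bounded: all `v'_j` lie in a compact set (a closed ball of the finite dimensional
space `ι → Fin k → ℂ`).  One index `l₀` occurs as `l_j` for infinitely many `j` (`ι` finite: pigeonhole, e.g.
`Filter.Frequently` over a finite type); pass to these `j`, then to a subsequence with `v'_j → v'`
(`IsCompact.tendsto_subseq`).  `v' l₀ = 0` (limit of zeros).  `Phi` is continuous in `(w, v)`, so
`Phi w v' = lim Phi (ws j) (v'_j) = lim Phi (ws j) (vs j) = Phi w v`.  (If `ι` is empty, `Del` is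
impossible, nothing to show.) -/
def St_Closed : Prop := ∀ (ι : Type) [Fintype ι] (k : ℕ) (w : ι → Fin 3 → ℝ) (v : ι → Fin k → ℂ)
  (ws : ℕ → ι → Fin 3 → ℝ) (vs : ℕ → ι → Fin k → ℂ),
  (∀ j l, ws j l 0 = 1) → Tendsto ws atTop (𝓝 w) →
  Tendsto (fun j => Phi (ws j) (vs j)) atTop (𝓝 (Phi w v)) → (∀ j, Del (ws j) (vs j)) → Del w v

/-- `St_Sub` (block).  PROOF.  Let `z : Fin d → (Fin k → ℂ)` be a basis of `Z`; for `l ∉ I` write
`v l = ∑ s, u l s • z s`.  Take `u'`, `l₀` from `Del` for `u`.  Put `v' l = v l` for `l ∈ I` and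
`v' l = ∑ s, u' l s • z s` for `l ∉ I`.  Then `v' l₀ = 0`, and
`Phi w v' m i j = ∑_{l ∈ I} (...) + ∑_{s,t} z s i * conj (z t j) * Phi (w ∘ val) u' m s t`, and the same
with `u` in place of `u'` for `v`; so they agree. -/
def St_Sub : Prop := ∀ (ι : Type) [Fintype ι] [DecidableEq ι] (k d : ℕ) (w : ι → Fin 3 → ℝ)
  (v : ι → Fin k → ℂ) (I : Finset ι) (Z : Submodule ℂ (Fin k → ℂ)), Module.finrank ℂ Z = d →
  (∀ l, l ∉ I → v l ∈ Z) →
  (∀ u : {l // l ∉ I} → Fin d → ℂ, Del (fun l => w l.1) u) → Del w v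

/-! ### B. The minimum -/

/-- the function that is minimised -/
noncomputable def FF {ι : Type} [Fintype ι] {k : ℕ} (w : ι → Fin 3 → ℝ) (T : Fin 3 → Fin k → Fin k → ℂ)
    (l₁ : ι) (K : ℝ) (u : ι → Fin k → ℂ) : ℝ :=
  ∑ i, Complex.normSq (u l₁ i) + K * ∑ m, ∑ i, ∑ j, Complex.normSq (Phi w u m i j - T m i j)

/-- `St_Min`.  PROOF.  `FF` is continuous on the finite dimensional space `ι → Fin k → ℂ`.  It is
coercive: `Phi w u 0 i i = ∑ l, ‖u l i‖²` is a nonnegative real number, so for every `(l, i)`: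
`FF u ≥ K ‖Phi w u 0 i i - T 0 i i‖² ≥ K (‖u l i‖² - ‖T 0 i i‖)²` as soon as `‖u l i‖² ≥ ‖T 0 i i‖`.  So the set
`{u | FF u ≤ FF 0}` is bounded (every coordinate is bounded) and closed, hence compact, and nonempty;
a minimum on it is a minimum everywhere (`Continuous.exists_forall_le` with
`tendsto_cocompact`, or `IsCompact.exists_isMinOn`). -/
def St_Min : Prop := ∀ (ι : Type) [Fintype ι] (k : ℕ) (w : ι → Fin 3 → ℝ)
  (T : Fin 3 → Fin k → Fin k → ℂ) (l₁ : ι) (K : ℝ), (∀ l, w l 0 = 1) → 0 < K →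
  ∃ v' : ι → Fin k → ℂ, ∀ u, FF w T l₁ K v' ≤ FF w T l₁ K u

/-- the pencil of the first order conditions -/
noncomputable def LL {ι : Type} [Fintype ι] {k : ℕ} (w : ι → Fin 3 → ℝ)
    (T : Fin 3 → Fin k → Fin k → ℂ) (K : ℝ) (v : ι → Fin k → ℂ) : Fin 3 → Fin k → Fin k → ℂ :=
  fun m i j => -(2 * K : ℂ) * (Phi w v m i j - T m i j)

/-- `St_First`.  PROOF.  `Phi w v` and `T` are Hermitian, so `D = Phi w v - T` and `L = -2K D` are.  For
`δ : ι → Fin k → ℂ` and real `s`: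
`Phi w (v + s δ) = Phi w v + s P + s² Phi w δ`, `P m i j = ∑ l, w_l(m) (δ_l i conj(v_l j) + v_l i conj(δ_l j))`,
so `FF (v + s δ) - FF v = s A₁ + s² A₂ + s³ A₃ + s⁴ A₄` with
`A₁ = 2 Re ∑_i conj(δ_{l₁} i) v_{l₁} i + 2K Re ∑_{m,i,j} conj(P m i j) D m i j`
and, `D` being Hermitian, `∑_{m,i,j} Re (conj(P m i j) D m i j) = 2 Re ∑_l ∑_i conj(δ_l i) (D(w_l) v_l) i`.
As `0 ≤ s A₁ + s² A₂ + s³ A₃ + s⁴ A₄` for all real `s`, `A₁ = 0`.  So
`Re ∑_l ∑_i conj(δ_l i) R_l i = 0` for all `δ`, where `R_l = [l = l₁] v_{l₁} + 2K D(w_l) v_l`; take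
`δ = R`: `R = 0`.  This is `ap L (co (w l)) (v l) = [l = l₁] v_{l₁}`. -/
def St_First : Prop := ∀ (ι : Type) [Fintype ι] [DecidableEq ι] (k : ℕ) (w : ι → Fin 3 → ℝ)
  (T : Fin 3 → Fin k → Fin k → ℂ) (l₁ : ι) (K : ℝ) (v : ι → Fin k → ℂ), Herm T →
  (∀ u, FF w T l₁ K v ≤ FF w T l₁ K u) →
  Herm (LL w T K v) ∧ (∀ l, l ≠ l₁ → ap (LL w T K v) (co (w l)) (v l) = 0) ∧
    ap (LL w T K v) (co (w l₁)) (v l₁) = v l₁

/-- `St_Zeta`.  PROOF.  The conditions on `η = conj ζ` are `3k` homogeneous linear equations in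
`card ι > 3k` unknowns: the linear map `(ι → ℂ) → (Fin 3 × Fin k → ℂ)` has a nonzero kernel
(`LinearMap.exists_ne_zero_of_finrank_lt`-type lemma, `Module.finrank_pi`). -/
def St_Zeta : Prop := ∀ (ι : Type) [Fintype ι] (k : ℕ) (w : ι → Fin 3 → ℝ) (v : ι → Fin k → ℂ),
  3 * k < Fintype.card ι → ∃ ζ : ι → ℂ, ζ ≠ 0 ∧ ∀ m i, ∑ l, conj (ζ l) * (w l m : ℂ) * v l i = 0

/-- `St_Second`.  PROOF.  Take `ζ` from `St_Zeta`.  For `ξ : Fin k → ℂ` and real `s` put
`u_l = v_l + s ζ_l ξ`.  Then `Phi w u m i j = Phi w v m i j + s² w̄_m ξ_i conj(ξ_j)`, `w̄_m = ∑ |ζ_l|² w_l(m)`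
(the terms linear in `s` vanish by the choice of `ζ`).  So, with `D = Phi w v - T`,
`0 ≤ FF u - FF v = 2 s Re (∑_i conj(v_{l₁} i) ζ_{l₁} ξ_i) + s² |ζ_{l₁}|² |ξ|² + 2 K s² Re ∑_{m,i,j} conj(D m i j)
w̄_m ξ_i conj(ξ_j) + K s⁴ (...)` for all real `s`.  The linear coefficient is `0` for every `ξ`; take
`ξ = conj(ζ_{l₁}) v_{l₁}`: `|ζ_{l₁}|² |v_{l₁}|² = 0`, so `ζ_{l₁} = 0`.  Then the coefficient of `s²` is `≥ 0`:
`K Re ∑ conj(D m i j) w̄_m ξ_i conj(ξ_j) ≥ 0`; as `L = -2K D` and `D` is Hermitian this says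
`Re (ξ^* L(w̄) ξ) ≤ 0`.  Since `w̄_0 = ∑ |ζ_l|² > 0`, `c = w̄ / w̄_0` works. -/
def St_Second : Prop := ∀ (ι : Type) [Fintype ι] [DecidableEq ι] (k : ℕ) (w : ι → Fin 3 → ℝ)
  (T : Fin 3 → Fin k → Fin k → ℂ) (l₁ : ι) (K : ℝ) (v : ι → Fin k → ℂ), Herm T → (∀ l, w l 0 = 1) →
  0 < K → 3 * k < Fintype.card ι → v l₁ ≠ 0 → (∀ u, FF w T l₁ K v ≤ FF w T l₁ K u) →
  ∃ c : Fin 3 → ℝ, c 0 = 1 ∧ ∀ x, (bil (LL w T K v) (co c) x x).re ≤ 0

/-- `St_Core`.  PROOF.  Apply the previous modules with `T = Phi w v` (Hermitian) and `K = C / ε²`, where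
`C = ∑ i, ‖v l₁ i‖² + 1`: the minimum `v'` satisfies `FF v' ≤ FF v = ∑ i ‖v l₁ i‖²`, so
`‖Phi w v' m i j - Phi w v m i j‖² ≤ FF v' / K ≤ ε²`. -/
def St_Core : Prop := ∀ (ι : Type) [Fintype ι] [DecidableEq ι] (k : ℕ) (w : ι → Fin 3 → ℝ)
  (v : ι → Fin k → ℂ) (l₁ : ι), (∀ l, w l 0 = 1) → 3 * k < Fintype.card ι → ∀ ε : ℝ, 0 < ε →
  ∃ v' : ι → Fin k → ℂ, (∀ m i j, ‖Phi w v' m i j - Phi w v m i j‖ ≤ ε) ∧
    (v' l₁ = 0 ∨ ∃ L : Fin 3 → Fin k → Fin k → ℂ, Herm L ∧ v' l₁ ≠ 0 ∧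
      (∀ l, l ≠ l₁ → ap L (co (w l)) (v' l) = 0) ∧ ap L (co (w l₁)) (v' l₁) = v' l₁ ∧
      ∃ c : Fin 3 → ℝ, c 0 = 1 ∧ ∀ x, (bil L (co c) x x).re ≤ 0)

/-! ### C. Pencils -/

/-- `St_DetPoly`.  PROOF.  Expand the determinant: a sum over permutations of products of `p` affine
functions of `(x, y)`; a product of `p` affine functions is a polynomial of degree at most `p` (induction
on `p`, for polynomial functions in the form `pol`), and sums and multiples of polynomials of degree at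
most `p` are such.  (Or: `MvPolynomial (Fin 2) ℂ`, total degree of the determinant.) -/
def St_DetPoly : Prop := ∀ (p : ℕ) (M₀ M₁ M₂ : Matrix (Fin p) (Fin p) ℂ),
  ∃ q : ℕ → ℕ → ℂ, ∀ x y : ℂ, (M₀ + x • M₁ + y • M₂).det = pol p q x y

/-- `St_Minor`.  PROOF.  Let `Z = Ker L`, `d = finrank Z`, `p = k - d`; choose `y_1, ..., y_p ∈ ℂ^k` whose
images are a basis of `ℂ^k / Z` (a basis of a complement of `Z`).  Put `(M_m)_{rs} = y_r^* L_m y_s`,
`q` from `St_DetPoly` for `M_0, M_1, M_2`.  For `c = (1, x, y)` complex, `M(c) = M_0 + x M_1 + y M_2`: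
(i) `det M(c) = 0` iff there is `t ≠ 0` with `M(c) t = 0` (`Matrix.exists_mulVec_eq_zero_iff`).
(ii) `M(c) t = 0` iff `L(c) (∑ t_s y_s) = 0`: let `h = L(c) (∑ t_s y_s)`.  `M(c) t = 0` says `y_r^* h = 0` for
all `r`; and for `z ∈ Z`, `z^* h = 0` because `z^* L_m = (L_m z)^* = 0` (`L_m` Hermitian).  The `y_r` and `Z`
span `ℂ^k`, so `h^* h = 0`, `h = 0`.
(iii) `t ≠ 0` iff `∑ t_s y_s ∉ Z`; and if `u ∉ Z`, `u = z + ∑ t_s y_s` with `z ∈ Z`, `t ≠ 0` and
`L(c) u = L(c) (∑ t_s y_s)`.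
So `pol p q x y = det M(c) = 0` iff there is `u ∉ Z` with `L(c) u = 0`. -/
def St_Minor : Prop := ∀ (k : ℕ) (L : Fin 3 → Fin k → Fin k → ℂ), Herm L →
  ∃ q : ℕ → ℕ → ℂ, ∀ x y : ℂ,
    (pol (k - Module.finrank ℂ (Ker L)) q x y = 0 ↔ ∃ u, u ∉ Ker L ∧ ap L ![1, x, y] u = 0)

/-- `St_Sing`.  PROOF.  Take `q` from `St_Minor`.  By hypothesis `pol _ q x y = 0` for all real `x, y`; so the
polynomial vanishes at all complex `x, y` (a polynomial in one variable with infinitely many zeros is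
zero: first fix real `x` and vary `y`, then fix complex `y` and vary `x`).  Let `c = (1, c₁, c₂)`.  Apply
`St_Minor` at the complex point `(c₁ - i p₁, c₂ - i p₂)`: there is `u ∉ Ker L` with
`L(c) u - i L(0,p₁,p₂) u = 0`.  Multiply by `u^*`: `u^* L(c) u` and `u^* L(0,p₁,p₂) u` are real (`L` Hermitian,
real coefficients), so both are `0`.  Since `x^* L(c) x ≤ 0` for all `x` (it is real, and its real part is
`≤ 0`) and `u^* L(c) u = 0`, `L(c) u = 0`: for every `h` and real `s`,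
`0 ≥ (u + s h)^* L(c) (u + s h) = 2 s Re (h^* L(c) u) + s² h^* L(c) h`, so `Re (h^* L(c) u) = 0` for all `h`,
take `h = L(c) u`.  Then also `L(0,p₁,p₂) u = 0`. -/
def St_Sing : Prop := ∀ (k : ℕ) (L : Fin 3 → Fin k → Fin k → ℂ) (c : Fin 3 → ℝ), Herm L → c 0 = 1 →
  (∀ x, (bil L (co c) x x).re ≤ 0) →
  (∀ x y : ℝ, ∃ u, u ∉ Ker L ∧ ap L ![1, (x : ℂ), (y : ℂ)] u = 0) →
  ∀ p₁ p₂ : ℝ, ∃ u, u ∉ Ker L ∧ ap L (co c) u = 0 ∧ ap L ![0, (p₁ : ℂ), (p₂ : ℂ)] u = 0

/-- `St_Block`.  PROOF.  `Z = Ker L`; `v l₁ ∉ Z` because `L(w_{l₁}) v_{l₁} = v_{l₁} ≠ 0`; so `p = k - finrank Z ≥ 1`.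
Take `q` from `St_Minor`.
Case 1: `pol p q x₀ y₀ ≠ 0` for some real `x₀, y₀`.  Let `S = {l ≠ l₁ | v l ∉ Z}`.  For `l ∈ S`, `u = v l` gives
`pol p q (re b_l) (im b_l) = 0` (`St_Minor`, `co (hom (b l)) = ![1, re, im]`).  If `|S| ≥ (p+1)(p+2)/2` then all
coefficients of `pol p q` vanish (`Gen`), contradiction.  So `|S| ≤ (p+1)(p+2)/2 - 1 = p(p+3)/2`, and
`I = S ∪ {l₁}` has at most `(p+1)(p+2)/2` elements; `v l ∈ Z` for `l ∉ I`; subspace `Z`.
Case 2: `pol p q x y = 0` for all real `x, y`, i.e. the hypothesis of `St_Sing` holds.  Choose real `(p₁, p₂) ≠ 0`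
such that for no `l` with `b_l ≠ c₁ + i c₂` the vector `(re b_l - c₁, im b_l - c₂)` is a multiple of `(p₁, p₂)`
(finitely many directions are forbidden; e.g. `(p₁,p₂) = (1, t)` with `t` real outside a finite set).  `St_Sing`
gives `u ∉ Z` with `L(c) u = 0`, `L(0,p₁,p₂) u = 0`.  Put `e = L(0,-p₂,p₁) u`.  If `e = 0` then `L_m u = 0` for all
`m` (the three vectors `c, (0,p₁,p₂), (0,-p₂,p₁)` span), contradiction; so `e ≠ 0`.  For every `l`,
`hom (b l) = c + s (0,p₁,p₂) + t_l (0,-p₂,p₁)` with `t_l = 0` iff `b_l - c` is a multiple of `(p₁,p₂)` iff (choice)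
`b_l = c₁ + i c₂`.  For `l ≠ l₁`: `v_l^* L(w_l) u = (L(w_l) v_l)^* u = 0`, and it is `t_l v_l^* e`.  So `v_l^* e = 0`
unless `t_l = 0`.  Take `p = 1`, `I = {l₁} ∪ {l | b l = c₁ + i c₂}` (at most two elements by injectivity),
the subspace `{x | x^* e = 0}` i.e. `{x | ∑ conj(e i) x i = 0}` of dimension `k - 1`. -/
def St_Block : Prop := ∀ (ι : Type) [Fintype ι] [DecidableEq ι] (k : ℕ) (b : ι → ℂ)
  (v : ι → Fin k → ℂ) (l₁ : ι) (L : Fin 3 → Fin k → Fin k → ℂ), Gen b → Herm L → v l₁ ≠ 0 →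
  (∀ l, l ≠ l₁ → ap L (co (hom (b l))) (v l) = 0) → ap L (co (hom (b l₁))) (v l₁) = v l₁ →
  (∃ c : Fin 3 → ℝ, c 0 = 1 ∧ ∀ x, (bil L (co c) x x).re ≤ 0) →
  ∃ (p d : ℕ) (I : Finset ι) (Z : Submodule ℂ (Fin k → ℂ)), 1 ≤ p ∧ d + p = k ∧
    Module.finrank ℂ Z = d ∧ I.card ≤ (p + 1) * (p + 2) / 2 ∧ ∀ l, l ∉ I → v l ∈ Z

/-! ### D. Induction, general position, conclusion -/

/-- `St_Ind`.  PROOF.  Strong induction on `k`.  `k = 0`: every `v l` is `0` (functions on `Fin 0`), `ι` is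
nonempty: `Del` with `v' = v`.  `k ≥ 1`: `3k ≤ (k+1)(k+2)/2 < card ι` (as `(k-1)(k-2) ≥ 0`); fix any `l₁ : ι`.
For every `j : ℕ` apply `St_Core` with `ε = 1/(j+1)`: `v'_j`.  Claim `Del w v'_j`.  If `v'_j l₁ = 0` this is
clear.  Otherwise `St_Block` gives `p, d, I, Z`.  For `u : {l // l ∉ I} → Fin d → ℂ`: `b` restricted to the
subtype is in general position, and the subtype has `card ι - |I|` elements, more than `(d+1)(d+2)/2`:
if `d ≥ 1` then `(k+1)(k+2)/2 ≥ (p+1)(p+2)/2 + (d+1)(d+2)/2` where `k = p + d`, `p, d ≥ 1` (doubled: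
`(p+d+1)(p+d+2) - (p+1)(p+2) - (d+1)(d+2) = 2pd - 2 ≥ 0`), so the induction hypothesis for `d < k` gives `Del`;
if `d = 0` the subtype is nonempty (`card ι > (k+1)(k+2)/2 ≥ |I|`) and `u = 0`, `Del` is trivial.  `St_Sub`
gives `Del w v'_j`.  Finally `St_Closed` with `ws j = w`, `vs j = v'_j`. -/
def St_Ind : Prop := ∀ (k : ℕ) (ι : Type) [Fintype ι] [DecidableEq ι] (b : ι → ℂ)
  (v : ι → Fin k → ℂ), Gen b → (k + 1) * (k + 2) / 2 < Fintype.card ι → Del (fun l => hom (b l)) v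

/-- `St_GenEx`.  PROOF.  Let `n = card ι`, `e : ι ≃ Fin n`, `t_l = e l + 1` (different positive reals),
`g l = t_l + i t_l^{n+2}`.  Injective.  Let `|S| ≥ (p+1)(p+2)/2` and `pol p q (re g_l) (im g_l) = 0` on `S`:
`∑_{i+j≤p} q i j t_l^{i + (n+2) j} = 0`.  As `(p+1)(p+2)/2 ≤ |S| ≤ n`, `p ≤ n`, so the exponents
`i + (n+2) j`, `i + j ≤ p`, are different.  Real and imaginary parts of `q` separately: a real polynomial
with at most `(p+1)(p+2)/2` monomials and at least so many different positive zeros is zero (Descartes'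
rule of signs, `Mathlib.Algebra.Polynomial.RuleOfSigns`, or: by induction on the number of monomials with
Rolle's theorem after dividing by the smallest power of `t`). -/
def St_GenEx : Prop := ∀ (ι : Type) [Fintype ι], ∃ g : ι → ℂ, Gen g

/-- `St_Dense`.  PROOF.  Take `g` from `St_GenEx` and `b_s = b + s (g - b)`, `s` real; `b_1 = g`.  For each of the
finitely many pairs `(p, S)` with `|S| = (p+1)(p+2)/2` let `E_s` be the square matrix with rows `l ∈ S`,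
columns `(i,j)`, `i + j ≤ p`, entries `(re b_s l)^i (im b_s l)^j`.  `det E_s` is a polynomial in `s`, not zero
at `s = 1` (`Gen g`), so it has finitely many zeros; also `b_s l = b_s l'`, `l ≠ l'`, happens for at most one `s`.
So for all `s` outside a finite set all these determinants are nonzero and `b_s` is injective: `Gen b_s`
(for `|S| > (p+1)(p+2)/2` use a subset; for `(p+1)(p+2)/2 > card ι` nothing to show, so only `p ≤ card ι`
matter).  Take `s_j → 0` outside the finite set. -/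
def St_Dense : Prop := ∀ (ι : Type) [Fintype ι] (b : ι → ℂ),
  ∃ bs : ℕ → ι → ℂ, (∀ j, Gen (bs j)) ∧ Tendsto bs atTop (𝓝 b)

/-- `St_Main`.  PROOF.  `St_Dense`, `St_Ind` for `bs j` and the SAME `v`, and `St_Closed` with
`ws j l = hom (bs j l)`, `vs j = v` (`Phi` and `hom` are continuous). -/
def St_Main : Prop := ∀ (k : ℕ) (ι : Type) [Fintype ι] [DecidableEq ι] (b : ι → ℂ)
  (v : ι → Fin k → ℂ), (k + 1) * (k + 2) / 2 < Fintype.card ι → Del (fun l => hom (b l)) v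

/-- `St_Supp`.  PROOF.  Among all `v'` with `Phi (hom ∘ b) v' = Phi (hom ∘ b) v` take one whose support
`{l | v' l ≠ 0}` has the smallest cardinality.  If it is larger than `(k+1)(k+2)/2`, apply `St_Main` to the
restrictions of `b` and `v'` to the support (a subtype), and extend by zero: the `Phi` is unchanged (terms
with `v' l = 0` are zero) and the support is strictly smaller, contradiction. -/
def St_Supp : Prop := ∀ (k : ℕ) (ι : Type) [Fintype ι] [DecidableEq ι] (b : ι → ℂ)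
  (v : ι → Fin k → ℂ), ∃ v' : ι → Fin k → ℂ, ∃ S : Finset ι, S.card ≤ (k + 1) * (k + 2) / 2 ∧
    (∀ l, l ∉ S → v' l = 0) ∧ Phi (fun l => hom (b l)) v' = Phi (fun l => hom (b l)) v

open Matrix in
/-- `St_FinalA` (arbitrary compressions of a diagonal matrix).  PROOF.  `v l i = conj (V l i)`.  Then
`(Vᴴ V) i j = ∑ l, v l i * conj (v l j) = Phi (hom ∘ b) v 0 i j` and
`(Vᴴ diag(b) V) i j = ∑ l, b l * v l i * conj (v l j) = Phi _ v 1 i j + I * Phi _ v 2 i j`.  Take `v'`, `S` from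
`St_Supp` and `V' : Matrix S (Fin k)`, `V' l i = conj (v' l i)`. -/
def St_FinalA : Prop := ∀ (n k : ℕ) (b : Fin n → ℂ) (V : Matrix (Fin n) (Fin k) ℂ),
  ∃ S : Finset (Fin n), S.card ≤ (k + 1) * (k + 2) / 2 ∧
    ∃ V' : Matrix (Fin S.card) (Fin k) ℂ, V'ᴴ * V' = Vᴴ * V ∧
      V'ᴴ * Matrix.diagonal (fun i => b (S.orderEmbOfFin rfl i)) * V' = Vᴴ * Matrix.diagonal b * V

open Pool.Agent.Helper45.NC in
/-- `St_FinalDil`.  PROOF.  `→`: `St_FinalA` for the `W` of `Dil`.  `←`: extend the matrix by zero rows. -/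
def St_FinalDil : Prop := ∀ (n k : ℕ) (a : Fin k → ℂ) (b : Fin n → ℂ), Dil a b ↔
  ∃ S : Finset (Fin n), S.card ≤ (k + 1) * (k + 2) / 2 ∧ Dil a (fun i => b (S.orderEmbOfFin rfl i))

open Matrix in
/-- `St_FinalB` (arbitrary compressions of a normal matrix).  PROOF.  `normal_diag` (library
`Pool.Agent.Helper45.NC.Normal`): `B R = R diag(e)`, `R` unitary; so `A = Vᴴ B V = (Rᴴ V)ᴴ diag(e) (Rᴴ V)` and
`(Rᴴ V)ᴴ (Rᴴ V) = 1`.  `St_FinalA` gives `S`, `V'`; `B' = diag (e ∘ S)` is normal; the roots of the charpoly of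
`B` are the `e l`, those of `B'` the `e l`, `l ∈ S` (`Matrix.charpoly_diagonal`, `roots_prod_ms`), a
sub-multiset. -/
def St_FinalB : Prop := ∀ (n k : ℕ) (A : Matrix (Fin k) (Fin k) ℂ) (B : Matrix (Fin n) (Fin n) ℂ)
  (V : Matrix (Fin n) (Fin k) ℂ), Bᴴ * B = B * Bᴴ → Vᴴ * V = 1 → A = Vᴴ * B * V →
  ∃ (m : ℕ) (B' : Matrix (Fin m) (Fin m) ℂ) (V' : Matrix (Fin m) (Fin k) ℂ),
    m ≤ (k + 1) * (k + 2) / 2 ∧ B'ᴴ * B' = B' * B'ᴴ ∧ B'.charpoly.roots ≤ B.charpoly.roots ∧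
    V'ᴴ * V' = 1 ∧ A = V'ᴴ * B' * V'

open Pool.Agent.Helper45.NC in
/-- `St_Low3` (for normal `A` at least `3k` eigenvalues are needed).  PROOF.  `b l = ω^{l mod 3}`,
`ω = exp(2πi/3)`, `a = 0`.  `Dil 0 b`: the matrix `W l i = 1/√3` if `l / 3 = i`, else `0` (three rows for each
column): `Wᴴ W = 1`, and `Wᴴ diag(b) W = diag ((1 + ω + ω²)/3) = 0`.
Let `S` be a proper subset and suppose `Dil 0 (b ∘ S)` with matrix `W`.  Some `l₀ ∉ S`; let
`τ = conj (b l₀)` and `D = Re (τ b)`: it is `1` on the rows `l ∈ S` with `b l = b l₀` (there are at most `k - 1`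
of them, since the class of `l₀` has `k` elements) and `-1/2` on the others.  The `≤ k - 1` linear equations
`(W x)_l = 0` for these rows have a solution `x ≠ 0` in `ℂ^k`.  `Wᴴ diag(b ∘ S) W = 0` and its adjoint give
`Wᴴ diag(D) W = 0`, so `0 = ∑_l D_l |(W x)_l|² = -(1/2) ∑_l |(W x)_l|² = -(1/2) |x|² < 0`.  Contradiction. -/
def St_Low3 : Prop := ∀ k : ℕ, ∃ b : Fin (3 * k) → ℂ, Dil (fun _ : Fin k => (0 : ℂ)) b ∧
  ∀ S : Finset (Fin (3 * k)), S.card < 3 * k →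
    ¬ Dil (fun _ : Fin k => (0 : ℂ)) (fun i => b (S.orderEmbOfFin rfl i))

end Pool.Agent.MCT
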