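import Mathlib
import Pool.Agent.MCT.StA

set_option autoImplicit false

namespace Pool.Agent.MCT.Firstx

open Finset Filter Pool.Agent.MCT
open scoped ComplexConjugate Topology

/-- a polynomial of degree four without constant term that is nonnegative has no linear term -/
theorem poly_lin {A₁ A₂ A₃ A₄ : ℝ} (h : ∀ s : ℝ, 0 ≤ s * A₁ + s ^ 2 * A₂ + s ^ 3 * A₃ + s ^ 4 * A₄) :
    A₁ = 0 := by
  by_contra hne
  -- derivative at zero of a function with a minimum there
  have hd : HasDerivAt (fun s : ℝ => s * A₁ + s ^ 2 * A₂ + s ^ 3 * A₃ + s ^ 4 * A₄)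
      (1 * A₁ + (2 * (0 : ℝ) ^ 1) * A₂ + (3 * (0 : ℝ) ^ 2) * A₃ + (4 * (0 : ℝ) ^ 3) * A₄) 0 := by
    have h1 : HasDerivAt (fun s : ℝ => s * A₁) (1 * A₁) 0 := (hasDerivAt_id (0 : ℝ)).mul_const A₁
    have h2 : HasDerivAt (fun s : ℝ => s ^ 2 * A₂) ((2 * (0 : ℝ) ^ 1) * A₂) 0 := by
      simpa using (hasDerivAt_pow 2 (0 : ℝ)).mul_const A₂
    have h3 : HasDerivAt (fun s : ℝ => s ^ 3 * A₃) ((3 * (0 : ℝ) ^ 2) * A₃) 0 := by
      simpa using (hasDerivAt_pow 3 (0 : ℝ)).mul_const A₃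
    have h4 : HasDerivAt (fun s : ℝ => s ^ 4 * A₄) ((4 * (0 : ℝ) ^ 3) * A₄) 0 := by
      simpa using (hasDerivAt_pow 4 (0 : ℝ)).mul_const A₄
    exact ((h1.add h2).add h3).add h4
  have hmin : IsLocalMin (fun s : ℝ => s * A₁ + s ^ 2 * A₂ + s ^ 3 * A₃ + s ^ 4 * A₄) 0 := by
    refine Eventually.of_forall (fun s => ?_)
    simpa using h s
  have := hmin.hasDerivAt_eq_zero hd
  apply hne
  simpa using this

variable {ι : Type} [Fintype ι] {k : ℕ}

theorem phi_herm (w : ι → Fin 3 → ℝ) (v : ι → Fin k → ℂ) : Herm (Phi w v) := by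
  intro m i j
  unfold Phi
  rw [map_sum]
  refine Finset.sum_congr rfl (fun l _ => ?_)
  simp only [map_mul, Complex.conj_ofReal, Complex.conj_conj]
  ring

/-- the linear part -/
noncomputable def PP (w : ι → Fin 3 → ℝ) (v δ : ι → Fin k → ℂ) : Fin 3 → Fin k → Fin k → ℂ :=
  fun m i j => ∑ l, (w l m : ℂ) * (δ l i * conj (v l j) + v l i * conj (δ l j))

theorem phi_add (w : ι → Fin 3 → ℝ) (v δ : ι → Fin k → ℂ) (s : ℝ) (m : Fin 3) (i j : Fin k) :
    Phi w (fun l i => v l i + (s : ℂ) * δ l i) m i j =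
      Phi w v m i j + (s : ℂ) * PP w v δ m i j + (s : ℂ) ^ 2 * Phi w δ m i j := by
  unfold Phi PP
  rw [Finset.mul_sum, Finset.mul_sum, ← Finset.sum_add_distrib, ← Finset.sum_add_distrib]
  refine Finset.sum_congr rfl (fun l _ => ?_)
  simp only [map_add, map_mul, Complex.conj_ofReal]
  ring

theorem normSq_quad (a p q : ℂ) (s : ℝ) :
    Complex.normSq (a + (s : ℂ) * p + (s : ℂ) ^ 2 * q) = Complex.normSq a +
      s * (2 * (conj p * a).re) + s ^ 2 * (Complex.normSq p + 2 * (conj q * a).re) +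
      s ^ 3 * (2 * (conj q * p).re) + s ^ 4 * Complex.normSq q := by
  simp only [Complex.normSq_apply, Complex.add_re, Complex.add_im, Complex.mul_re, Complex.mul_im,
    Complex.ofReal_re, Complex.ofReal_im, Complex.conj_re, Complex.conj_im, pow_two]
  ring

theorem normSq_lin (a p : ℂ) (s : ℝ) :
    Complex.normSq (a + (s : ℂ) * p) = Complex.normSq a +
      s * (2 * (conj p * a).re) + s ^ 2 * Complex.normSq p := by
  simp only [Complex.normSq_apply, Complex.add_re, Complex.add_im, Complex.mul_re, Complex.mul_im,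
    Complex.ofReal_re, Complex.ofReal_im, Complex.conj_re, Complex.conj_im]
  ring

/-- expansion of the function that is minimised -/
theorem ff_expand (w : ι → Fin 3 → ℝ) (T : Fin 3 → Fin k → Fin k → ℂ) (l₁ : ι) (K : ℝ)
    (v δ : ι → Fin k → ℂ) : ∃ A₂ A₃ A₄ : ℝ, ∀ s : ℝ,
    FF w T l₁ K (fun l i => v l i + (s : ℂ) * δ l i) - FF w T l₁ K v =
      s * (∑ i, 2 * (conj (δ l₁ i) * v l₁ i).re +
        K * ∑ m, ∑ i, ∑ j, 2 * (conj (PP w v δ m i j) * (Phi w v m i j - T m i j)).re) +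
      s ^ 2 * A₂ + s ^ 3 * A₃ + s ^ 4 * A₄ := by
  refine ⟨∑ i, Complex.normSq (δ l₁ i) + K * ∑ m, ∑ i, ∑ j, (Complex.normSq (PP w v δ m i j) +
      2 * (conj (Phi w δ m i j) * (Phi w v m i j - T m i j)).re),
    K * ∑ m, ∑ i, ∑ j, 2 * (conj (Phi w δ m i j) * PP w v δ m i j).re,
    K * ∑ m, ∑ i, ∑ j, Complex.normSq (Phi w δ m i j), fun s => ?_⟩
  have h1 : ∑ i, Complex.normSq (v l₁ i + (s : ℂ) * δ l₁ i) = ∑ i, Complex.normSq (v l₁ i) +
      s * ∑ i, 2 * (conj (δ l₁ i) * v l₁ i).re + s ^ 2 * ∑ i, Complex.normSq (δ l₁ i) := by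
    rw [Finset.mul_sum, Finset.mul_sum, ← Finset.sum_add_distrib, ← Finset.sum_add_distrib]
    exact Finset.sum_congr rfl (fun i _ => normSq_lin _ _ _)
  have h2 : ∑ m, ∑ i, ∑ j, Complex.normSq (Phi w (fun l i => v l i + (s : ℂ) * δ l i) m i j -
        T m i j) = ∑ m, ∑ i, ∑ j, Complex.normSq (Phi w v m i j - T m i j) +
      s * (∑ m, ∑ i, ∑ j, 2 * (conj (PP w v δ m i j) * (Phi w v m i j - T m i j)).re) +
      s ^ 2 * (∑ m, ∑ i, ∑ j, (Complex.normSq (PP w v δ m i j) +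
        2 * (conj (Phi w δ m i j) * (Phi w v m i j - T m i j)).re)) +
      s ^ 3 * (∑ m, ∑ i, ∑ j, 2 * (conj (Phi w δ m i j) * PP w v δ m i j).re) +
      s ^ 4 * (∑ m, ∑ i, ∑ j, Complex.normSq (Phi w δ m i j)) := by
    simp only [Finset.mul_sum, ← Finset.sum_add_distrib]
    refine Finset.sum_congr rfl (fun m _ => Finset.sum_congr rfl (fun i _ =>
      Finset.sum_congr rfl (fun j _ => ?_)))
    rw [phi_add, ← normSq_quad]
    congr 1
    ring
  unfold FF
  rw [h1, h2]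
  ring

theorem sum4 (f : Fin 3 → Fin k → Fin k → ι → ℂ) :
    ∑ m, ∑ i, ∑ j, ∑ l, f m i j l = ∑ l, ∑ i, ∑ m, ∑ j, f m i j l := by
  calc ∑ m, ∑ i, ∑ j, ∑ l, f m i j l = ∑ m, ∑ i, ∑ l, ∑ j, f m i j l :=
        Finset.sum_congr rfl (fun m _ => Finset.sum_congr rfl (fun i _ => Finset.sum_comm))
    _ = ∑ m, ∑ l, ∑ i, ∑ j, f m i j l := Finset.sum_congr rfl (fun m _ => Finset.sum_comm)
    _ = ∑ l, ∑ m, ∑ i, ∑ j, f m i j l := Finset.sum_comm
    _ = ∑ l, ∑ i, ∑ m, ∑ j, f m i j l := Finset.sum_congr rfl (fun l _ => Finset.sum_comm)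

theorem pp_sum (w : ι → Fin 3 → ℝ) (v δ : ι → Fin k → ℂ) (D : Fin 3 → Fin k → Fin k → ℂ)
    (hD : Herm D) : ∑ m, ∑ i, ∑ j, (conj (PP w v δ m i j) * D m i j).re =
      2 * (∑ l, ∑ i, (conj (δ l i) * ap D (co (w l)) (v l) i)).re := by
  have e1 : ∑ m, ∑ i, ∑ j, conj (PP w v δ m i j) * D m i j =
      ∑ m, ∑ i, ∑ j, ∑ l, ((w l m : ℂ) * (conj (δ l i) * v l j * D m i j)) +
      ∑ m, ∑ i, ∑ j, ∑ l, ((w l m : ℂ) * (conj (v l i) * δ l j * D m i j)) := by
    simp only [← Finset.sum_add_distrib]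
    refine Finset.sum_congr rfl (fun m _ => Finset.sum_congr rfl (fun i _ =>
      Finset.sum_congr rfl (fun j _ => ?_)))
    unfold PP
    rw [map_sum, Finset.sum_mul]
    refine Finset.sum_congr rfl (fun l _ => ?_)
    simp only [map_mul, map_add, Complex.conj_ofReal, Complex.conj_conj]
    ring
  have e2 : ∑ m, ∑ i, ∑ j, ∑ l, ((w l m : ℂ) * (conj (v l i) * δ l j * D m i j)) =
      conj (∑ m, ∑ i, ∑ j, ∑ l, ((w l m : ℂ) * (conj (δ l i) * v l j * D m i j))) := by
    rw [map_sum]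
    refine Finset.sum_congr rfl (fun m _ => ?_)
    rw [map_sum, Finset.sum_comm]
    refine Finset.sum_congr rfl (fun i _ => ?_)
    rw [map_sum]
    refine Finset.sum_congr rfl (fun j _ => ?_)
    rw [map_sum]
    refine Finset.sum_congr rfl (fun l _ => ?_)
    simp only [map_mul, Complex.conj_ofReal, Complex.conj_conj]
    rw [← hD m i j]
    ring
  have e3 : ∑ m, ∑ i, ∑ j, ∑ l, ((w l m : ℂ) * (conj (δ l i) * v l j * D m i j)) =
      ∑ l, ∑ i, (conj (δ l i) * ap D (co (w l)) (v l) i) := by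
    have : ∀ l i, conj (δ l i) * ap D (co (w l)) (v l) i =
        ∑ m, ∑ j, ((w l m : ℂ) * (conj (δ l i) * v l j * D m i j)) := by
      intro l i
      unfold ap co
      rw [Finset.mul_sum]
      refine Finset.sum_congr rfl (fun m _ => ?_)
      rw [Finset.mul_sum]
      refine Finset.sum_congr rfl (fun j _ => ?_)
      ring
    simp only [this]
    exact sum4 _
  have e4 : ∑ m, ∑ i, ∑ j, (conj (PP w v δ m i j) * D m i j).re =
      (∑ m, ∑ i, ∑ j, conj (PP w v δ m i j) * D m i j).re := by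
    simp only [Complex.re_sum]
  rw [e4, e1, e2, e3, Complex.add_re, Complex.conj_re]
  ring

theorem ap_smul_pencil (a : ℂ) (D : Fin 3 → Fin k → Fin k → ℂ) (c : Fin 3 → ℂ) (x : Fin k → ℂ)
    (i : Fin k) : ap (fun m i j => a * D m i j) c x i = a * ap D c x i := by
  unfold ap
  rw [Finset.mul_sum]
  refine Finset.sum_congr rfl (fun m _ => ?_)
  rw [Finset.mul_sum]
  refine Finset.sum_congr rfl (fun j _ => ?_)
  ring

end Pool.Agent.MCT.Firstx

namespace Pool.Agent.MCT

open Finset Filter Firstx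
open scoped ComplexConjugate Topology

theorem thm_First : St_First := by
  intro ι _ _ k w T l₁ K v hT hmin
  set D : Fin 3 → Fin k → Fin k → ℂ := fun m i j => Phi w v m i j - T m i j with hDdef
  have hD : Herm D := by
    intro m i j
    simp only [hDdef, map_sub]
    rw [← phi_herm w v m i j, ← hT m i j]
  have hLD : LL w T K v = fun m i j => -(2 * K : ℂ) * D m i j := rfl
  have hL : Herm (LL w T K v) := by
    intro m i j
    rw [hLD]
    simp only [map_mul, map_neg, map_ofNat, Complex.conj_ofReal]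
    rw [← hD m i j]
  -- the first variation
  have hvar : ∀ δ : ι → Fin k → ℂ, (∑ l, ∑ i, conj (δ l i) *
      ((if l = l₁ then v l₁ i else 0) - ap (LL w T K v) (co (w l)) (v l) i)).re = 0 := by
    intro δ
    obtain ⟨A₂, A₃, A₄, hE⟩ := ff_expand w T l₁ K v δ
    have h0 : (∑ i, 2 * (conj (δ l₁ i) * v l₁ i).re +
        K * ∑ m, ∑ i, ∑ j, 2 * (conj (PP w v δ m i j) * (Phi w v m i j - T m i j)).re) = 0 := by
      apply poly_lin (A₂ := A₂) (A₃ := A₃) (A₄ := A₄)
      intro s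
      rw [← hE s]
      exact sub_nonneg.2 (hmin _)
    have h1 : ∑ m, ∑ i, ∑ j, 2 * (conj (PP w v δ m i j) * (Phi w v m i j - T m i j)).re =
        2 * ∑ m, ∑ i, ∑ j, (conj (PP w v δ m i j) * D m i j).re := by
      simp only [Finset.mul_sum, hDdef]
    rw [h1, pp_sum w v δ D hD] at h0
    have h2 : ∑ i, 2 * (conj (δ l₁ i) * v l₁ i).re =
        2 * (∑ l, ∑ i, conj (δ l i) * (if l = l₁ then v l₁ i else 0)).re := by
      have : ∑ l, ∑ i, conj (δ l i) * (if l = l₁ then v l₁ i else 0) =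
          ∑ i, conj (δ l₁ i) * v l₁ i := by
        rw [Finset.sum_eq_single l₁]
        · simp
        · intro l _ hl
          simp [hl]
        · intro h
          exact absurd (Finset.mem_univ _) h
      rw [this, Complex.re_sum, Finset.mul_sum]
    rw [h2] at h0
    have h3 : (∑ l, ∑ i, conj (δ l i) *
        ((if l = l₁ then v l₁ i else 0) - ap (LL w T K v) (co (w l)) (v l) i)) =
        ∑ l, ∑ i, conj (δ l i) * (if l = l₁ then v l₁ i else 0) +
        ((2 * K : ℝ) : ℂ) * ∑ l, ∑ i, conj (δ l i) * ap D (co (w l)) (v l) i := by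
      rw [Finset.mul_sum, ← Finset.sum_add_distrib]
      refine Finset.sum_congr rfl (fun l _ => ?_)
      rw [Finset.mul_sum, ← Finset.sum_add_distrib]
      refine Finset.sum_congr rfl (fun i _ => ?_)
      rw [hLD, ap_smul_pencil]
      push_cast
      ring
    rw [h3, Complex.add_re, Complex.re_ofReal_mul]
    linarith
  have hzero : ∀ l i, (if l = l₁ then v l₁ i else 0) - ap (LL w T K v) (co (w l)) (v l) i = 0 := by
    have h := hvar (fun l i => (if l = l₁ then v l₁ i else 0) - ap (LL w T K v) (co (w l)) (v l) i)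
    have h' : ∑ l, ∑ i, Complex.normSq ((if l = l₁ then v l₁ i else 0) -
        ap (LL w T K v) (co (w l)) (v l) i) = 0 := by
      rw [← h, Complex.re_sum]
      refine Finset.sum_congr rfl (fun l _ => ?_)
      rw [Complex.re_sum]
      refine Finset.sum_congr rfl (fun i _ => ?_)
      rw [mul_comm, Complex.mul_conj, Complex.ofReal_re]
    intro l i
    have h1 := (Finset.sum_eq_zero_iff_of_nonneg (fun l _ =>
      Finset.sum_nonneg (fun i _ => Complex.normSq_nonneg _))).1 h' l (Finset.mem_univ _)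
    have h2 := (Finset.sum_eq_zero_iff_of_nonneg (fun i _ => Complex.normSq_nonneg _)).1 h1 i
      (Finset.mem_univ _)
    exact Complex.normSq_eq_zero.1 h2
  refine ⟨hL, fun l hl => ?_, ?_⟩
  · funext i
    have := hzero l i
    rw [if_neg hl] at this
    simpa using this
  · funext i
    have := hzero l₁ i
    rw [if_pos rfl] at this
    exact (sub_eq_zero.1 this).symm

end Pool.Agent.MCT
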