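import Mathlib
import Pool.Agent.MCT.StA

set_option autoImplicit false

namespace Pool.Agent.MCT

open Finset Filter
open scoped ComplexConjugate Topology

namespace Minorx

variable {k : ℕ} {L : Fin 3 → Fin k → Fin k → ℂ}

theorem ap_add (c : Fin 3 → ℂ) (x y : Fin k → ℂ) : ap L c (x + y) = ap L c x + ap L c y := by
  funext i
  unfold ap
  rw [Pi.add_apply, ← Finset.sum_add_distrib]
  refine Finset.sum_congr rfl (fun m _ => ?_)
  rw [← Finset.sum_add_distrib]
  refine Finset.sum_congr rfl (fun j _ => ?_)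
  rw [Pi.add_apply]
  ring

theorem ap_smul (c : Fin 3 → ℂ) (a : ℂ) (x : Fin k → ℂ) : ap L c (a • x) = a • ap L c x := by
  funext i
  unfold ap
  rw [Pi.smul_apply, smul_eq_mul, Finset.mul_sum]
  refine Finset.sum_congr rfl (fun m _ => ?_)
  rw [Finset.mul_sum]
  refine Finset.sum_congr rfl (fun j _ => ?_)
  rw [Pi.smul_apply, smul_eq_mul]
  ring

theorem ap_sum {σ : Type} (s : Finset σ) (c : Fin 3 → ℂ) (t : σ → ℂ) (x : σ → Fin k → ℂ) :
    ap L c (∑ r ∈ s, t r • x r) = ∑ r ∈ s, t r • ap L c (x r) := by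
  classical
  induction s using Finset.induction_on with
  | empty =>
    funext i
    simp [ap]
  | insert a s ha ih => rw [Finset.sum_insert ha, Finset.sum_insert ha, ap_add, ap_smul, ih]

theorem ap_ker (c : Fin 3 → ℂ) {x : Fin k → ℂ} (hx : x ∈ Ker L) : ap L c x = 0 := by
  funext i
  unfold ap
  simp only [Pi.zero_apply]
  refine Finset.sum_eq_zero (fun m _ => ?_)
  have h1 : ∑ j, L m i j * x j = 0 := hx m i
  calc ∑ j, c m * L m i j * x j = c m * ∑ j, L m i j * x j := by
        rw [Finset.mul_sum]; exact Finset.sum_congr rfl (fun j _ => by ring)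
    _ = 0 := by rw [h1, mul_zero]

/-- the range of `L(c)` is orthogonal to the kernel -/
theorem ker_orth (hL : Herm L) (c : Fin 3 → ℂ) {z : Fin k → ℂ} (hz : z ∈ Ker L)
    (u : Fin k → ℂ) : ∑ i, conj (z i) * ap L c u i = 0 := by
  have e : ∑ i, conj (z i) * ap L c u i = ∑ m, ∑ j, c m * u j * conj (∑ i, L m j i * z i) := by
    unfold ap
    calc ∑ i, conj (z i) * ∑ m, ∑ j, c m * L m i j * u j
        = ∑ i, ∑ m, ∑ j, conj (z i) * (c m * L m i j * u j) := by
          refine Finset.sum_congr rfl (fun i _ => ?_)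
          rw [Finset.mul_sum]
          exact Finset.sum_congr rfl (fun m _ => by rw [Finset.mul_sum])
      _ = ∑ m, ∑ i, ∑ j, conj (z i) * (c m * L m i j * u j) := Finset.sum_comm
      _ = ∑ m, ∑ j, ∑ i, conj (z i) * (c m * L m i j * u j) :=
          Finset.sum_congr rfl (fun m _ => Finset.sum_comm)
      _ = _ := by
          refine Finset.sum_congr rfl (fun m _ => Finset.sum_congr rfl (fun j _ => ?_))
          rw [map_sum, Finset.mul_sum]
          refine Finset.sum_congr rfl (fun i _ => ?_)
          rw [map_mul, hL m i j, Complex.conj_conj]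
          ring
  rw [e]
  refine Finset.sum_eq_zero (fun m _ => Finset.sum_eq_zero (fun j _ => ?_))
  have h1 : ∑ i, L m j i * z i = 0 := hz m j
  rw [h1, map_zero, mul_zero]

theorem bil_sum_left {σ : Type} (s : Finset σ) (c : Fin 3 → ℂ) (t : σ → ℂ) (x : σ → Fin k → ℂ)
    (u : Fin k → ℂ) : ∑ i, conj ((∑ r ∈ s, t r • x r) i) * ap L c u i =
      ∑ r ∈ s, conj (t r) * bil L c (x r) u := by
  unfold bil
  simp only [Finset.mul_sum]
  rw [Finset.sum_comm]
  refine Finset.sum_congr rfl (fun i _ => ?_)
  rw [Finset.sum_apply, map_sum, Finset.sum_mul]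
  refine Finset.sum_congr rfl (fun r _ => ?_)
  rw [Pi.smul_apply, smul_eq_mul, map_mul]
  ring

theorem bil_sum_right {σ : Type} (s : Finset σ) (c : Fin 3 → ℂ) (t : σ → ℂ) (x : σ → Fin k → ℂ)
    (u : Fin k → ℂ) : bil L c u (∑ r ∈ s, t r • x r) = ∑ r ∈ s, bil L c u (x r) * t r := by
  unfold bil
  rw [ap_sum]
  simp only [Finset.sum_mul]
  rw [Finset.sum_comm]
  refine Finset.sum_congr rfl (fun i _ => ?_)
  rw [Finset.sum_apply, Finset.mul_sum]
  refine Finset.sum_congr rfl (fun r _ => ?_)
  rw [Pi.smul_apply, smul_eq_mul]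
  ring

end Minorx

open Minorx

theorem thm_Minor (h1 : St_DetPoly) : St_Minor := by
  intro k L hL
  obtain ⟨W, hW⟩ := Submodule.exists_isCompl (Ker L)
  have hdim : Module.finrank ℂ W = k - Module.finrank ℂ (Ker L) := by
    have := Submodule.finrank_add_eq_of_isCompl hW
    rw [Module.finrank_pi, Fintype.card_fin] at this
    omega
  set p := k - Module.finrank ℂ (Ker L) with hp
  let y : Module.Basis (Fin p) ℂ W := Module.finBasisOfFinrankEq ℂ W hdim
  let M : Fin 3 → Matrix (Fin p) (Fin p) ℂ := fun m => Matrix.of fun r s =>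
    ∑ i, conj ((y r : Fin k → ℂ) i) * ∑ j, L m i j * (y s : Fin k → ℂ) j
  obtain ⟨q, hq⟩ := h1 p (M 0) (M 1) (M 2)
  refine ⟨q, fun a b => ?_⟩
  rw [← hq a b]
  set c : Fin 3 → ℂ := ![1, a, b] with hc
  have hent : ∀ r s, (M 0 + a • M 1 + b • M 2) r s =
      bil L c (y r : Fin k → ℂ) (y s : Fin k → ℂ) := by
    intro r s
    have e : bil L c (y r : Fin k → ℂ) (y s : Fin k → ℂ) = ∑ m, c m * M m r s := by
      unfold bil ap
      simp only [M, Matrix.of_apply, Finset.mul_sum]
      rw [Finset.sum_comm]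
      refine Finset.sum_congr rfl (fun m _ => Finset.sum_congr rfl (fun i _ =>
        Finset.sum_congr rfl (fun j _ => ?_)))
      ring
    rw [e, Fin.sum_univ_three]
    simp [hc]
  have hmv : ∀ (t : Fin p → ℂ) r, ((M 0 + a • M 1 + b • M 2).mulVec t) r =
      bil L c (y r : Fin k → ℂ) (∑ s, t s • (y s : Fin k → ℂ)) := by
    intro t r
    rw [bil_sum_right]
    unfold Matrix.mulVec dotProduct
    exact Finset.sum_congr rfl (fun s _ => congrArg (fun z => z * t s) (hent r s))
  rw [← Matrix.exists_mulVec_eq_zero_iff]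
  constructor
  · rintro ⟨t, ht0, ht⟩
    set u : Fin k → ℂ := ∑ s, t s • (y s : Fin k → ℂ) with hu
    have huW : u ∈ W := by
      rw [hu]
      exact Submodule.sum_mem _ (fun s _ => Submodule.smul_mem _ _ (y s).2)
    have hu0 : u ≠ 0 := by
      intro h0
      apply ht0
      have h2 : (∑ s, t s • y s : W) = 0 := by
        apply Subtype.ext
        rw [Submodule.coe_zero, ← h0, hu]
        simp
      funext s
      exact (Fintype.linearIndependent_iff.1 y.linearIndependent t h2) s
    refine ⟨u, fun hK => ?_, ?_⟩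
    · have : u ∈ Ker L ⊓ W := ⟨hK, huW⟩
      rw [hW.inf_eq_bot] at this
      exact hu0 ((Submodule.mem_bot ℂ).1 this)
    · -- `h = L(c) u` is orthogonal to everything
      set h := ap L c u with hh
      have horth : ∀ g : Fin k → ℂ, ∑ i, conj (g i) * h i = 0 := by
        intro g
        have hg : g ∈ Ker L ⊔ W := by rw [hW.sup_eq_top]; trivial
        obtain ⟨z, hz, w', hw', rfl⟩ := Submodule.mem_sup.1 hg
        have hw2 : w' = ∑ s, (y.repr ⟨w', hw'⟩ s) • (y s : Fin k → ℂ) := by
          have := congrArg (Subtype.val) (y.sum_repr ⟨w', hw'⟩)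
          simp only [Submodule.coe_sum, Submodule.coe_smul] at this
          exact this.symm
        have e1 : ∑ i, conj ((z + w') i) * h i =
            ∑ i, conj (z i) * h i + ∑ i, conj (w' i) * h i := by
          rw [← Finset.sum_add_distrib]
          refine Finset.sum_congr rfl (fun i _ => ?_)
          rw [Pi.add_apply, map_add]
          ring
        rw [e1, hh, ker_orth hL c hz u, zero_add, hw2, bil_sum_left]
        refine Finset.sum_eq_zero (fun r _ => ?_)
        rw [← hmv t r, ht, Pi.zero_apply, mul_zero]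
      have h2 := horth h
      have h3 : ∑ i, Complex.normSq (h i) = 0 := by
        have h4 : ((∑ i, Complex.normSq (h i) : ℝ) : ℂ) = 0 := by
          rw [← h2]
          push_cast
          exact Finset.sum_congr rfl (fun i _ => Complex.normSq_eq_conj_mul_self)
        exact_mod_cast h4
      funext i
      exact Complex.normSq_eq_zero.1 ((Finset.sum_eq_zero_iff_of_nonneg
        (fun i _ => Complex.normSq_nonneg _)).1 h3 i (Finset.mem_univ _))
  · rintro ⟨u, huK, hu⟩
    have hg : u ∈ Ker L ⊔ W := by rw [hW.sup_eq_top]; trivial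
    obtain ⟨z, hz, w', hw', rfl⟩ := Submodule.mem_sup.1 hg
    have hw0 : w' ≠ 0 := by
      rintro rfl
      apply huK
      rw [add_zero]
      exact hz
    have hapw : ap L c w' = 0 := by
      rw [ap_add, ap_ker c hz, zero_add] at hu
      exact hu
    have hw2 : w' = ∑ s, (y.repr ⟨w', hw'⟩ s) • (y s : Fin k → ℂ) := by
      have := congrArg (Subtype.val) (y.sum_repr ⟨w', hw'⟩)
      simp only [Submodule.coe_sum, Submodule.coe_smul] at this
      exact this.symm
    refine ⟨fun s => y.repr ⟨w', hw'⟩ s, ?_, ?_⟩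
    · intro h0
      apply hw0
      rw [hw2]
      refine Finset.sum_eq_zero (fun s _ => ?_)
      rw [congrFun h0 s, Pi.zero_apply, zero_smul]
    · funext r
      rw [hmv, ← hw2]
      unfold bil
      rw [hapw]
      simp

end Pool.Agent.MCT
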