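import Mathlib
import Pool.Agent.MCT.StA
import Pool.Agent.MCT.First
import Pool.Agent.MCT.Minor

set_option autoImplicit false

namespace Pool.Agent.MCT

open Finset Filter Firstx Minorx
open scoped ComplexConjugate Topology

namespace Singx

theorem poly_real (P : Polynomial ℂ) (h : ∀ t : ℝ, P.eval (t : ℂ) = 0) : P = 0 := by
  apply Polynomial.eq_zero_of_infinite_isRoot
  have h1 : (Set.range (fun t : ℝ => (t : ℂ))).Infinite :=
    Set.infinite_range_of_injective Complex.ofReal_injective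
  refine h1.mono ?_
  rintro _ ⟨t, rfl⟩
  exact h t

theorem pol_x (p : ℕ) (q : ℕ → ℕ → ℂ) (y : ℂ) : ∃ P : Polynomial ℂ, ∀ x, P.eval x = pol p q x y := by
  refine ⟨∑ i ∈ range (p + 1), ∑ j ∈ range (p + 1 - i), Polynomial.C (q i j * y ^ j) *
    Polynomial.X ^ i, fun x => ?_⟩
  unfold pol
  simp only [Polynomial.eval_finset_sum, Polynomial.eval_mul, Polynomial.eval_C,
    Polynomial.eval_pow, Polynomial.eval_X]
  refine Finset.sum_congr rfl (fun i _ => Finset.sum_congr rfl (fun j _ => ?_))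
  ring

theorem pol_y (p : ℕ) (q : ℕ → ℕ → ℂ) (x : ℂ) : ∃ P : Polynomial ℂ, ∀ y, P.eval y = pol p q x y := by
  refine ⟨∑ i ∈ range (p + 1), ∑ j ∈ range (p + 1 - i), Polynomial.C (q i j * x ^ i) *
    Polynomial.X ^ j, fun y => ?_⟩
  unfold pol
  simp only [Polynomial.eval_finset_sum, Polynomial.eval_mul, Polynomial.eval_C,
    Polynomial.eval_pow, Polynomial.eval_X]

theorem pol_all (p : ℕ) (q : ℕ → ℕ → ℂ) (h : ∀ x y : ℝ, pol p q x y = 0) (x y : ℂ) :
    pol p q x y = 0 := by
  have h1 : ∀ (x : ℝ) (y : ℂ), pol p q x y = 0 := by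
    intro x y
    obtain ⟨P, hP⟩ := pol_y p q x
    have : P = 0 := poly_real P (fun t => by rw [hP]; exact h x t)
    rw [← hP, this, Polynomial.eval_zero]
  obtain ⟨P, hP⟩ := pol_x p q y
  have : P = 0 := poly_real P (fun t => by rw [hP]; exact h1 t y)
  rw [← hP, this, Polynomial.eval_zero]

variable {k : ℕ} {L : Fin 3 → Fin k → Fin k → ℂ}

theorem ap_add_c (c d : Fin 3 → ℂ) (x : Fin k → ℂ) : ap L (c + d) x = ap L c x + ap L d x := by
  funext i
  unfold ap
  rw [Pi.add_apply, ← Finset.sum_add_distrib]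
  refine Finset.sum_congr rfl (fun m _ => ?_)
  rw [← Finset.sum_add_distrib]
  refine Finset.sum_congr rfl (fun j _ => ?_)
  rw [Pi.add_apply]
  ring

theorem ap_smul_c (a : ℂ) (c : Fin 3 → ℂ) (x : Fin k → ℂ) : ap L (a • c) x = a • ap L c x := by
  funext i
  unfold ap
  rw [Pi.smul_apply, smul_eq_mul, Finset.mul_sum]
  refine Finset.sum_congr rfl (fun m _ => ?_)
  rw [Finset.mul_sum]
  refine Finset.sum_congr rfl (fun j _ => ?_)
  rw [Pi.smul_apply, smul_eq_mul]
  ring

theorem bil_conj (hL : Herm L) (c : Fin 3 → ℝ) (x y : Fin k → ℂ) :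
    conj (bil L (co c) x y) = bil L (co c) y x := by
  unfold bil ap co
  rw [map_sum]
  simp only [map_mul, map_sum, Complex.conj_conj, Complex.conj_ofReal, Finset.mul_sum]
  calc ∑ i, ∑ m, ∑ j, x i * ((c m : ℂ) * conj (L m i j) * conj (y j))
      = ∑ i, ∑ j, ∑ m, x i * ((c m : ℂ) * conj (L m i j) * conj (y j)) :=
        Finset.sum_congr rfl (fun i _ => Finset.sum_comm)
    _ = ∑ j, ∑ i, ∑ m, x i * ((c m : ℂ) * conj (L m i j) * conj (y j)) := Finset.sum_comm
    _ = ∑ j, ∑ m, ∑ i, x i * ((c m : ℂ) * conj (L m i j) * conj (y j)) :=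
        Finset.sum_congr rfl (fun j _ => Finset.sum_comm)
    _ = _ := by
        refine Finset.sum_congr rfl (fun j _ => Finset.sum_congr rfl (fun m _ =>
          Finset.sum_congr rfl (fun i _ => ?_)))
        rw [← hL m i j]
        ring

theorem bil_im (hL : Herm L) (c : Fin 3 → ℝ) (x : Fin k → ℂ) : (bil L (co c) x x).im = 0 := by
  have h := congrArg Complex.im (bil_conj hL c x x)
  rw [Complex.conj_im] at h
  linarith

theorem bil_self (c : Fin 3 → ℂ) (u : Fin k → ℂ) :
    (bil L c (ap L c u) u).re = ∑ i, Complex.normSq (ap L c u i) := by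
  unfold bil
  rw [Complex.re_sum]
  refine Finset.sum_congr rfl (fun i _ => ?_)
  rw [← Complex.normSq_eq_conj_mul_self, Complex.ofReal_re]

/-- a null vector of a semidefinite form is in the kernel -/
theorem null_ker (hL : Herm L) (c : Fin 3 → ℝ) (hneg : ∀ x, (bil L (co c) x x).re ≤ 0)
    (u : Fin k → ℂ) (hu : (bil L (co c) u u).re = 0) : ap L (co c) u = 0 := by
  set h := ap L (co c) u with hh
  have hexp : ∀ s : ℝ, (bil L (co c) (u + (s : ℂ) • h) (u + (s : ℂ) • h)).re =
      (bil L (co c) u u).re + s * (2 * (bil L (co c) h u).re) + s ^ 2 * (bil L (co c) h h).re := by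
    intro s
    have e : bil L (co c) (u + (s : ℂ) • h) (u + (s : ℂ) • h) = bil L (co c) u u +
        (s : ℂ) * (bil L (co c) h u + bil L (co c) u h) + ((s ^ 2 : ℝ) : ℂ) * bil L (co c) h h := by
      unfold bil
      rw [ap_add, ap_smul, Finset.mul_sum, ← Finset.sum_add_distrib, Finset.mul_sum,
        ← Finset.sum_add_distrib, ← Finset.sum_add_distrib]
      refine Finset.sum_congr rfl (fun i _ => ?_)
      simp only [Pi.add_apply, Pi.smul_apply, smul_eq_mul, map_add, map_mul, Complex.conj_ofReal]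
      push_cast
      ring
    rw [e, ← bil_conj hL c h u, Complex.add_re, Complex.add_re, Complex.re_ofReal_mul,
      Complex.re_ofReal_mul, Complex.add_re, Complex.conj_re]
    ring
  have h0 : -(2 * (bil L (co c) h u).re) = 0 := by
    apply poly_lin (A₂ := -(bil L (co c) h h).re) (A₃ := 0) (A₄ := 0)
    intro s
    have h1 := hneg (u + (s : ℂ) • h)
    rw [hexp s, hu] at h1
    linarith
  have h1 : ∑ i, Complex.normSq (h i) = 0 := by
    rw [← bil_self (L := L) (co c) u]
    linarith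
  funext i
  exact Complex.normSq_eq_zero.1 ((Finset.sum_eq_zero_iff_of_nonneg
    (fun i _ => Complex.normSq_nonneg _)).1 h1 i (Finset.mem_univ _))

end Singx

open Singx

theorem thm_Sing (h1 : St_Minor) : St_Sing := by
  intro k L c hL hc hneg hsing p₁ p₂
  obtain ⟨q, hq⟩ := h1 k L hL
  have hall := pol_all _ q (fun x y => (hq x y).2 (hsing x y))
  obtain ⟨u, huK, hu⟩ := (hq ((c 1 : ℂ) - Complex.I * p₁) ((c 2 : ℂ) - Complex.I * p₂)).1
    (hall _ _)
  have hdec : (![1, (c 1 : ℂ) - Complex.I * p₁, (c 2 : ℂ) - Complex.I * p₂] : Fin 3 → ℂ) =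
      co c + (-Complex.I) • co ![0, p₁, p₂] := by
    funext m
    fin_cases m
    · simp [co, hc]
    · simp [co]; ring
    · simp [co]; ring
  have hco : (![0, (p₁ : ℂ), (p₂ : ℂ)] : Fin 3 → ℂ) = co ![0, p₁, p₂] := by
    funext m
    fin_cases m <;> simp [co]
  rw [hdec, ap_add_c, ap_smul_c] at hu
  have hb : bil L (co c) u u + (-Complex.I) * bil L (co ![0, p₁, p₂]) u u = 0 := by
    have e : bil L (co c) u u + (-Complex.I) * bil L (co ![0, p₁, p₂]) u u =
        ∑ i, conj (u i) * (ap L (co c) u + (-Complex.I) • ap L (co ![0, p₁, p₂]) u) i := by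
      unfold bil
      rw [Finset.mul_sum, ← Finset.sum_add_distrib]
      refine Finset.sum_congr rfl (fun i _ => ?_)
      rw [Pi.add_apply, Pi.smul_apply, smul_eq_mul]
      ring
    rw [e, hu]
    simp
  have hre : (bil L (co c) u u).re = 0 := by
    have h2 := congrArg Complex.re hb
    have h3 := bil_im hL ![0, p₁, p₂] u
    simp only [Complex.add_re, Complex.mul_re, Complex.neg_re, Complex.I_re, Complex.neg_im,
      Complex.I_im, Complex.zero_re] at h2
    rw [h3] at h2
    linarith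
  have hk := null_ker hL c hneg u hre
  refine ⟨u, huK, hk, ?_⟩
  rw [hco]
  rw [hk, zero_add] at hu
  rcases smul_eq_zero.1 hu with h | h
  · exfalso
    simp at h
  · exact h

end Pool.Agent.MCT
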