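import Mathlib
import Pool.Agent.MCT.StA
import Pool.Agent.MCT.Sing

set_option autoImplicit false

namespace Pool.Agent.MCT

open Finset Filter Firstx Minorx Singx
open scoped ComplexConjugate Topology

namespace Blockx

variable {k : ℕ} {L : Fin 3 → Fin k → Fin k → ℂ}

theorem co_hom (z : ℂ) : co (hom z) = ![1, (z.re : ℂ), (z.im : ℂ)] := by
  funext m
  fin_cases m <;> simp [co, hom]

/-- a vector killed by three independent members of the pencil is in the common kernel -/
theorem mem_ker_of_three (c : Fin 3 → ℝ) (hc : c 0 = 1) (t : ℝ) (u : Fin k → ℂ)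
    (h0 : ap L (co c) u = 0) (h1 : ap L (co ![0, 1, t]) u = 0) (h2 : ap L (co ![0, -t, 1]) u = 0) :
    u ∈ Ker L := by
  have ht : (1 : ℝ) + t ^ 2 ≠ 0 := by positivity
  have htC : ((1 + t ^ 2 : ℝ) : ℂ) ≠ 0 := Complex.ofReal_ne_zero.2 ht
  have e1 : ap L (co ![0, 1, 0]) u = 0 := by
    have : co ![0, 1, 0] = (((1 + t ^ 2)⁻¹ : ℝ) : ℂ) • co ![0, 1, t] +
        ((-t * (1 + t ^ 2)⁻¹ : ℝ) : ℂ) • co ![0, -t, 1] := by
      funext m
      fin_cases m
      · simp [co]
      · simp only [co, Pi.add_apply, Pi.smul_apply, smul_eq_mul]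
        rw [← Complex.ofReal_mul, ← Complex.ofReal_mul, ← Complex.ofReal_add]
        congr 1
        simp
        field_simp
      · simp only [co, Pi.add_apply, Pi.smul_apply, smul_eq_mul]
        rw [← Complex.ofReal_mul, ← Complex.ofReal_mul, ← Complex.ofReal_add]
        congr 1
        simp
        field_simp
        ring
    rw [this, ap_add_c, ap_smul_c, ap_smul_c, h1, h2]
    simp
  have e2 : ap L (co ![0, 0, 1]) u = 0 := by
    have : co ![0, 0, 1] = ((t * (1 + t ^ 2)⁻¹ : ℝ) : ℂ) • co ![0, 1, t] +
        (((1 + t ^ 2)⁻¹ : ℝ) : ℂ) • co ![0, -t, 1] := by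
      funext m
      fin_cases m
      · simp [co]
      · simp only [co, Pi.add_apply, Pi.smul_apply, smul_eq_mul]
        rw [← Complex.ofReal_mul, ← Complex.ofReal_mul, ← Complex.ofReal_add]
        congr 1
        simp
        field_simp
        ring
      · simp only [co, Pi.add_apply, Pi.smul_apply, smul_eq_mul]
        rw [← Complex.ofReal_mul, ← Complex.ofReal_mul, ← Complex.ofReal_add]
        congr 1
        simp
        field_simp
        ring
    rw [this, ap_add_c, ap_smul_c, ap_smul_c, h1, h2]
    simp
  have e0 : ap L (co ![1, 0, 0]) u = 0 := by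
    have : co ![1, 0, 0] = co c + ((-(c 1) : ℝ) : ℂ) • co ![0, 1, 0] +
        ((-(c 2) : ℝ) : ℂ) • co ![0, 0, 1] := by
      funext m
      fin_cases m
      · simp [co, hc]
      · simp [co]
      · simp [co]
    rw [this, ap_add_c, ap_add_c, ap_smul_c, ap_smul_c, h0, e1, e2]
    simp
  intro m i
  have g0 := congrFun e0 i
  have g1 := congrFun e1 i
  have g2 := congrFun e2 i
  simp only [ap, co, Fin.sum_univ_three, Pi.zero_apply] at g0 g1 g2
  fin_cases m
  · simpa using g0
  · simpa using g1
  · simpa using g2

end Blockx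

open Blockx

open Classical in
theorem thm_Block (h1 : St_Minor) (h2 : St_Sing) : St_Block := by
  intro ι _ _ k b v l₁ L hb hL hv1 hfo hfo1 hcex
  obtain ⟨c, hc, hneg⟩ := hcex
  obtain ⟨q, hq⟩ := h1 k L hL
  have hv1K : v l₁ ∉ Ker L := by
    intro h
    apply hv1
    rw [← hfo1, ap_ker _ h]
  have hlt : Module.finrank ℂ (Ker L) < k := by
    have h3 : Ker L ≠ ⊤ := by
      intro h
      apply hv1K
      rw [h]
      trivial
    have := Submodule.finrank_lt h3
    rwa [Module.finrank_pi, Fintype.card_fin] at this
  set P := k - Module.finrank ℂ (Ker L) with hP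
  by_cases hcase : ∃ x₀ y₀ : ℝ, pol P q x₀ y₀ ≠ 0
  · obtain ⟨x₀, y₀, hne⟩ := hcase
    set S : Finset ι := Finset.univ.filter (fun l => l ≠ l₁ ∧ v l ∉ Ker L) with hS
    have hScard : S.card < (P + 1) * (P + 2) / 2 := by
      by_contra hcon
      push Not at hcon
      apply hne
      have h3 := hb.2 P S hcon q (by
        intro l hl
        rw [hS, Finset.mem_filter] at hl
        rw [hq]
        refine ⟨v l, hl.2.2, ?_⟩
        rw [← co_hom]
        exact hfo l hl.2.1)
      unfold pol
      refine Finset.sum_eq_zero (fun i hi => Finset.sum_eq_zero (fun j hj => ?_))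
      rw [Finset.mem_range] at hi hj
      rw [h3 i j (by omega)]
      ring
    refine ⟨P, Module.finrank ℂ (Ker L), insert l₁ S, Ker L, by omega, by omega, rfl, ?_, ?_⟩
    · exact (Finset.card_insert_le _ _).trans hScard
    · intro l hl
      by_contra hcon
      apply hl
      rw [Finset.mem_insert]
      by_cases h : l = l₁
      · exact Or.inl h
      · right
        rw [hS, Finset.mem_filter]
        exact ⟨Finset.mem_univ _, h, hcon⟩
  · push Not at hcase
    have hsing : ∀ x y : ℝ, ∃ u, u ∉ Ker L ∧ ap L ![1, (x : ℂ), (y : ℂ)] u = 0 :=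
      fun x y => (hq x y).1 (hcase x y)
    obtain ⟨t, ht⟩ := Infinite.exists_notMem_finset
      (Finset.univ.image (fun l : ι => ((b l).im - c 2) / ((b l).re - c 1)))
    obtain ⟨u, huK, hu1, hu2⟩ := h2 k L c hL hc hneg hsing 1 t
    have hco : (![0, ((1 : ℝ) : ℂ), (t : ℂ)] : Fin 3 → ℂ) = co ![0, 1, t] := by
      funext m
      fin_cases m <;> simp [co]
    rw [hco] at hu2
    set e := ap L (co ![0, -t, 1]) u with he
    have he0 : e ≠ 0 := fun h => huK (mem_ker_of_three c hc t u hu1 hu2 h)
    have hk1 : 1 ≤ k := by omega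
    have ht2 : (1 : ℝ) + t ^ 2 ≠ 0 := by positivity
    -- the functional
    let f : (Fin k → ℂ) →ₗ[ℂ] ℂ :=
      { toFun := fun x => ∑ i, conj (e i) * x i
        map_add' := by
          intro x y
          rw [← Finset.sum_add_distrib]
          exact Finset.sum_congr rfl (fun i _ => by rw [Pi.add_apply]; ring)
        map_smul' := by
          intro a x
          simp only [RingHom.id_apply, smul_eq_mul, Pi.smul_apply]
          rw [Finset.mul_sum]
          exact Finset.sum_congr rfl (fun i _ => by ring) }
    have hfe : ∀ x, f x = ∑ i, conj (e i) * x i := fun x => rfl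
    have hf0 : f ≠ 0 := by
      intro h
      have h3 : f e = 0 := by rw [h]; rfl
      rw [hfe] at h3
      have h4 : ∑ i, Complex.normSq (e i) = 0 := by
        have h5 : ((∑ i, Complex.normSq (e i) : ℝ) : ℂ) = 0 := by
          rw [← h3]
          push_cast
          exact Finset.sum_congr rfl (fun i _ => Complex.normSq_eq_conj_mul_self)
        exact_mod_cast h5
      apply he0
      funext i
      exact Complex.normSq_eq_zero.1 ((Finset.sum_eq_zero_iff_of_nonneg
        (fun i _ => Complex.normSq_nonneg _)).1 h4 i (Finset.mem_univ _))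
    have hfr : Module.finrank ℂ (LinearMap.ker f) = k - 1 := by
      have := Module.Dual.finrank_ker_add_one_of_ne_zero (f := f) hf0
      rw [Module.finrank_pi, Fintype.card_fin] at this
      omega
    -- the decomposition of the points
    have hdec : ∀ l, ap L (co (hom (b l))) u =
        (((((b l).im - c 2) - t * ((b l).re - c 1)) / (1 + t ^ 2) : ℝ) : ℂ) • e := by
      intro l
      have h3 : co (hom (b l)) = co c +
          (((((b l).re - c 1) + t * ((b l).im - c 2)) / (1 + t ^ 2) : ℝ) : ℂ) • co ![0, 1, t] +
          (((((b l).im - c 2) - t * ((b l).re - c 1)) / (1 + t ^ 2) : ℝ) : ℂ) •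
            co ![0, -t, 1] := by
        funext m
        simp only [co, Pi.add_apply, Pi.smul_apply, smul_eq_mul]
        rw [← Complex.ofReal_mul, ← Complex.ofReal_mul, ← Complex.ofReal_add,
          ← Complex.ofReal_add]
        congr 1
        fin_cases m
        · simp [hom, hc]
        · simp [hom]
          field_simp
          ring
        · simp [hom]
          field_simp
          ring
      rw [h3, ap_add_c, ap_add_c, ap_smul_c, ap_smul_c, hu1, hu2, ← he]
      simp
    set z₀ : ℂ := ⟨c 1, c 2⟩ with hz₀
    refine ⟨1, k - 1, insert l₁ (Finset.univ.filter (fun l => b l = z₀)), LinearMap.ker f,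
      le_refl _, by omega, hfr, ?_, ?_⟩
    · have h3 : (Finset.univ.filter (fun l => b l = z₀)).card ≤ 1 := by
        rw [Finset.card_le_one]
        intro x hx y hy
        rw [Finset.mem_filter] at hx hy
        exact hb.1 (hx.2.trans hy.2.symm)
      have h4 := Finset.card_insert_le l₁ (Finset.univ.filter (fun l => b l = z₀))
      norm_num
      omega
    · intro l hl
      rw [Finset.mem_insert, not_or, Finset.mem_filter, not_and] at hl
      obtain ⟨hl1, hl2⟩ := hl
      have hl3 := hl2 (Finset.mem_univ _)
      rw [LinearMap.mem_ker, hfe]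
      have h3 : bil L (co (hom (b l))) (v l) u = 0 := by
        rw [← bil_conj hL, map_eq_zero]
        unfold bil
        rw [hfo l hl1]
        simp
      have h4 : bil L (co (hom (b l))) (v l) u =
          (((((b l).im - c 2) - t * ((b l).re - c 1)) / (1 + t ^ 2) : ℝ) : ℂ) *
            ∑ i, conj (v l i) * e i := by
        unfold bil
        rw [hdec l, Finset.mul_sum]
        refine Finset.sum_congr rfl (fun i _ => ?_)
        rw [Pi.smul_apply, smul_eq_mul]
        ring
      rw [h4] at h3
      have h5 : (((b l).im - c 2) - t * ((b l).re - c 1)) / (1 + t ^ 2) ≠ 0 := by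
        intro h6
        rw [div_eq_zero_iff] at h6
        have h7 := h6.resolve_right ht2
        apply hl3
        by_cases h8 : (b l).re - c 1 = 0
        · rw [h8, mul_zero, sub_zero] at h7
          apply Complex.ext
          · show (b l).re = c 1
            linarith
          · show (b l).im = c 2
            linarith
        · exfalso
          apply ht
          rw [Finset.mem_image]
          refine ⟨l, Finset.mem_univ _, ?_⟩
          rw [div_eq_iff h8]
          linarith
      have h6 : ∑ i, conj (v l i) * e i = 0 :=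
        (mul_eq_zero.1 h3).resolve_left (Complex.ofReal_ne_zero.2 h5)
      have h7 := congrArg conj h6
      rw [map_sum, map_zero] at h7
      rw [← h7]
      refine Finset.sum_congr rfl (fun i _ => ?_)
      rw [map_mul, Complex.conj_conj]
      ring

end Pool.Agent.MCT
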