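import Mathlib
import Pool.Agent.MCT.StA

/-!
MP_ca8ee9_an, matrix Caratheodory theorem, part B: for ARBITRARY compressions the number
`(k+1)(k+2)/2` is optimal up to one.  Captain: helper9.

THEOREM.  For every `k ≥ 1` there are `n = k(k+3)/2` points `b_l` and an isometry `V` such that every
isometry `V'` with `V'ᴴ diag(b) V' = Vᴴ diag(b) V` has no zero row: no eigenvalue can be removed.

PROOF (whole).  Lines `lam i (x,y) = y - 2 i x + i²`, `i < k` (tangents of the parabola `y = x²`).  For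
`ε > 0` let `G(x,y) = diag (lam i (x,y)) - ε 1 1^T`.  At a point with all `lam i > 0` and
`∑ ε / lam i = 1`, `G ≥ 0` with kernel spanned by `u = (1 / lam i)` (Cauchy-Schwarz).  Let `b_l` be such
points, `u_l` the kernel vectors, `T = ∑ u_l u_l^* ⊗ (1, x_l, y_l)`.  If also
`T = ∑ v_l v_l^* ⊗ (1, x_l, y_l)` then `∑ v_l^* G(b_l) v_l = ∑ u_l^* G(b_l) u_l = 0`, so `v_l = z_l u_l`, and if
the `n` matrices `u_l u_l^T ⊗ (1, x_l, y_l)` are linearly independent, `|z_l| = 1`: no `v_l` is zero.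
Independence for small `ε`: `k + 1 - i` points near the line `i`.  Suppose `∑ r_l u_l u_l^T ⊗ w_l = 0`, put
`r'_l = r_l / ∏_j lam j (b_l)`, scaled to maximum one.  Then `∑ r'_l (∏_{j ≠ a,b} lam j) w_l = 0` (`a ≠ b`) and,
as `∑_b 1/lam b = 1/ε`, `∑ r'_l (∏_{j ≠ a} lam j) w_l = 0`.  Let `ε → 0`: the points tend to points of the
lines.  Now eliminate the groups `i = k-1, k-2, ..., 0`: for the group `i` use `a = i` and `b > i`; on the
group `i` one gets, with `m = k - 1 - i` and `m + 2` points, `∑ R = 0`, `∑ R x = 0`, `∑ R / (ρ_b - x) = 0`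
(`m` values `ρ_b = (i+b)/2`), so `R = 0`.  Contradiction.  ∎
-/

set_option autoImplicit false

namespace Pool.Agent.MCT

open Finset Filter
open scoped ComplexConjugate Topology

/-- the indices: `k + 1 - i` points for the line `i`, `i < k`; there are `k (k + 3) / 2` of them -/
abbrev Idx (k : ℕ) : Type := (i : Fin k) × Fin (k + 1 - (i : ℕ))

/-- the lines -/
noncomputable def lam (i : ℕ) (x y : ℝ) : ℝ := y - 2 * i * x + (i : ℝ) ^ 2

/-- first coordinate of the points: `i + θ`, `0 < θ < 1/4` -/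
noncomputable def xx {k : ℕ} (l : Idx k) : ℝ := (l.1 : ℕ) + ((l.2 : ℕ) + 1 : ℝ) / (4 * (k + 2))

/-- second coordinate of the points: height `s` above the line `i` -/
noncomputable def yy {k : ℕ} (l : Idx k) (s : ℝ) : ℝ :=
  2 * (l.1 : ℕ) * xx l - ((l.1 : ℕ) : ℝ) ^ 2 + s

/-- `St_LamB`.  PROOF.  With `i = l.1`, `θ = (l.2+1)/(4(k+2)) ∈ (0, 1/4)` (as `l.2 ≤ k`), `x = i + θ`:
`lam j x (yy l s) = (j - i)(j + i - 2 x) + s = (j - i)(j - i - 2θ) + s`.  For `j = i` this is `s`.  For `j ≠ i`,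
`t = j - i` is a nonzero integer, `|t| ≥ 1`, `t (t - 2θ) ≥ |t| (|t| - 2θ) ≥ 1/2`. -/
def St_LamB : Prop := ∀ (k : ℕ) (l : Idx k) (j : Fin k) (s : ℝ),
  lam j (xx l) (yy l s) = lam j (xx l) (yy l 0) + s ∧
  (j = l.1 → lam j (xx l) (yy l 0) = 0) ∧ (j ≠ l.1 → 1 / 2 ≤ lam j (xx l) (yy l 0))

/-- `St_Pts`.  PROOF.  `St_LamB`.  For fixed `l` and `s > 0` let `h(s) = 1 / ∑_j 1/lam j (xx l) (yy l s)`.  It is
continuous on `s > 0`, and `1/s ≤ ∑_j 1/lam j ≤ 1/s + 2k`, so `s / (1 + 2 k s) ≤ h(s) ≤ s`.  Take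
`ε = min (δ/2) (1/(4k))`: `h(ε) ≤ ε` and `h(2ε) ≥ 2ε/(1 + 4kε) ≥ ε`; by the intermediate value theorem there is
`s_l ∈ [ε, 2ε]` with `h(s_l) = ε`, i.e. `∑_j ε / lam j = 1`. -/
def St_Pts : Prop := ∀ k : ℕ, 1 ≤ k → ∀ δ : ℝ, 0 < δ → ∃ ε : ℝ, 0 < ε ∧ ε < δ ∧
  ∃ s : Idx k → ℝ, (∀ l, 0 < s l ∧ s l ≤ 2 * ε) ∧
    ∀ l, ∑ j : Fin k, ε / lam j (xx l) (yy l (s l)) = 1

/-- `St_Cauchy`.  PROOF.  `P(ρ) = ∑_s R_s ∏_{s' ≠ s} (ρ - x_{s'})`, a polynomial of degree `≤ m + 1` with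
`P(ρ) = ∏_s (ρ - x_s) · ∑_s R_s / (ρ - x_s)` for `ρ` different from the `x_s`.  Its coefficient of `ρ^{m+1}` is
`∑ R_s = 0`, its coefficient of `ρ^m` is `-∑_s R_s ∑_{s' ≠ s} x_{s'} = ∑_s R_s x_s - (∑ x)(∑ R) = 0`.  So its degree
is `< m` (or `P = 0`), and it vanishes at the `m` different `ρ_b`: `P = 0`.  At `ρ = x_s`:
`R_s ∏_{s' ≠ s} (x_s - x_{s'}) = 0`, so `R_s = 0`. -/
def St_Cauchy : Prop := ∀ (m : ℕ) (x R : Fin (m + 2) → ℝ) (ρ : Fin m → ℝ), Function.Injective x →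
  Function.Injective ρ → (∀ b s, ρ b ≠ x s) → ∑ s, R s = 0 → ∑ s, R s * x s = 0 →
  (∀ b, ∑ s, R s / (ρ b - x s) = 0) → R = 0

/-- `St_Elim` (at the limit points `(xx l, yy l 0)`, which lie on the lines).  PROOF.  Downward induction on
the group `i < k`: assume `r l = 0` for all `l` with `l.1 > i`.  For `l` with `l.1 < i` every product
`∏_{j ≠ i} lam j`, `∏_{j ≠ i, j ≠ b} lam j` (`b > i`) contains the factor `lam (l.1) = 0`.  So the two
hypotheses with `a = i` (and `b > i`) become sums over the group `i`, i.e. over `Fin (k + 1 - i)`; with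
`m = k - 1 - i`, `k + 1 - i = m + 2`, `x_s` the first coordinates (different), `R_s = r_s ∏_{j ≠ i} lam j ≠ 0·`
(all these factors are nonzero, `St_LamB`): the case `m'= 0, 1` (coordinates `1` and `x`) of the first
hypothesis gives `∑ R_s = 0`, `∑ R_s x_s = 0`; the second gives `∑ R_s / lam b = 0`, and
`lam b (xx l) (yy l 0) = (b - i)(b + i - 2 x_s) = 2 (b - i) (ρ_b - x_s)`, `ρ_b = (b + i)/2`, so
`∑ R_s / (ρ_b - x_s) = 0` for the `m` values `b = i + 1, ..., k - 1`.  `St_Cauchy`: `R = 0`, so `r = 0` on the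
group. -/
def St_Elim : Prop := ∀ (k : ℕ) (r : Idx k → ℝ),
  (∀ a : Fin k, ∀ m : Fin 3, ∑ l : Idx k, r l * (∏ j ∈ univ.erase a, lam j (xx l) (yy l 0)) *
    ![1, xx l, yy l 0] m = 0) →
  (∀ a b : Fin k, a ≠ b → ∀ m : Fin 3, ∑ l : Idx k,
    r l * (∏ j ∈ (univ.erase a).erase b, lam j (xx l) (yy l 0)) * ![1, xx l, yy l 0] m = 0) →
  r = 0

/-- `St_Indep`.  PROOF.  Suppose not.  For every `n` take `ε_n`, `s^n` from `St_Pts` with `δ = 1/(n+1)`; by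
assumption there is `r^n ≠ 0` with the relations.  Put `r'_l = r^n_l / ∏_j lam j(x_l, y_l)` (all `lam > 0`) and
scale so that the maximum of `|r'_l|` is `1`.  Multiply out: for `a ≠ b`
`r_l (1/lam a)(1/lam b) = r'_l ∏_{j ≠ a,b} lam j`; summing the relation over `b` (with `∑_b 1/lam b = 1/ε`):
`∑_l r_l (1/lam a) w_l = 0`, i.e. `∑_l r'_l (∏_{j ≠ a} lam j) w_l = 0`.  A subsequence of `r'` converges to some
`r⁰` with maximum of `|r⁰_l|` equal to `1`; `s^n → 0`, so `yy l (s^n_l) → yy l 0`; by continuity `r⁰` satisfies the two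
hypotheses of `St_Elim`, so `r⁰ = 0`, contradiction. -/
def St_Indep : Prop := ∀ k : ℕ, 1 ≤ k → ∃ (ε : ℝ) (x y : Idx k → ℝ), 0 < ε ∧
  (∀ l, ∀ j : Fin k, 0 < lam j (x l) (y l)) ∧ (∀ l, ∑ j : Fin k, ε / lam j (x l) (y l) = 1) ∧
  ∀ r : Idx k → ℝ, (∀ a b : Fin k, ∀ m : Fin 3, ∑ l : Idx k,
    r l * (1 / lam a (x l) (y l)) * (1 / lam b (x l) (y l)) * ![1, x l, y l] m = 0) → r = 0

/-- `St_Rigid`.  PROOF.  Data of `St_Indep`; `b l = x l + i y l`, `u l j = 1 / lam j (x l) (y l)`.  Let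
`Phi w v = Phi w u`, `w l = hom (b l)`.  For a vector `h` put
`g_l(h) = ∑_j lam j(x_l,y_l) |h_j|² - ε |∑_j h_j|²`.  As `lam j (x,y) = j²·1 - 2j·x + 1·y` is a fixed linear
combination of `w_l(0), w_l(1), w_l(2)`, `∑_l g_l(v_l)` is a linear combination of the numbers `Phi w v m i j`
(`|h_j|² = h_j conj(h_j)`, `|∑ h_j|² = ∑_{i,j} h_i conj(h_j)`), so `∑_l g_l(v_l) = ∑_l g_l(u_l)`.
`g_l(u_l) = ∑_j 1/lam j - ε (∑_j 1/lam j)² = 1/ε - 1/ε = 0`.  Cauchy-Schwarz: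
`|∑ h_j|² ≤ (∑ lam j |h_j|²)(∑ 1/lam j) = (1/ε) ∑ lam j |h_j|²`, so `g_l ≥ 0`; hence all `g_l(v_l) = 0`.  Equality:
with `z = ε ∑_j h_j`, `∑_j lam j |h_j - z / lam j|² = ∑ lam j |h_j|² - 2 Re (conj z ∑ h_j) + |z|²/ε = g_l(h) = 0`,
so `h_j = z / lam j`: `v_l = z_l u_l`.  Then `∑_l (|z_l|² - 1) u_l(a) u_l(b) w_l(m) = 0` for all `a, b, m`, so
`|z_l|² = 1` by independence, and `v_l ≠ 0` (`k ≥ 1`, `u l j > 0`). -/
def St_Rigid : Prop := ∀ k : ℕ, 1 ≤ k → ∃ (b : Idx k → ℂ) (u : Idx k → Fin k → ℂ),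
  ∀ v : Idx k → Fin k → ℂ, Phi (fun l => hom (b l)) v = Phi (fun l => hom (b l)) u → ∀ l, v l ≠ 0

open Matrix in
/-- `St_LowA`.  PROOF.  `b`, `u` from `St_Rigid`, transported to `Fin (k(k+3)/2)` (the cardinality of `Idx k` is
`∑_{i<k} (k + 1 - i) = k(k+3)/2`).  The `u_l` span `ℂ^k`: otherwise they lie in a subspace `Z` of dimension
`d = k - 1`; `St_Sub` with `I = ∅` and `St_Main` for `d` (`(d+1)(d+2)/2 = k(k+1)/2 < k(k+3)/2`) give
`Del`, against `St_Rigid`.  Let `U` be the `n × k` matrix with `U l i = conj (u l i)`; its rank is `k`.  Let `V = U M`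
with `M` invertible and `Vᴴ V = 1` (orthonormal basis of the range of `U`; or `M = (Uᴴ U)^{-1/2}`).  Suppose
`V'ᴴ V' = 1`, `V'ᴴ diag(b) V' = Vᴴ diag(b) V`, and put `U' = V' M⁻¹`: `U'ᴴ U' = Uᴴ U`,
`U'ᴴ diag(b) U' = Uᴴ diag(b) U`, and taking adjoints the same for `conj b`; so for `v l i = conj (U' l i)`,
`Phi (hom ∘ b) v = Phi (hom ∘ b) u` (`Re b = (b + conj b)/2`, `Im b = (b - conj b)/(2i)`).  By `St_Rigid` no
`v l`, so no row of `U'`, so no row of `V' = U' M` is zero. -/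
def St_LowA : Prop := ∀ k : ℕ, 1 ≤ k → ∃ (b : Fin (k * (k + 3) / 2) → ℂ)
  (V : Matrix (Fin (k * (k + 3) / 2)) (Fin k) ℂ), Vᴴ * V = 1 ∧
    ∀ V' : Matrix (Fin (k * (k + 3) / 2)) (Fin k) ℂ, V'ᴴ * V' = 1 →
      V'ᴴ * Matrix.diagonal b * V' = Vᴴ * Matrix.diagonal b * V → ∀ l, V' l ≠ 0

end Pool.Agent.MCT
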