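import Mathlib
import Pool.Agent.MCT.StB

set_option autoImplicit false

namespace Pool.Agent.MCT

open Finset Polynomial

theorem thm_Cauchy : St_Cauchy := by
  intro m x R ρ hx hρ hne h0 h1 h2
  classical
  let P : ℝ[X] := ∑ s, C (R s) * ∏ s' ∈ univ.erase s, (X - C (x s'))
  have hcard : ∀ s : Fin (m + 2), (univ.erase s).card = m + 1 := by
    intro s
    rw [card_erase_of_mem (mem_univ s), card_univ, Fintype.card_fin]
    rfl
  have hmon : ∀ s : Fin (m + 2), (∏ s' ∈ univ.erase s, (X - C (x s')) : ℝ[X]).Monic :=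
    fun s => monic_prod_of_monic _ _ (fun i _ => monic_X_sub_C _)
  have hnat : ∀ s : Fin (m + 2), (∏ s' ∈ univ.erase s, (X - C (x s')) : ℝ[X]).natDegree = m + 1 := by
    intro s
    rw [natDegree_prod_of_monic _ _ (fun i _ => monic_X_sub_C _)]
    simp [hcard]
  have hc1 : P.coeff (m + 1) = 0 := by
    rw [← h0]
    simp only [P, finset_sum_coeff, coeff_C_mul]
    refine sum_congr rfl fun s _ => ?_
    have := (hmon s).coeff_natDegree
    rw [hnat s] at this
    rw [this, mul_one]
  have hc2 : P.coeff m = 0 := by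
    have h5 : ∀ s : Fin (m + 2), (∏ s' ∈ univ.erase s, (X - C (x s')) : ℝ[X]).coeff m =
        - (∑ s', x s' - x s) := by
      intro s
      have h6 := prod_X_sub_C_coeff_card_pred (univ.erase s) x (by rw [hcard]; omega)
      rw [hcard, Nat.add_sub_cancel] at h6
      rw [h6, sum_erase_eq_sub (mem_univ s)]
    have h6 : P.coeff m = ∑ s, R s * x s - (∑ s', x s') * ∑ s, R s := by
      simp only [P, finset_sum_coeff, coeff_C_mul]
      rw [mul_sum, ← sum_sub_distrib]
      refine sum_congr rfl fun s _ => ?_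
      rw [h5]
      ring
    rw [h6, h0, h1]
    ring
  have hle : P.natDegree ≤ m + 1 := by
    refine natDegree_sum_le_of_forall_le _ _ fun s _ => ?_
    refine (natDegree_C_mul_le _ _).trans ?_
    rw [hnat s]
  have hdeg : P.degree < (m : ℕ) := by
    rw [degree_lt_iff_coeff_zero]
    intro j hj
    rcases lt_trichotomy j (m + 1) with h | h | h
    · have : j = m := by omega
      rw [this, hc2]
    · rw [h, hc1]
    · exact coeff_eq_zero_of_natDegree_lt (lt_of_le_of_lt hle h)
  have hev : ∀ z : ℝ, P.eval z = ∑ s, R s * ∏ s' ∈ univ.erase s, (z - x s') := by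
    intro z
    simp only [P, eval_finset_sum, eval_mul, eval_C, eval_prod, eval_sub, eval_X]
  have hP : P = 0 := by
    refine eq_zero_of_degree_lt_of_eval_index_eq_zero (s := univ) (v := ρ) (hρ.injOn) ?_ ?_
    · rw [card_univ, Fintype.card_fin]
      exact hdeg
    · intro b _
      rw [hev]
      have h5 : ∀ s : Fin (m + 2), R s * ∏ s' ∈ univ.erase s, (ρ b - x s') =
          (∏ s', (ρ b - x s')) * (R s / (ρ b - x s)) := by
        intro s
        have h6 : ρ b - x s ≠ 0 := sub_ne_zero.2 (hne b s)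
        rw [← mul_prod_erase univ _ (mem_univ s)]
        field_simp
      rw [sum_congr rfl fun s _ => h5 s, ← mul_sum, h2 b, mul_zero]
  funext s
  have h5 := hev (x s)
  rw [hP, eval_zero] at h5
  have h6 : ∑ t, R t * ∏ s' ∈ univ.erase t, (x s - x s') =
      R s * ∏ s' ∈ univ.erase s, (x s - x s') := by
    refine sum_eq_single s (fun t _ hts => ?_) (fun h => absurd (mem_univ s) h)
    rw [prod_eq_zero (mem_erase.2 ⟨hts.symm, mem_univ s⟩) (sub_self _), mul_zero]
  rw [h6] at h5
  have h7 : ∏ s' ∈ univ.erase s, (x s - x s') ≠ 0 := by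
    refine prod_ne_zero_iff.2 fun t ht => sub_ne_zero.2 ?_
    exact fun h => (mem_erase.1 ht).1 (hx h).symm
  exact (mul_eq_zero.1 h5.symm).resolve_right h7

end Pool.Agent.MCT
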