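import Mathlib
import Pool.Agent.MCT.StA

set_option autoImplicit false

namespace Pool.Agent.MCT

open Finset Filter
open scoped ComplexConjugate Topology

namespace Closedx

variable {ι : Type} [Fintype ι] {k : ℕ}

theorem phi_diag (w : ι → Fin 3 → ℝ) (hw : ∀ l, w l 0 = 1) (u : ι → Fin k → ℂ) (i : Fin k) :
    Phi w u 0 i i = ((∑ l, Complex.normSq (u l i) : ℝ) : ℂ) := by
  unfold Phi
  push_cast
  refine Finset.sum_congr rfl (fun l _ => ?_)
  rw [hw l, Complex.normSq_eq_conj_mul_self]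
  push_cast
  ring

theorem continuous_phi2 (m : Fin 3) (i j : Fin k) :
    Continuous (fun p : (ι → Fin 3 → ℝ) × (ι → Fin k → ℂ) => Phi p.1 p.2 m i j) := by
  unfold Phi
  refine continuous_finsetSum _ (fun l _ => ?_)
  have h0 : Continuous (fun p : (ι → Fin 3 → ℝ) × (ι → Fin k → ℂ) => (p.1 l m : ℂ)) :=
    Complex.continuous_ofReal.comp
      ((continuous_apply m).comp ((continuous_apply l).comp continuous_fst))
  have h1 : Continuous (fun p : (ι → Fin 3 → ℝ) × (ι → Fin k → ℂ) => p.2 l i) :=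
    (continuous_apply i).comp ((continuous_apply l).comp continuous_snd)
  have h2 : Continuous (fun p : (ι → Fin 3 → ℝ) × (ι → Fin k → ℂ) => p.2 l j) :=
    (continuous_apply j).comp ((continuous_apply l).comp continuous_snd)
  exact (h0.mul h1).mul (Complex.continuous_conj.comp h2)

end Closedx

open Closedx

theorem thm_Closed : St_Closed := by
  intro ι _ k w v ws vs hws hw hPhi hdel
  classical
  choose v' l₀ hv0 hv using hdel
  -- one index occurs infinitely often
  have hfreq : ∃ l : ι, ∃ᶠ j in atTop, l₀ j = l := by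
    by_contra hcon
    push Not at hcon
    have h1 : ∀ l, ∀ᶠ j in atTop, l₀ j ≠ l := hcon
    have h2 : ∀ᶠ j in atTop, ∀ l, l₀ j ≠ l := eventually_all.2 h1
    obtain ⟨j, hj⟩ := h2.exists
    exact hj (l₀ j) rfl
  obtain ⟨l, hl⟩ := hfreq
  obtain ⟨φ, hφ, hφl⟩ := extraction_of_frequently_atTop hl
  -- boundedness of the diagonal entries
  have hbd : ∀ i : Fin k, ∃ C : ℝ, ∀ j, ‖Phi (ws j) (vs j) 0 i i‖ ≤ C := by
    intro i
    have h1 : Tendsto (fun j => Phi (ws j) (vs j) 0 i i) atTop (𝓝 (Phi w v 0 i i)) :=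
      (tendsto_pi_nhds.1 ((tendsto_pi_nhds.1 ((tendsto_pi_nhds.1 hPhi) 0)) i)) i
    obtain ⟨C, hC⟩ := h1.norm.bddAbove_range
    exact ⟨C, fun j => hC ⟨j, rfl⟩⟩
  choose C hC using hbd
  set R : ℝ := ∑ i, |C i| + 1 with hR
  have hR0 : 0 ≤ ∑ i, |C i| := Finset.sum_nonneg (fun i _ => abs_nonneg _)
  have hball : ∀ j, v' j ∈ Metric.closedBall (0 : ι → Fin k → ℂ) R := by
    intro j
    rw [mem_closedBall_zero_iff, pi_norm_le_iff_of_nonneg (by linarith)]
    intro l
    rw [pi_norm_le_iff_of_nonneg (by linarith)]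
    intro i
    have h1 : ‖v' j l i‖ ^ 2 ≤ ‖Phi (ws j) (v' j) 0 i i‖ := by
      rw [phi_diag (ws j) (hws j) (v' j) i, Complex.norm_real, Real.norm_of_nonneg
        (Finset.sum_nonneg (fun l _ => Complex.normSq_nonneg _)), ← Complex.normSq_eq_norm_sq]
      exact Finset.single_le_sum (f := fun l => Complex.normSq (v' j l i))
        (fun l _ => Complex.normSq_nonneg _) (Finset.mem_univ l)
    rw [hv j] at h1
    have h2 : |C i| ≤ ∑ i, |C i| :=
      Finset.single_le_sum (f := fun i => |C i|) (fun i _ => abs_nonneg _) (Finset.mem_univ i)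
    have h3 := (h1.trans (hC i j)).trans (le_abs_self (C i))
    by_contra hcon
    push Not at hcon
    nlinarith [norm_nonneg (v' j l i)]
  obtain ⟨vinf, -, ψ, hψ, hlim⟩ := (isCompact_closedBall (0 : ι → Fin k → ℂ) R).tendsto_subseq
    (fun j => hball (φ j))
  refine ⟨vinf, l, ?_, ?_⟩
  · have h1 : Tendsto (fun j => v' (φ (ψ j)) l) atTop (𝓝 (vinf l)) :=
      (tendsto_pi_nhds.1 hlim) l
    have h2 : (fun j => v' (φ (ψ j)) l) = fun _ => 0 := by
      funext j
      rw [← hφl (ψ j)]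
      exact hv0 _
    rw [h2] at h1
    exact (tendsto_nhds_unique h1 tendsto_const_nhds)
  · funext m i i'
    have h1 : Tendsto (fun j => (ws (φ (ψ j)), v' (φ (ψ j)))) atTop (𝓝 (w, vinf)) :=
      ((hw.comp (hφ.tendsto_atTop.comp hψ.tendsto_atTop))).prodMk_nhds hlim
    have h2 := ((continuous_phi2 (ι := ι) m i i').tendsto (w, vinf)).comp h1
    have h3 : Tendsto (fun j => Phi (ws j) (vs j) m i i') atTop (𝓝 (Phi w v m i i')) :=
      (tendsto_pi_nhds.1 ((tendsto_pi_nhds.1 ((tendsto_pi_nhds.1 hPhi) m)) i)) i'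
    have h4 := h3.comp (hφ.tendsto_atTop.comp hψ.tendsto_atTop)
    refine tendsto_nhds_unique h2 ?_
    refine h4.congr (fun j => ?_)
    simp only [Function.comp_apply]
    rw [hv]

end Pool.Agent.MCT
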