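import Mathlib
import Pool.Agent.MCT.StA
import Pool.Agent.MCT.First

set_option autoImplicit false

namespace Pool.Agent.MCT

open Finset Filter Firstx
open scoped ComplexConjugate Topology

theorem thm_Core (h1 : St_Min) (h2 : St_First) (h3 : St_Second) : St_Core := by
  intro ι _ _ k w v l₁ hw hcard ε hε
  set C : ℝ := ∑ i, Complex.normSq (v l₁ i) + 1 with hC
  have hC0 : 0 ≤ ∑ i, Complex.normSq (v l₁ i) :=
    Finset.sum_nonneg (fun i _ => Complex.normSq_nonneg _)
  have hCpos : 0 < C := by linarith
  set K : ℝ := C / ε ^ 2 with hKdef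
  have hK : 0 < K := by positivity
  set T := Phi w v with hT
  have hTH : Herm T := phi_herm w v
  obtain ⟨v', hmin⟩ := h1 ι k w T l₁ K hw hK
  have hval : FF w T l₁ K v = ∑ i, Complex.normSq (v l₁ i) := by
    unfold FF
    rw [hT]
    simp
  have hle : FF w T l₁ K v' ≤ C := by
    have := hmin v
    rw [hval] at this
    linarith
  refine ⟨v', fun m i j => ?_, ?_⟩
  · have e1 : K * Complex.normSq (Phi w v' m i j - T m i j) ≤ C := by
      have a1 : 0 ≤ ∑ i, Complex.normSq (v' l₁ i) :=
        Finset.sum_nonneg (fun i _ => Complex.normSq_nonneg _)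
      have a2 : Complex.normSq (Phi w v' m i j - T m i j) ≤
          ∑ m, ∑ i, ∑ j, Complex.normSq (Phi w v' m i j - T m i j) := by
        calc Complex.normSq (Phi w v' m i j - T m i j)
            ≤ ∑ j, Complex.normSq (Phi w v' m i j - T m i j) :=
              Finset.single_le_sum (f := fun j => Complex.normSq (Phi w v' m i j - T m i j))
                (fun j _ => Complex.normSq_nonneg _) (Finset.mem_univ j)
          _ ≤ ∑ i, ∑ j, Complex.normSq (Phi w v' m i j - T m i j) :=
              Finset.single_le_sum (f := fun i => ∑ j, Complex.normSq (Phi w v' m i j - T m i j))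
                (fun i _ => Finset.sum_nonneg (fun j _ => Complex.normSq_nonneg _))
                (Finset.mem_univ i)
          _ ≤ _ :=
              Finset.single_le_sum
                (f := fun m => ∑ i, ∑ j, Complex.normSq (Phi w v' m i j - T m i j))
                (fun m _ => Finset.sum_nonneg (fun i _ => Finset.sum_nonneg
                  (fun j _ => Complex.normSq_nonneg _))) (Finset.mem_univ m)
      unfold FF at hle
      nlinarith [mul_le_mul_of_nonneg_left a2 hK.le]
    have e2 : Complex.normSq (Phi w v' m i j - T m i j) ≤ ε ^ 2 := by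
      rw [hKdef, div_mul_eq_mul_div, div_le_iff₀ (by positivity)] at e1
      exact le_of_mul_le_mul_left e1 hCpos
    rw [Complex.normSq_eq_norm_sq] at e2
    exact (sq_le_sq₀ (norm_nonneg _) hε.le).1 e2
  · by_cases hv : v' l₁ = 0
    · exact Or.inl hv
    · right
      obtain ⟨g1, g2, g3⟩ := h2 ι k w T l₁ K v' hTH hmin
      exact ⟨LL w T K v', g1, hv, g2, g3, h3 ι k w T l₁ K v' hTH hw hK hcard hv hmin⟩

end Pool.Agent.MCT
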