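import Mathlib
import Pool.Agent.MCT.StA

set_option autoImplicit false

namespace Pool.Agent.MCT

open Finset Filter
open scoped ComplexConjugate Topology

namespace GenExx

/-- the exponents `(i, j)`, `i + j ≤ p` -/
def TT (p : ℕ) : Finset (Σ _ : ℕ, ℕ) := (range (p + 1)).sigma (fun i => range (p + 1 - i))

theorem card_TT (p : ℕ) : (TT p).card = (p + 1) * (p + 2) / 2 := by
  unfold TT
  rw [Finset.card_sigma]
  simp only [Finset.card_range]
  have h : ∀ p : ℕ, 2 * ∑ i ∈ range (p + 1), (p + 1 - i) = (p + 1) * (p + 2) := by
    intro p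
    induction p with
    | zero => simp
    | succ p ih =>
      rw [Finset.sum_range_succ']
      have e : ∑ i ∈ range (p + 1), (p + 1 + 1 - (i + 1)) = ∑ i ∈ range (p + 1), (p + 1 - i) :=
        Finset.sum_congr rfl (fun i _ => by omega)
      rw [e, mul_add, ih]
      simp only [Nat.sub_zero]
      ring
  have := h p
  omega

theorem mem_TT {p i j : ℕ} : (⟨i, j⟩ : Σ _ : ℕ, ℕ) ∈ TT p ↔ i + j ≤ p := by
  unfold TT
  rw [Finset.mem_sigma, Finset.mem_range, Finset.mem_range]
  simp only
  omega

theorem pol_eq (p : ℕ) (q : ℕ → ℕ → ℂ) (x y : ℂ) :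
    pol p q x y = ∑ c ∈ TT p, q c.1 c.2 * x ^ c.1 * y ^ c.2 := by
  unfold pol TT
  rw [Finset.sum_sigma]

/-- a polynomial has fewer sign changes than monomials -/
theorem sign_lt (P : Polynomial ℝ) (hP : P ≠ 0) : P.signVariations + 1 ≤ P.support.card := by
  have H : ∀ (N : ℕ) (P : Polynomial ℝ), P ≠ 0 → P.support.card = N →
      P.signVariations + 1 ≤ P.support.card := by
    intro N
    induction N using Nat.strong_induction_on with
    | _ N ih =>
      intro P hP hN
      by_cases h0 : P.eraseLead = 0
      · have h1 : P = Polynomial.monomial P.natDegree P.leadingCoeff := by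
          have := P.eraseLead_add_monomial_natDegree_leadingCoeff
          rw [h0, zero_add] at this
          exact this.symm
        have h2 : P.signVariations = 0 := by
          rw [h1]
          exact Polynomial.signVariations_monomial _ _
        have h3 : 0 < P.support.card := by
          rw [Finset.card_pos]
          exact Polynomial.nonempty_support_iff.2 hP
        omega
      · have h1 := Polynomial.card_support_eraseLead (f := P)
        rw [hN] at h1
        have h2 : 0 < N := by
          rw [← hN, Finset.card_pos]
          exact Polynomial.nonempty_support_iff.2 hP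
        have h3 := ih (N - 1) (by omega) P.eraseLead h0 h1
        have h4 := Polynomial.signVariations_le_eraseLead_succ (P := P)
        omega
  exact H _ P hP rfl

/-- few monomials, many positive zeros: zero -/
theorem zero_of_zeros (P : Polynomial ℝ) (Z : Finset ℝ) (hpos : ∀ t ∈ Z, 0 < t)
    (hz : ∀ t ∈ Z, P.eval t = 0) (hc : P.support.card ≤ Z.card) : P = 0 := by
  by_contra hP
  have h1 := sign_lt P hP
  have h2 := Polynomial.roots_countP_pos_le_signVariations (P := P)
  have h3 : Z.card ≤ P.roots.countP (0 < ·) := by
    rw [Multiset.countP_eq_card_filter]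
    have h4 : Z.val ≤ P.roots.filter (0 < ·) := by
      rw [Multiset.le_iff_subset Z.nodup]
      intro t ht
      rw [Multiset.mem_filter, Polynomial.mem_roots hP]
      exact ⟨hz t ht, hpos t ht⟩
    exact Multiset.card_le_card h4
  omega

end GenExx

open GenExx

theorem thm_GenEx : St_GenEx := by
  intro ι _
  classical
  set n := Fintype.card ι with hn
  let e : ι ≃ Fin n := Fintype.equivFin ι
  let t : ι → ℝ := fun l => ((e l : ℕ) : ℝ) + 1
  have htpos : ∀ l, 0 < t l := fun l => by positivity
  have htinj : Function.Injective t := by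
    intro x y h
    have h1 : ((e x : ℕ) : ℝ) = ((e y : ℕ) : ℝ) := by
      have : ((e x : ℕ) : ℝ) + 1 = ((e y : ℕ) : ℝ) + 1 := h
      linarith
    exact e.injective (Fin.ext (by exact_mod_cast h1))
  refine ⟨fun l => ⟨t l, t l ^ (n + 2)⟩, ?_, ?_⟩
  · intro x y h
    exact htinj (congrArg Complex.re h)
  · intro p S hS q hq
    have hSn : S.card ≤ n := Finset.card_le_univ S
    have hpn : p + 1 ≤ n := by
      have h1 : p + 1 ≤ (p + 1) * (p + 2) / 2 := by
        rw [Nat.le_div_iff_mul_le (by norm_num)]
        nlinarith
      omega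
    -- the exponent map
    let ex : (Σ _ : ℕ, ℕ) → ℕ := fun c => c.1 + (n + 2) * c.2
    have hex : ∀ c ∈ TT p, ∀ d ∈ TT p, ex c = ex d → c = d := by
      rintro ⟨i, j⟩ hc ⟨i', j'⟩ hd h
      rw [mem_TT] at hc hd
      have h1 : i + (n + 2) * j = i' + (n + 2) * j' := h
      have h2 : i = i' := by
        have a1 := congrArg (· % (n + 2)) h1
        simp only [Nat.add_mul_mod_self_left] at a1
        rw [Nat.mod_eq_of_lt (by omega), Nat.mod_eq_of_lt (by omega)] at a1
        exact a1
      subst h2
      have h3 : j = j' := by
        have : (n + 2) * j = (n + 2) * j' := by omega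
        exact Nat.eq_of_mul_eq_mul_left (by omega) this
      subst h3
      rfl
    have key : ∀ r : ℕ → ℕ → ℝ, (∀ l ∈ S, ∑ c ∈ TT p, r c.1 c.2 * (t l) ^ ex c = 0) →
        ∀ c ∈ TT p, r c.1 c.2 = 0 := by
      intro r hr
      let P : Polynomial ℝ := ∑ c ∈ TT p, Polynomial.monomial (ex c) (r c.1 c.2)
      have hP : P = 0 := by
        apply zero_of_zeros P (S.image t)
        · intro x hx
          rw [Finset.mem_image] at hx
          obtain ⟨l, -, rfl⟩ := hx
          exact htpos l
        · intro x hx
          rw [Finset.mem_image] at hx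
          obtain ⟨l, hl, rfl⟩ := hx
          simp only [P, Polynomial.eval_finsetSum, Polynomial.eval_monomial]
          exact hr l hl
        · rw [Finset.card_image_of_injective S htinj]
          refine le_trans ?_ hS
          rw [← card_TT p]
          have h1 : P.support ⊆ (TT p).image ex := by
            intro x hx
            rw [Polynomial.mem_support_iff] at hx
            by_contra hcon
            apply hx
            simp only [P, Polynomial.finsetSum_coeff, Polynomial.coeff_monomial]
            refine Finset.sum_eq_zero (fun c hc => ?_)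
            rw [if_neg]
            intro h
            exact hcon (Finset.mem_image.2 ⟨c, hc, h⟩)
          exact (Finset.card_le_card h1).trans Finset.card_image_le
      intro c hc
      have h1 : P.coeff (ex c) = r c.1 c.2 := by
        simp only [P, Polynomial.finsetSum_coeff, Polynomial.coeff_monomial]
        rw [Finset.sum_eq_single c]
        · simp
        · intro d hd hdc
          rw [if_neg]
          intro h
          exact hdc (hex d hd c hc h)
        · intro h
          exact absurd hc h
      rw [← h1, hP, Polynomial.coeff_zero]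
    have hre : ∀ l ∈ S, ∑ c ∈ TT p, (q c.1 c.2).re * (t l) ^ ex c = 0 := by
      intro l hl
      have h1 := hq l hl
      rw [pol_eq] at h1
      have h2 := congrArg Complex.re h1
      rw [Complex.re_sum, Complex.zero_re] at h2
      rw [← h2]
      refine Finset.sum_congr rfl (fun c _ => ?_)
      have h3 : q c.1 c.2 * ((t l : ℝ) : ℂ) ^ c.1 * (((t l ^ (n + 2) : ℝ)) : ℂ) ^ c.2 =
          (((t l) ^ ex c : ℝ) : ℂ) * q c.1 c.2 := by
        simp only [ex]
        rw [Complex.ofReal_pow, Complex.ofReal_pow, ← pow_mul, pow_add]
        ring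
      rw [h3, Complex.re_ofReal_mul]
      ring
    have him : ∀ l ∈ S, ∑ c ∈ TT p, (q c.1 c.2).im * (t l) ^ ex c = 0 := by
      intro l hl
      have h1 := hq l hl
      rw [pol_eq] at h1
      have h2 := congrArg Complex.im h1
      rw [Complex.im_sum, Complex.zero_im] at h2
      rw [← h2]
      refine Finset.sum_congr rfl (fun c _ => ?_)
      have h3 : q c.1 c.2 * ((t l : ℝ) : ℂ) ^ c.1 * (((t l ^ (n + 2) : ℝ)) : ℂ) ^ c.2 =
          (((t l) ^ ex c : ℝ) : ℂ) * q c.1 c.2 := by
        simp only [ex]
        rw [Complex.ofReal_pow, Complex.ofReal_pow, ← pow_mul, pow_add]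
        ring
      rw [h3, Complex.im_ofReal_mul]
      ring
    intro i j hij
    have g1 := key (fun i j => (q i j).re) hre ⟨i, j⟩ (mem_TT.2 hij)
    have g2 := key (fun i j => (q i j).im) him ⟨i, j⟩ (mem_TT.2 hij)
    exact Complex.ext g1 g2

end Pool.Agent.MCT
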