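import Mathlib
import Pool.Agent.MCT.StA
import Pool.Agent.MCT.GenEx

set_option autoImplicit false

namespace Pool.Agent.MCT

open Finset Filter GenExx
open scoped ComplexConjugate Topology

namespace Densex

variable {ι : Type}

/-- evaluation matrix -/
noncomputable def EM {N : ℕ} (row : Fin N → ι) (col : Fin N → (Σ _ : ℕ, ℕ)) (b : ι → ℂ) :
    Matrix (Fin N) (Fin N) ℂ :=
  Matrix.of fun r c => ((b (row r)).re : ℂ) ^ (col c).1 * ((b (row r)).im : ℂ) ^ (col c).2

/-- the path -/
noncomputable def path (b g : ι → ℂ) (s : ℝ) : ι → ℂ := fun l => b l + (s : ℂ) * (g l - b l)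

theorem path_re (b g : ι → ℂ) (s : ℝ) (l : ι) :
    (path b g s l).re = (b l).re + s * ((g l).re - (b l).re) := by
  unfold path
  rw [Complex.add_re, Complex.re_ofReal_mul, Complex.sub_re]

theorem path_im (b g : ι → ℂ) (s : ℝ) (l : ι) :
    (path b g s l).im = (b l).im + s * ((g l).im - (b l).im) := by
  unfold path
  rw [Complex.add_im, Complex.im_ofReal_mul, Complex.sub_im]

theorem path_one (b g : ι → ℂ) : path b g 1 = g := by
  funext l
  unfold path
  simp

theorem det_poly {N : ℕ} (row : Fin N → ι) (col : Fin N → (Σ _ : ℕ, ℕ)) (b g : ι → ℂ) :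
    ∃ D : Polynomial ℂ, ∀ s : ℝ, D.eval (s : ℂ) = (EM row col (path b g s)).det := by
  let MM : Matrix (Fin N) (Fin N) (Polynomial ℂ) := Matrix.of fun r c =>
    (Polynomial.C ((b (row r)).re : ℂ) + Polynomial.X *
      Polynomial.C (((g (row r)).re - (b (row r)).re : ℝ) : ℂ)) ^ (col c).1 *
    (Polynomial.C ((b (row r)).im : ℂ) + Polynomial.X *
      Polynomial.C (((g (row r)).im - (b (row r)).im : ℝ) : ℂ)) ^ (col c).2
  refine ⟨MM.det, fun s => ?_⟩
  have h1 : MM.det.eval (s : ℂ) = ((Polynomial.evalRingHom (s : ℂ)).mapMatrix MM).det := by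
    rw [← RingHom.map_det]
    rfl
  rw [h1]
  congr 1
  ext r c
  simp only [RingHom.mapMatrix_apply, Matrix.map_apply, MM, EM, Matrix.of_apply,
    Polynomial.coe_evalRingHom, Polynomial.eval_mul, Polynomial.eval_pow, Polynomial.eval_add,
    Polynomial.eval_C, Polynomial.eval_X, path_re, path_im]
  push_cast
  rfl

/-- bijections onto finsets of the right size -/
theorem exists_enum {X : Type*} (S : Finset X) {N : ℕ} (h : S.card = N) :
    ∃ f : Fin N → X, Function.Injective f ∧ (∀ i, f i ∈ S) ∧ ∀ x ∈ S, ∃ i, f i = x := by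
  classical
  let e : S ≃ Fin N := S.equivFinOfCardEq h
  refine ⟨fun i => (e.symm i).1, ?_, fun i => (e.symm i).2, fun x hx => ⟨e ⟨x, hx⟩, by simp⟩⟩
  intro i j hij
  exact e.symm.injective (Subtype.ext hij)

theorem gen_of_det {N p : ℕ} (S : Finset ι) (row : Fin N → ι) (col : Fin N → (Σ _ : ℕ, ℕ))
    (hrow : ∀ i, row i ∈ S) (hcol1 : Function.Injective col) (hcol2 : ∀ i, col i ∈ TT p)
    (hcol3 : ∀ x ∈ TT p, ∃ i, col i = x) (b : ι → ℂ) (hdet : (EM row col b).det ≠ 0)
    (q : ℕ → ℕ → ℂ) (hq : ∀ l ∈ S, pol p q ((b l).re : ℂ) ((b l).im : ℂ) = 0) :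
    ∀ i j, i + j ≤ p → q i j = 0 := by
  classical
  have h1 : (EM row col b).mulVec (fun c => q (col c).1 (col c).2) = 0 := by
    funext r
    have h2 := hq (row r) (hrow r)
    rw [pol_eq] at h2
    rw [Pi.zero_apply, ← h2]
    unfold Matrix.mulVec dotProduct
    have h3 : TT p = Finset.univ.image col := by
      ext x
      rw [Finset.mem_image]
      constructor
      · intro hx
        obtain ⟨i, hi⟩ := hcol3 x hx
        exact ⟨i, Finset.mem_univ _, hi⟩
      · rintro ⟨i, -, rfl⟩
        exact hcol2 i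
    rw [h3, Finset.sum_image (fun x _ y _ h => hcol1 h)]
    refine Finset.sum_congr rfl (fun c _ => ?_)
    simp only [EM, Matrix.of_apply]
    ring
  have h4 : (fun c => q (col c).1 (col c).2) = 0 := by
    by_contra hne
    exact hdet (Matrix.exists_mulVec_eq_zero_iff.1 ⟨_, hne, h1⟩)
  intro i j hij
  obtain ⟨c, hc⟩ := hcol3 ⟨i, j⟩ (mem_TT.2 hij)
  have := congrFun h4 c
  simp only [hc, Pi.zero_apply] at this
  exact this

theorem det_of_gen {N p : ℕ} (S : Finset ι) (hN : N = (p + 1) * (p + 2) / 2) (hS : S.card = N)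
    (row : Fin N → ι) (col : Fin N → (Σ _ : ℕ, ℕ))
    (hrow : ∀ x ∈ S, ∃ i, row i = x) (hcol1 : Function.Injective col)
    (hcol2 : ∀ i, col i ∈ TT p) (hcol3 : ∀ x ∈ TT p, ∃ i, col i = x) (g : ι → ℂ) (hg : Gen g) :
    (EM row col g).det ≠ 0 := by
  classical
  intro hdet
  obtain ⟨t, ht0, ht⟩ := Matrix.exists_mulVec_eq_zero_iff.2 hdet
  -- the coefficients
  let q : ℕ → ℕ → ℂ := fun i j => if h : ∃ c, col c = ⟨i, j⟩ then t h.choose else 0
  have hqc : ∀ c, q (col c).1 (col c).2 = t c := by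
    intro c
    have h : ∃ c', col c' = ⟨(col c).1, (col c).2⟩ := ⟨c, rfl⟩
    have h2 : h.choose = c := hcol1 h.choose_spec
    show (if h : ∃ c', col c' = ⟨(col c).1, (col c).2⟩ then t h.choose else 0) = t c
    rw [dif_pos h, h2]
  have h3 : TT p = Finset.univ.image col := by
    ext x
    rw [Finset.mem_image]
    constructor
    · intro hx
      obtain ⟨i, hi⟩ := hcol3 x hx
      exact ⟨i, Finset.mem_univ _, hi⟩
    · rintro ⟨i, -, rfl⟩
      exact hcol2 i
  have h4 := hg.2 p S (by rw [hS, hN]) q (by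
    intro l hl
    obtain ⟨r, rfl⟩ := hrow l hl
    have h5 := congrFun ht r
    rw [Pi.zero_apply] at h5
    rw [pol_eq, h3, Finset.sum_image (fun x _ y _ h => hcol1 h), ← h5]
    unfold Matrix.mulVec dotProduct
    refine Finset.sum_congr rfl (fun c _ => ?_)
    rw [hqc]
    simp only [EM, Matrix.of_apply]
    ring)
  apply ht0
  funext c
  rw [← hqc c, Pi.zero_apply]
  exact h4 _ _ (mem_TT.1 (hcol2 c))

end Densex

open Densex

theorem thm_Dense (h1 : St_GenEx) : St_Dense := by
  intro ι _ b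
  classical
  obtain ⟨g, hg⟩ := h1 ι
  set n := Fintype.card ι with hn
  -- the bad parameters for one pair
  have hbad : ∀ (p : ℕ) (S : Finset ι), ∃ F : Finset ℂ, S.card = (p + 1) * (p + 2) / 2 →
      ∀ s : ℝ, (s : ℂ) ∉ F → ∀ q : ℕ → ℕ → ℂ,
        (∀ l ∈ S, pol p q ((path b g s l).re : ℂ) ((path b g s l).im : ℂ) = 0) →
        ∀ i j, i + j ≤ p → q i j = 0 := by
    intro p S
    by_cases hS : S.card = (p + 1) * (p + 2) / 2
    · obtain ⟨row, -, hr2, hr3⟩ := exists_enum S hS
      obtain ⟨col, hc1, hc2, hc3⟩ := exists_enum (TT p) (card_TT p)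
      obtain ⟨D, hD⟩ := det_poly row col b g
      have hD0 : D ≠ 0 := by
        intro h0
        have h2 := hD 1
        rw [h0, path_one, Polynomial.eval_zero] at h2
        exact det_of_gen S rfl hS row col hr3 hc1 hc2 hc3 g hg h2.symm
      refine ⟨D.roots.toFinset, fun _ s hs q hq => ?_⟩
      refine gen_of_det S row col hr2 hc1 hc2 hc3 (path b g s) ?_ q hq
      intro h0
      apply hs
      rw [Multiset.mem_toFinset, Polynomial.mem_roots hD0, Polynomial.IsRoot.def, hD, h0]
    · exact ⟨∅, fun h => absurd h hS⟩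
  choose F hF using hbad
  have hbad2 : ∀ l l' : ι, ∃ G : Finset ℂ, l ≠ l' → ∀ s : ℝ, (s : ℂ) ∉ G →
      path b g s l ≠ path b g s l' := by
    intro l l'
    by_cases hll : l = l'
    · exact ⟨∅, fun h => absurd hll h⟩
    · let D : Polynomial ℂ := Polynomial.C (b l - b l') +
        Polynomial.X * Polynomial.C ((g l - b l) - (g l' - b l'))
      have hD : ∀ s : ℝ, D.eval (s : ℂ) = path b g s l - path b g s l' := by
        intro s
        simp only [D, path, Polynomial.eval_add, Polynomial.eval_mul, Polynomial.eval_C,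
          Polynomial.eval_X]
        ring
      have hD0 : D ≠ 0 := by
        intro h0
        have h2 := hD 1
        rw [h0, path_one, Polynomial.eval_zero] at h2
        exact hll (hg.1 (sub_eq_zero.1 h2.symm))
      refine ⟨D.roots.toFinset, fun _ s hs heq => ?_⟩
      apply hs
      rw [Multiset.mem_toFinset, Polynomial.mem_roots hD0, Polynomial.IsRoot.def, hD, heq, sub_self]
  choose G hG using hbad2
  set H : Finset ℂ := ((range (n + 1)).biUnion (fun p => Finset.univ.biUnion (fun S => F p S))) ∪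
    (Finset.univ.biUnion (fun l => Finset.univ.biUnion (fun l' => G l l'))) with hH
  have hgood : ∀ s : ℝ, (s : ℂ) ∉ H → Gen (path b g s) := by
    intro s hs
    rw [hH, Finset.mem_union, not_or] at hs
    obtain ⟨hs1, hs2⟩ := hs
    refine ⟨?_, ?_⟩
    · intro l l' hll
      by_contra hne
      apply hG l l' hne s ?_ hll
      intro hmem
      apply hs2
      rw [Finset.mem_biUnion]
      refine ⟨l, Finset.mem_univ _, ?_⟩
      rw [Finset.mem_biUnion]
      exact ⟨l', Finset.mem_univ _, hmem⟩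
    · intro p S hS q hq
      obtain ⟨S', hS'1, hS'2⟩ := Finset.exists_subset_card_eq hS
      have hpn : p < n + 1 := by
        have h2 : S.card ≤ n := Finset.card_le_univ S
        have h3 : p + 1 ≤ (p + 1) * (p + 2) / 2 := by
          rw [Nat.le_div_iff_mul_le (by norm_num)]
          nlinarith
        omega
      refine hF p S' hS'2 s ?_ q (fun l hl => hq l (hS'1 hl))
      intro hmem
      apply hs1
      rw [Finset.mem_biUnion]
      refine ⟨p, Finset.mem_range.2 hpn, ?_⟩
      rw [Finset.mem_biUnion]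
      exact ⟨S', Finset.mem_univ _, hmem⟩
  have hex : ∀ j : ℕ, ∃ s : ℝ, 0 < s ∧ s < 1 / ((j : ℝ) + 1) ∧ (s : ℂ) ∉ H := by
    intro j
    have hinf : (Set.Ioo (0 : ℝ) (1 / ((j : ℝ) + 1))).Infinite :=
      Set.Ioo_infinite (by positivity)
    have hinf2 : ((fun s : ℝ => (s : ℂ)) '' Set.Ioo (0 : ℝ) (1 / ((j : ℝ) + 1))).Infinite :=
      hinf.image (Complex.ofReal_injective.injOn)
    obtain ⟨z, hz1, hz2⟩ := hinf2.exists_notMem_finset H
    obtain ⟨s, hs, rfl⟩ := hz1
    exact ⟨s, hs.1, hs.2, hz2⟩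
  choose s hs0 hs1 hs2 using hex
  refine ⟨fun j => path b g (s j), fun j => hgood (s j) (hs2 j), ?_⟩
  have hs : Tendsto s atTop (𝓝 0) :=
    squeeze_zero (fun j => (hs0 j).le) (fun j => (hs1 j).le) tendsto_one_div_add_atTop_nhds_zero_nat
  rw [tendsto_pi_nhds]
  intro l
  have h3 : Continuous (fun s : ℝ => path b g s l) := by
    unfold path
    fun_prop
  have h4 := (h3.tendsto 0).comp hs
  have h5 : path b g 0 l = b l := by simp [path]
  rw [h5] at h4
  exact h4

end Pool.Agent.MCT
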