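import Mathlib
import Pool.Agent.MCT.StA

set_option autoImplicit false

namespace Pool.Agent.MCT

open Finset Filter
open scoped ComplexConjugate Topology

namespace DetPolyx

/-- polynomial functions of degree at most `p` -/
def IsPol (p : ℕ) (f : ℂ → ℂ → ℂ) : Prop := ∃ q : ℕ → ℕ → ℂ, ∀ x y, f x y = pol p q x y

theorem pol_add (p : ℕ) (q r : ℕ → ℕ → ℂ) (x y : ℂ) :
    pol p (fun i j => q i j + r i j) x y = pol p q x y + pol p r x y := by
  unfold pol
  rw [← Finset.sum_add_distrib]
  refine Finset.sum_congr rfl (fun i _ => ?_)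
  rw [← Finset.sum_add_distrib]
  refine Finset.sum_congr rfl (fun j _ => ?_)
  ring

theorem pol_smul (p : ℕ) (a : ℂ) (q : ℕ → ℕ → ℂ) (x y : ℂ) :
    pol p (fun i j => a * q i j) x y = a * pol p q x y := by
  unfold pol
  rw [Finset.mul_sum]
  refine Finset.sum_congr rfl (fun i _ => ?_)
  rw [Finset.mul_sum]
  refine Finset.sum_congr rfl (fun j _ => ?_)
  ring

theorem IsPol.add {p : ℕ} {f g : ℂ → ℂ → ℂ} (hf : IsPol p f) (hg : IsPol p g) :
    IsPol p (fun x y => f x y + g x y) := by
  obtain ⟨q, hq⟩ := hf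
  obtain ⟨r, hr⟩ := hg
  exact ⟨fun i j => q i j + r i j, fun x y => by
    show f x y + g x y = _
    rw [pol_add, hq, hr]⟩

theorem IsPol.smul {p : ℕ} {f : ℂ → ℂ → ℂ} (a : ℂ) (hf : IsPol p f) :
    IsPol p (fun x y => a * f x y) := by
  obtain ⟨q, hq⟩ := hf
  exact ⟨fun i j => a * q i j, fun x y => by
    show a * f x y = _
    rw [pol_smul, hq]⟩

theorem IsPol.zero (p : ℕ) : IsPol p (fun _ _ => 0) :=
  ⟨fun _ _ => 0, fun x y => by simp [pol]⟩

theorem IsPol.sum {p : ℕ} {σ : Type*} (s : Finset σ) {f : σ → ℂ → ℂ → ℂ}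
    (hf : ∀ r ∈ s, IsPol p (f r)) : IsPol p (fun x y => ∑ r ∈ s, f r x y) := by
  classical
  induction s using Finset.induction_on with
  | empty => simpa using IsPol.zero p
  | insert a s ha ih =>
    have h1 := (hf a (Finset.mem_insert_self a s)).add
      (ih (fun r hr => hf r (Finset.mem_insert_of_mem hr)))
    have e : (fun x y => ∑ r ∈ insert a s, f r x y) = fun x y => f a x y + ∑ r ∈ s, f r x y := by
      funext x y
      rw [Finset.sum_insert ha]
    rw [e]
    exact h1

theorem isPol_monomial {p i j : ℕ} (h : i + j ≤ p) : IsPol p (fun x y => x ^ i * y ^ j) := by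
  refine ⟨fun i' j' => if i' = i ∧ j' = j then 1 else 0, fun x y => ?_⟩
  unfold pol
  rw [Finset.sum_eq_single i]
  · rw [Finset.sum_eq_single j]
    · simp
    · intro j' _ hj'
      simp [hj']
    · intro hj
      exfalso
      apply hj
      rw [Finset.mem_range]
      omega
  · intro i' _ hi'
    refine Finset.sum_eq_zero (fun j' _ => ?_)
    simp [hi']
  · intro hi
    exfalso
    apply hi
    rw [Finset.mem_range]
    omega

theorem isPol_mul_affine {p : ℕ} {f : ℂ → ℂ → ℂ} (hf : IsPol p f) (a b c : ℂ) :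
    IsPol (p + 1) (fun x y => (a + x * b + y * c) * f x y) := by
  obtain ⟨q, hq⟩ := hf
  have h1 : (fun x y => (a + x * b + y * c) * f x y) = fun x y =>
      ∑ i ∈ range (p + 1), ∑ j ∈ range (p + 1 - i), ((a * q i j) * (x ^ i * y ^ j) +
        ((b * q i j) * (x ^ (i + 1) * y ^ j) + (c * q i j) * (x ^ i * y ^ (j + 1)))) := by
    funext x y
    rw [hq]
    unfold pol
    rw [Finset.mul_sum]
    refine Finset.sum_congr rfl (fun i _ => ?_)
    rw [Finset.mul_sum]
    refine Finset.sum_congr rfl (fun j _ => ?_)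
    ring
  rw [h1]
  refine IsPol.sum _ (fun i hi => IsPol.sum _ (fun j hj => ?_))
  rw [Finset.mem_range] at hi hj
  exact ((isPol_monomial (by omega)).smul _).add
    (((isPol_monomial (by omega)).smul _).add ((isPol_monomial (by omega)).smul _))

theorem isPol_prod {σ : Type*} (s : Finset σ) (a b c : σ → ℂ) :
    IsPol s.card (fun x y => ∏ r ∈ s, (a r + x * b r + y * c r)) := by
  classical
  induction s using Finset.induction_on with
  | empty =>
    refine ⟨fun _ _ => 1, fun x y => ?_⟩
    simp [pol]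
  | insert r s hr ih =>
    rw [Finset.card_insert_of_notMem hr]
    have e : (fun x y => ∏ r ∈ insert r s, (a r + x * b r + y * c r)) = fun x y =>
        (a r + x * b r + y * c r) * ∏ r ∈ s, (a r + x * b r + y * c r) := by
      funext x y
      rw [Finset.prod_insert hr]
    rw [e]
    exact isPol_mul_affine ih _ _ _

end DetPolyx

open DetPolyx

theorem thm_DetPoly : St_DetPoly := by
  intro p M₀ M₁ M₂
  have h : IsPol p (fun x y => (M₀ + x • M₁ + y • M₂).det) := by
    have e : (fun x y => (M₀ + x • M₁ + y • M₂).det) = fun x y : ℂ =>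
        ∑ σ : Equiv.Perm (Fin p), ((Equiv.Perm.sign σ : ℤ) : ℂ) *
          ∏ i, (M₀ (σ i) i + x * M₁ (σ i) i + y * M₂ (σ i) i) := by
      funext x y
      rw [Matrix.det_apply']
      refine Finset.sum_congr rfl (fun σ _ => ?_)
      simp [Matrix.add_apply, Matrix.smul_apply]
    rw [e]
    refine IsPol.sum _ (fun σ _ => ?_)
    have h1 := isPol_prod (Finset.univ : Finset (Fin p)) (fun i => M₀ (σ i) i)
      (fun i => M₁ (σ i) i) (fun i => M₂ (σ i) i)
    rw [Finset.card_univ, Fintype.card_fin] at h1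
    exact h1.smul _
  exact h

end Pool.Agent.MCT
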