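import Mathlib
import Pool.Agent.MCT.StB

set_option autoImplicit false

namespace Pool.Agent.MCT

open Finset

private theorem elim_sum {k : ℕ} (i : Fin k) (F : Idx k → ℝ) (hF : ∀ l : Idx k, l.1 ≠ i → F l = 0) :
    ∑ l : Idx k, F l = ∑ s : Fin (k + 1 - (i : ℕ)), F ⟨i, s⟩ := by
  rw [Fintype.sum_sigma]
  refine sum_eq_single i (fun j _ hj => ?_) (fun h => absurd (mem_univ i) h)
  exact sum_eq_zero fun s _ => hF ⟨j, s⟩ hj

theorem thm_Elim (h1 : St_LamB) (h2 : St_Cauchy) : St_Elim := by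
  intro k r H1 H2
  classical
  suffices h : ∀ n : ℕ, ∀ i : Fin k, k - (i : ℕ) = n → ∀ s, r ⟨i, s⟩ = 0 by
    funext l
    exact h _ l.1 rfl l.2
  intro n
  induction n using Nat.strong_induction_on with
  | _ n ih =>
    intro i hi
    have hgt : ∀ l : Idx k, (i : ℕ) < (l.1 : ℕ) → r l = 0 := by
      intro l hl
      have h3 := l.1.2
      exact ih (k - (l.1 : ℕ)) (by omega) l.1 rfl l.2
    obtain ⟨m, hm⟩ : ∃ m : ℕ, k + 1 - (i : ℕ) = m + 2 := ⟨k - 1 - (i : ℕ), by
      have := i.2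
      omega⟩
    let e : Fin (m + 2) ≃ Fin (k + 1 - (i : ℕ)) := finCongr hm.symm
    have he : ∀ s, ((e s : Fin (k + 1 - (i : ℕ))) : ℕ) = (s : ℕ) := fun s => rfl
    let pt : Fin (m + 2) → Idx k := fun s => ⟨i, e s⟩
    let x : Fin (m + 2) → ℝ := fun s => xx (pt s)
    let R : Fin (m + 2) → ℝ := fun s =>
      r (pt s) * ∏ j ∈ univ.erase i, lam j (xx (pt s)) (yy (pt s) 0)
    have hb : ∀ b : Fin m, (i : ℕ) + 1 + (b : ℕ) < k := by
      intro b
      have := b.2
      omega
    let jb : Fin m → Fin k := fun b => ⟨(i : ℕ) + 1 + (b : ℕ), hb b⟩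
    let ρ : Fin m → ℝ := fun b => (((i : ℕ) + 1 + (b : ℕ) : ℕ) + (i : ℕ) : ℝ) / 2
    have hlam : ∀ (l : Idx k) (j : Fin k), lam j (xx l) (yy l 0) =
        2 * ((j : ℕ) - (l.1 : ℕ) : ℝ) * ((((j : ℕ) : ℝ) + (l.1 : ℕ)) / 2 - xx l) := by
      intro l j
      unfold lam yy
      ring
    have hx : ∀ s, x s = (i : ℕ) + ((s : ℕ) + 1 : ℝ) / (4 * (k + 2)) := by
      intro s
      rfl
    have hk : (0 : ℝ) < 4 * (k + 2) := by positivity
    have hxinj : Function.Injective x := by
      intro s t hst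
      rw [hx, hx] at hst
      have h3 : ((s : ℕ) + 1 : ℝ) / (4 * (k + 2)) = ((t : ℕ) + 1 : ℝ) / (4 * (k + 2)) := by linarith
      rw [div_left_inj' hk.ne'] at h3
      have h4 : ((s : ℕ) : ℝ) = (t : ℕ) := by linarith
      exact Fin.ext (by exact_mod_cast h4)
    have hρinj : Function.Injective ρ := by
      intro b c hbc
      have h3 : (((i : ℕ) + 1 + (b : ℕ) : ℕ) + (i : ℕ) : ℝ) / 2 =
        (((i : ℕ) + 1 + (c : ℕ) : ℕ) + (i : ℕ) : ℝ) / 2 := hbc
      push_cast at h3
      have h4 : ((b : ℕ) : ℝ) = (c : ℕ) := by linarith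
      exact Fin.ext (by exact_mod_cast h4)
    have hxlt : ∀ s, x s < (i : ℕ) + 1 / 4 := by
      intro s
      rw [hx]
      have h3 : ((s : ℕ) + 1 : ℝ) / (4 * (k + 2)) < 1 / 4 := by
        rw [div_lt_div_iff₀ hk (by norm_num)]
        have h4 : ((s : ℕ) : ℝ) ≤ k := by
          have h5 := s.2
          have h6 : (s : ℕ) ≤ k := by omega
          exact_mod_cast h6
        linarith
      linarith
    have hne : ∀ b s, ρ b ≠ x s := by
      intro b s h
      have h3 := hxlt s
      rw [← h] at h3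
      have h4 : ρ b = (((i : ℕ) + 1 + (b : ℕ) : ℕ) + (i : ℕ) : ℝ) / 2 := rfl
      rw [h4] at h3
      push_cast at h3
      have h5 : (0 : ℝ) ≤ (b : ℕ) := by positivity
      linarith
    have hred : ∀ (S : Finset (Fin k)), (∀ j, j ∈ S ∨ (i : ℕ) ≤ (j : ℕ)) → ∀ m' : Fin 3,
        ∑ l : Idx k, r l * (∏ j ∈ S, lam j (xx l) (yy l 0)) * ![1, xx l, yy l 0] m' =
        ∑ s : Fin (m + 2), r (pt s) * (∏ j ∈ S, lam j (xx (pt s)) (yy (pt s) 0)) *
          ![1, xx (pt s), yy (pt s) 0] m' := by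
      intro S hS m'
      rw [elim_sum i]
      · rw [← Equiv.sum_comp e]
      · intro l hl
        rcases lt_trichotomy (l.1 : ℕ) (i : ℕ) with h3 | h3 | h3
        · have h4 : l.1 ∈ S := by
            rcases hS l.1 with h5 | h5
            · exact h5
            · omega
          rw [prod_eq_zero h4 ((h1 k l l.1 0).2.1 rfl), mul_zero, zero_mul]
        · exact absurd (Fin.ext h3) hl
        · rw [hgt l h3, zero_mul, zero_mul]
    have hS1 : ∀ j : Fin k, j ∈ (univ.erase i) ∨ (i : ℕ) ≤ (j : ℕ) := by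
      intro j
      by_cases hj : j = i
      · right; rw [hj]
      · left; exact mem_erase.2 ⟨hj, mem_univ _⟩
    have hS2 : ∀ b : Fin m, ∀ j : Fin k, j ∈ (univ.erase i).erase (jb b) ∨ (i : ℕ) ≤ (j : ℕ) := by
      intro b j
      by_cases hj : (i : ℕ) ≤ (j : ℕ)
      · right; exact hj
      · left
        refine mem_erase.2 ⟨?_, mem_erase.2 ⟨?_, mem_univ _⟩⟩
        · rintro rfl
          exact hj (by simp only [jb]; omega)
        · rintro rfl
          exact hj le_rfl
    have hR0 : ∑ s, R s = 0 := by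
      have h3 := H1 i 0
      rw [hred _ hS1] at h3
      simpa using h3
    have hR1 : ∑ s, R s * x s = 0 := by
      have h3 := H1 i 1
      rw [hred _ hS1] at h3
      simpa using h3
    have hjb : ∀ b, jb b ≠ i := by
      intro b h
      have := congrArg Fin.val h
      simp only [jb] at this
      omega
    have hR2 : ∀ b, ∑ s, R s / (ρ b - x s) = 0 := by
      intro b
      have h3 := H2 i (jb b) (hjb b).symm 0
      rw [hred _ (hS2 b)] at h3
      have h4 : ∀ s : Fin (m + 2), R s / (ρ b - x s) = (2 * (1 + (b : ℕ) : ℝ)) *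
          (r (pt s) * (∏ j ∈ (univ.erase i).erase (jb b), lam j (xx (pt s)) (yy (pt s) 0)) *
          ![1, xx (pt s), yy (pt s) 0] 0) := by
        intro s
        have h5 : ρ b - x s ≠ 0 := sub_ne_zero.2 (hne b s)
        have h6 : lam (jb b) (xx (pt s)) (yy (pt s) 0) = 2 * (1 + (b : ℕ) : ℝ) * (ρ b - x s) := by
          rw [hlam]
          simp only [jb, ρ, x, pt]
          push_cast
          ring
        have h7 : R s = r (pt s) * (lam (jb b) (xx (pt s)) (yy (pt s) 0) *
            ∏ j ∈ (univ.erase i).erase (jb b), lam j (xx (pt s)) (yy (pt s) 0)) := by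
          have h8 := mul_prod_erase (univ.erase i)
            (fun j : Fin k => lam (j : ℕ) (xx (pt s)) (yy (pt s) 0))
            (mem_erase.2 ⟨hjb b, mem_univ (jb b)⟩)
          exact congrArg (fun t => r (pt s) * t) h8.symm
        rw [h7, h6]
        rw [div_eq_iff h5]
        simp
        ring
      rw [sum_congr rfl fun s _ => h4 s, ← mul_sum, h3, mul_zero]
    have hR := h2 m x R ρ hxinj hρinj hne hR0 hR1 hR2
    intro s
    obtain ⟨s', rfl⟩ := e.surjective s
    have h3 : R s' = 0 := congrFun hR s'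
    have h4 : ∏ j ∈ univ.erase i, lam j (xx (pt s')) (yy (pt s') 0) ≠ 0 := by
      refine prod_ne_zero_iff.2 fun j hj => ?_
      have h5 := (h1 k (pt s') j 0).2.2 (mem_erase.1 hj).1
      intro h6
      rw [h6] at h5
      linarith
    exact (mul_eq_zero.1 h3).resolve_right h4

end Pool.Agent.MCT
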