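import Mathlib
import Pool.Agent.MCT.StA

set_option autoImplicit false

namespace Pool.Agent.MCT

open Finset Filter Matrix
open scoped ComplexConjugate Topology

namespace FinalAx

variable {ι : Type} [Fintype ι] {k : ℕ}

theorem gr0 (V : Matrix ι (Fin k) ℂ) (i j : Fin k) :
    (Vᴴ * V) i j = ∑ l, conj (V l i) * V l j := by
  rw [Matrix.mul_apply]
  rfl

theorem gr1 [DecidableEq ι] (b : ι → ℂ) (V : Matrix ι (Fin k) ℂ) (i j : Fin k) :
    (Vᴴ * Matrix.diagonal b * V) i j = ∑ l, b l * (conj (V l i) * V l j) := by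
  rw [Matrix.mul_apply]
  refine Finset.sum_congr rfl (fun l _ => ?_)
  rw [Matrix.mul_diagonal, Matrix.conjTranspose_apply]
  show star (V l i) * b l * V l j = _
  rw [Complex.star_def]
  ring

theorem phi_zero (b : ι → ℂ) (V : Matrix ι (Fin k) ℂ) (i j : Fin k) :
    Phi (fun l => hom (b l)) (fun l i => conj (V l i)) 0 i j = ∑ l, conj (V l i) * V l j := by
  unfold Phi
  refine Finset.sum_congr rfl (fun l _ => ?_)
  rw [Complex.conj_conj]
  simp [hom]

theorem phi_one_two (b : ι → ℂ) (V : Matrix ι (Fin k) ℂ) (i j : Fin k) :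
    Phi (fun l => hom (b l)) (fun l i => conj (V l i)) 1 i j +
      Complex.I * Phi (fun l => hom (b l)) (fun l i => conj (V l i)) 2 i j =
      ∑ l, b l * (conj (V l i) * V l j) := by
  unfold Phi
  rw [Finset.mul_sum, ← Finset.sum_add_distrib]
  refine Finset.sum_congr rfl (fun l _ => ?_)
  have e : b l = ((b l).re : ℂ) + ((b l).im : ℂ) * Complex.I := (Complex.re_add_im _).symm
  rw [Complex.conj_conj]
  conv_rhs => rw [e]
  simp only [hom, Matrix.cons_val_one, Matrix.cons_val]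
  ring

theorem sum_emb {n : ℕ} (S : Finset (Fin n)) (f : Fin n → ℂ) (hf : ∀ l, l ∉ S → f l = 0) :
    ∑ r : Fin S.card, f (S.orderEmbOfFin rfl r) = ∑ l, f l := by
  rw [← Finset.sum_subset (Finset.subset_univ S) (fun l _ hl => hf l hl)]
  conv_rhs => rw [← Finset.map_orderEmbOfFin_univ S rfl]
  rw [Finset.sum_map]
  rfl

end FinalAx

open FinalAx

theorem thm_FinalA (h1 : St_Supp) : St_FinalA := by
  intro n k b V
  obtain ⟨v', S, hS, hv0, hPhi⟩ := h1 k (Fin n) b (fun l i => conj (V l i))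
  set V₁ : Matrix (Fin n) (Fin k) ℂ := fun l i => conj (v' l i) with hV₁
  have hv' : v' = fun l i => conj (V₁ l i) := by
    funext l i
    rw [hV₁, Complex.conj_conj]
  rw [hv'] at hPhi
  have hg0 : ∀ i j, ∑ l, conj (V₁ l i) * V₁ l j = ∑ l, conj (V l i) * V l j := by
    intro i j
    rw [← phi_zero b V₁ i j, ← phi_zero b V i j, hPhi]
  have hg1 : ∀ i j, ∑ l, b l * (conj (V₁ l i) * V₁ l j) = ∑ l, b l * (conj (V l i) * V l j) := by
    intro i j
    rw [← phi_one_two b V₁ i j, ← phi_one_two b V i j, hPhi]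
  have hz : ∀ l, l ∉ S → ∀ i, V₁ l i = 0 := by
    intro l hl i
    rw [hV₁]
    show conj (v' l i) = 0
    rw [hv0 l hl]
    simp
  refine ⟨S, hS, Matrix.of fun r i => V₁ (S.orderEmbOfFin rfl r) i, ?_, ?_⟩
  · ext i j
    rw [gr0, gr0, ← hg0 i j]
    exact sum_emb S (fun l => conj (V₁ l i) * V₁ l j) (fun l hl => by rw [hz l hl j]; ring)
  · ext i j
    rw [gr1, gr1, ← hg1 i j]
    exact sum_emb S (fun l => b l * (conj (V₁ l i) * V₁ l j))
      (fun l hl => by rw [hz l hl j]; ring)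

end Pool.Agent.MCT
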