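import Mathlib
import Pool.Agent.MCT.StA

set_option autoImplicit false

namespace Pool.Agent.MCT

open Finset Filter Matrix Pool.Agent.Helper45.NC
open scoped ComplexConjugate Topology

theorem thm_FinalB (h1 : St_FinalA) : St_FinalB := by
  intro n k A B V hB hV hA
  obtain ⟨R, e, hR1, hR2, hR⟩ := normal_diag B hB
  have hBe : B = R * Matrix.diagonal e * Rᴴ := by
    rw [← hR, Matrix.mul_assoc, hR2, Matrix.mul_one]
  set W : Matrix (Fin n) (Fin k) ℂ := Rᴴ * V with hW
  have hW1 : Wᴴ * W = 1 := by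
    rw [hW, Matrix.conjTranspose_mul, Matrix.conjTranspose_conjTranspose]
    calc Vᴴ * R * (Rᴴ * V) = Vᴴ * (R * Rᴴ) * V := by simp only [Matrix.mul_assoc]
      _ = 1 := by rw [hR2, Matrix.mul_one, hV]
  have hW2 : Wᴴ * Matrix.diagonal e * W = A := by
    rw [hW, Matrix.conjTranspose_mul, Matrix.conjTranspose_conjTranspose, hA]
    calc Vᴴ * R * Matrix.diagonal e * (Rᴴ * V) = Vᴴ * (R * Matrix.diagonal e * Rᴴ) * V := by
          simp only [Matrix.mul_assoc]
      _ = _ := by rw [← hBe]
  obtain ⟨S, hS, V', hV1, hV2⟩ := h1 n k e W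
  refine ⟨S.card, Matrix.diagonal (fun i => e (S.orderEmbOfFin rfl i)), V', hS,
    diag_normal _, ?_, hV1.trans hW1, ?_⟩
  · have hcB : B.charpoly = (Matrix.diagonal e).charpoly := by
      have h5 : Rᴴ * B * R = Matrix.diagonal e := by
        rw [Matrix.mul_assoc, hR, ← Matrix.mul_assoc, hR1, Matrix.one_mul]
      rw [← h5, Matrix.charpoly_mul_comm, ← Matrix.mul_assoc, hR2, Matrix.one_mul]
    rw [hcB, Matrix.charpoly_diagonal, Matrix.charpoly_diagonal, roots_prod_ms, roots_prod_ms]
    have e1 : ms (fun i => e (S.orderEmbOfFin rfl i)) = S.val.map e := by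
      unfold ms
      have h6 := congrArg Finset.val (Finset.map_orderEmbOfFin_univ S rfl)
      rw [Finset.map_val] at h6
      rw [← h6, Multiset.map_map]
      rfl
    rw [e1]
    unfold ms
    exact Multiset.map_le_map (Finset.val_le_iff.2 (Finset.subset_univ S))
  · rw [hV2, hW2]

end Pool.Agent.MCT
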