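import Mathlib
import Pool.Agent.MCT.StA

set_option autoImplicit false

namespace Pool.Agent.MCT

open Finset Filter Matrix Pool.Agent.Helper45.NC
open scoped ComplexConjugate Topology

namespace FinalDilx

theorem dil_emb {m n : ℕ} (e : Fin m → Fin n) (he : Function.Injective e) (b : Fin n → ℂ) :
    Dil (fun r => b (e r)) b := by
  refine ⟨Matrix.of fun l r => if e r = l then 1 else 0, ?_, ?_⟩
  · ext r s
    rw [Matrix.mul_apply]
    simp only [Matrix.conjTranspose_apply, Matrix.of_apply, Matrix.one_apply]
    by_cases h : r = s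
    · subst h
      simp
    · rw [if_neg h]
      refine Finset.sum_eq_zero (fun l _ => ?_)
      by_cases h1 : e r = l
      · have h2 : e s ≠ l := fun h3 => h (he (h1.trans h3.symm))
        simp [h2]
      · simp [h1]
  · ext r s
    rw [Matrix.mul_apply]
    simp only [Matrix.mul_diagonal, Matrix.conjTranspose_apply, Matrix.of_apply,
      Matrix.diagonal_apply]
    by_cases h : r = s
    · subst h
      simp
    · rw [if_neg h]
      refine Finset.sum_eq_zero (fun l _ => ?_)
      by_cases h1 : e r = l
      · have h2 : e s ≠ l := fun h3 => h (he (h1.trans h3.symm))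
        simp [h2]
      · simp [h1]

end FinalDilx

open FinalDilx

theorem thm_FinalDil (h1 : St_FinalA) : St_FinalDil := by
  intro n k a b
  constructor
  · rintro ⟨W, hW1, hW2⟩
    obtain ⟨S, hS, V', hV1, hV2⟩ := h1 n k b W
    exact ⟨S, hS, V', hV1.trans hW1, hV2.trans hW2⟩
  · rintro ⟨S, -, hD⟩
    exact hD.trans (dil_emb (fun i => S.orderEmbOfFin rfl i) (S.orderEmbOfFin rfl).injective b)

end Pool.Agent.MCT
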