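import Mathlib
import Pool.Agent.MCT.StA

set_option autoImplicit false

namespace Pool.Agent.MCT

open Finset Filter
open scoped ComplexConjugate Topology

namespace Indx

theorem even_div (a : ℕ) : 2 * ((a + 1) * (a + 2) / 2) = (a + 1) * (a + 2) := by
  have h : 2 ∣ (a + 1) * (a + 2) := (Nat.even_mul_succ_self (a + 1)).two_dvd
  omega

theorem three_le {k : ℕ} (hk : 1 ≤ k) : 3 * k ≤ (k + 1) * (k + 2) / 2 := by
  have h := even_div k
  have h2 : 2 * (3 * k) ≤ (k + 1) * (k + 2) := by
    obtain ⟨m, rfl⟩ : ∃ m, k = m + 1 := ⟨k - 1, by omega⟩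
    by_cases hm : m = 0
    · subst hm; norm_num
    · have : 1 ≤ m := by omega
      nlinarith
  omega

theorem split_le {p d : ℕ} (hp : 1 ≤ p) (hd : 1 ≤ d) :
    (p + 1) * (p + 2) / 2 + (d + 1) * (d + 2) / 2 ≤ (d + p + 1) * (d + p + 2) / 2 := by
  have h1 := even_div p
  have h2 := even_div d
  have h3 := even_div (d + p)
  have h4 : (p + 1) * (p + 2) + (d + 1) * (d + 2) ≤ (d + p + 1) * (d + p + 2) := by
    nlinarith [Nat.mul_le_mul hp hd]
  omega

theorem gen_sub {ι : Type} {b : ι → ℂ} (hb : Gen b) (P : ι → Prop) :
    Gen (fun l : {l // P l} => b l.1) := by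
  refine ⟨fun x y h => Subtype.ext (hb.1 h), fun p S hS q hq => ?_⟩
  refine hb.2 p (S.map (Function.Embedding.subtype P)) (by rw [Finset.card_map]; exact hS) q ?_
  intro l hl
  rw [Finset.mem_map] at hl
  obtain ⟨x, hx, rfl⟩ := hl
  exact hq x hx

end Indx

open Indx

theorem thm_Ind (h1 : St_Closed) (h2 : St_Sub) (h3 : St_Core) (h4 : St_Block) : St_Ind := by
  intro k
  induction k using Nat.strong_induction_on with
  | _ k ih =>
    intro ι _ _ b v hb hcard
    rcases Nat.eq_zero_or_pos k with hk | hk
    · subst hk
      have hne : Nonempty ι := by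
        rw [← Fintype.card_pos_iff]
        omega
      obtain ⟨l₀⟩ := hne
      exact ⟨v, l₀, Subsingleton.elim _ _, rfl⟩
    · have h3k := three_le hk
      have hne : Nonempty ι := by
        rw [← Fintype.card_pos_iff]
        omega
      obtain ⟨l₁⟩ := hne
      set w : ι → Fin 3 → ℝ := fun l => hom (b l) with hw
      have hw0 : ∀ l, w l 0 = 1 := fun l => by simp [hw, hom]
      have hcore := fun j : ℕ => h3 ι k w v l₁ hw0 (by omega) (1 / ((j : ℝ) + 1)) (by positivity)
      choose vs hvs1 hvs2 using hcore
      refine h1 ι k w v (fun _ => w) vs (fun _ l => hw0 l) tendsto_const_nhds ?_ ?_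
      · rw [tendsto_pi_nhds]
        intro m
        rw [tendsto_pi_nhds]
        intro i
        rw [tendsto_pi_nhds]
        intro i'
        rw [tendsto_iff_norm_sub_tendsto_zero]
        refine squeeze_zero (fun _ => norm_nonneg _) (fun j => hvs1 j m i i') ?_
        exact tendsto_one_div_add_atTop_nhds_zero_nat
      · intro j
        rcases hvs2 j with h0 | ⟨L, hL, hne, hfo, hfo1, hcex⟩
        · exact ⟨vs j, l₁, h0, rfl⟩
        · obtain ⟨p, d, I, Z, hp, hdp, hZ, hI, hin⟩ :=
            h4 ι k b (vs j) l₁ L hb hL hne hfo hfo1 hcex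
          refine h2 ι k d w (vs j) I Z hZ hin (fun u => ?_)
          have hc : Fintype.card {l // l ∉ I} = Fintype.card ι - I.card := by
            rw [Fintype.card_subtype_compl, Fintype.card_coe]
          rcases Nat.eq_zero_or_pos d with hd | hd
          · subst hd
            have hne2 : Nonempty {l // l ∉ I} := by
              rw [← Fintype.card_pos_iff, hc]
              have : p = k := by omega
              subst this
              omega
            obtain ⟨l₀⟩ := hne2
            exact ⟨u, l₀, Subsingleton.elim _ _, rfl⟩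
          · refine ih d (by omega) {l // l ∉ I} (fun l => b l.1) u (gen_sub hb _) ?_
            rw [hc]
            have := split_le hp hd
            rw [hdp] at this
            omega

end Pool.Agent.MCT
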