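import Mathlib
import Pool.Agent.MCT.StB

/-!
MP_ca8ee9_an, matrix Caratheodory theorem, part B: linear independence by a limit (`St_Indep`).
-/

set_option autoImplicit false

namespace Pool.Agent.MCT

open Finset Filter
open scoped ComplexConjugate Topology

namespace Indepx

lemma pos (h3 : St_LamB) {k : ℕ} (l : Idx k) (j : Fin k) (s : ℝ) (hs : 0 < s) :
    0 < lam j (xx l) (yy l s) := by
  obtain ⟨e, h0, h1⟩ := h3 k l j s
  rw [e]
  by_cases h : j = l.1
  · rw [h0 h]; linarith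
  · have := h1 h; linarith

lemma seq (h1 : St_Pts) (h3 : St_LamB) {k : ℕ} (hk : 1 ≤ k)
    (hcon : ¬ ∃ (ε : ℝ) (x y : Idx k → ℝ), 0 < ε ∧
      (∀ l, ∀ j : Fin k, 0 < lam j (x l) (y l)) ∧ (∀ l, ∑ j : Fin k, ε / lam j (x l) (y l) = 1) ∧
      ∀ r : Idx k → ℝ, (∀ a b : Fin k, ∀ m : Fin 3, ∑ l : Idx k,
        r l * (1 / lam a (x l) (y l)) * (1 / lam b (x l) (y l)) * ![1, x l, y l] m = 0) → r = 0)
    (n : ℕ) : ∃ t s : Idx k → ℝ, ‖t‖ = 1 ∧ (∀ l, 0 < s l ∧ s l ≤ 2 / ((n : ℝ) + 1)) ∧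
      (∀ a : Fin k, ∀ m : Fin 3, ∑ l : Idx k, t l *
        (∏ j ∈ univ.erase a, lam j (xx l) (yy l (s l))) * ![1, xx l, yy l (s l)] m = 0) ∧
      (∀ a b : Fin k, a ≠ b → ∀ m : Fin 3, ∑ l : Idx k, t l *
        (∏ j ∈ (univ.erase a).erase b, lam j (xx l) (yy l (s l))) *
          ![1, xx l, yy l (s l)] m = 0) := by
  obtain ⟨ε, hε, hεδ, s, hs, hsum⟩ := h1 k hk (1 / ((n : ℝ) + 1)) (by positivity)
  by_contra hno
  refine hcon ⟨ε, xx, fun l => yy l (s l), hε, fun l j => pos h3 l j (s l) (hs l).1, hsum,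
    fun r hr => ?_⟩
  by_contra hr0
  obtain ⟨L, hL⟩ : ∃ L : Idx k → Fin k → ℝ, L = fun l (j : Fin k) => lam (j : ℕ) (xx l) (yy l (s l)) := ⟨_, rfl⟩
  have hLe : ∀ (l : Idx k) (j : Fin k), lam j (xx l) (yy l (s l)) = L l j := by
    intro l j; rw [hL]
  have hLpos : ∀ l j, 0 < L l j := by
    intro l j; rw [← hLe]; exact pos h3 l j (s l) (hs l).1
  simp only [hLe] at hr hsum
  have hP : ∀ l, 0 < ∏ j, L l j := fun l => prod_pos fun j _ => hLpos l j
  obtain ⟨r', hr'⟩ : ∃ r' : Idx k → ℝ, r' = fun l => r l / ∏ j, L l j := ⟨_, rfl⟩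
  have hr'e : ∀ l, r' l * ∏ j, L l j = r l := by
    intro l; rw [hr']; exact div_mul_cancel₀ _ (hP l).ne'
  have hr'0 : r' ≠ 0 := by
    intro h
    apply hr0
    funext l
    rw [← hr'e l, h]
    simp
  have hn0 : ‖r'‖ ≠ 0 := norm_ne_zero_iff.2 hr'0
  -- the products
  have key1 : ∀ (a : Fin k) (l : Idx k), r' l * ∏ j ∈ univ.erase a, L l j = r l * (1 / L l a) := by
    intro a l
    have e := mul_prod_erase univ (L l) (mem_univ a)
    have hne := (hLpos l a).ne'
    rw [← hr'e l, ← e]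
    field_simp
  have key2 : ∀ (a b : Fin k), a ≠ b → ∀ l : Idx k,
      r' l * ∏ j ∈ (univ.erase a).erase b, L l j = r l * (1 / L l a) * (1 / L l b) := by
    intro a b hab l
    have e := mul_prod_erase (univ.erase a) (L l) (mem_erase.2 ⟨hab.symm, mem_univ b⟩)
    have hne := (hLpos l b).ne'
    rw [← key1 a l, ← e]
    field_simp
  have rel1 : ∀ (a : Fin k) (m : Fin 3),
      ∑ l : Idx k, r l * (1 / L l a) * ![1, xx l, yy l (s l)] m = 0 := by
    intro a m
    have e1 : ∀ l : Idx k, r l * (1 / L l a) * ![1, xx l, yy l (s l)] m =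
        ∑ b : Fin k, ε * (r l * (1 / L l a) * (1 / L l b) * ![1, xx l, yy l (s l)] m) := by
      intro l
      have e2 : ∀ b : Fin k, ε * (r l * (1 / L l a) * (1 / L l b) * ![1, xx l, yy l (s l)] m) =
          (r l * (1 / L l a) * ![1, xx l, yy l (s l)] m) * (ε / L l b) := fun b => by ring
      rw [sum_congr rfl fun b _ => e2 b, ← mul_sum, hsum l, mul_one]
    rw [sum_congr rfl fun l _ => e1 l, sum_comm]
    refine sum_eq_zero fun b _ => ?_
    rw [← mul_sum, hr a b m, mul_zero]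
  apply hno
  refine ⟨‖r'‖⁻¹ • r', s, ?_, fun l => ⟨(hs l).1, ?_⟩, ?_, ?_⟩
  · rw [norm_smul, norm_inv, norm_norm, inv_mul_cancel₀ hn0]
  · refine (hs l).2.trans ?_
    have : 2 / ((n : ℝ) + 1) = 2 * (1 / ((n : ℝ) + 1)) := by ring
    rw [this]
    linarith
  · intro a m
    simp only [hLe, Pi.smul_apply, smul_eq_mul]
    have e1 : ∀ l : Idx k, ‖r'‖⁻¹ * r' l * (∏ j ∈ univ.erase a, L l j) *
        ![1, xx l, yy l (s l)] m = ‖r'‖⁻¹ * (r l * (1 / L l a) * ![1, xx l, yy l (s l)] m) := by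
      intro l
      rw [← key1 a l]; ring
    rw [sum_congr rfl fun l _ => e1 l, ← mul_sum, rel1 a m, mul_zero]
  · intro a b hab m
    simp only [hLe, Pi.smul_apply, smul_eq_mul]
    have e1 : ∀ l : Idx k, ‖r'‖⁻¹ * r' l * (∏ j ∈ (univ.erase a).erase b, L l j) *
        ![1, xx l, yy l (s l)] m =
          ‖r'‖⁻¹ * (r l * (1 / L l a) * (1 / L l b) * ![1, xx l, yy l (s l)] m) := by
      intro l
      rw [← key2 a b hab l]; ring
    rw [sum_congr rfl fun l _ => e1 l, ← mul_sum, hr a b m, mul_zero]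

lemma cont {k : ℕ} (A : Finset (Fin k)) (m : Fin 3) :
    Continuous fun z : (Idx k → ℝ) × (Idx k → ℝ) => ∑ l : Idx k, z.1 l *
      (∏ j ∈ A, lam j (xx l) (yy l (z.2 l))) * ![1, xx l, yy l (z.2 l)] m := by
  have h1 : ∀ l : Idx k, Continuous fun z : (Idx k → ℝ) × (Idx k → ℝ) => yy l (z.2 l) := by
    intro l; unfold yy; fun_prop
  have h2 : ∀ l : Idx k, Continuous fun z : (Idx k → ℝ) × (Idx k → ℝ) =>
      (![1, xx l, yy l (z.2 l)] m : ℝ) := by
    intro l
    fin_cases m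
    · exact continuous_const
    · exact continuous_const
    · exact h1 l
  have h3 : ∀ (l : Idx k) (j : Fin k), Continuous fun z : (Idx k → ℝ) × (Idx k → ℝ) =>
      lam j (xx l) (yy l (z.2 l)) := by
    intro l j
    have := h1 l
    unfold lam
    fun_prop
  refine continuous_finsetSum _ fun l _ => ?_
  refine Continuous.mul (Continuous.mul (by fun_prop) ?_) (h2 l)
  exact continuous_finsetProd _ fun j _ => h3 l j

end Indepx

open Indepx in
theorem thm_Indep (h1 : St_Pts) (h2 : St_Elim) (h3 : St_LamB) : St_Indep := by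
  intro k hk
  by_contra hcon
  choose t s ht hs hr1 hr2 using fun n : ℕ => seq h1 h3 hk hcon n
  have hsph : ∀ n, t n ∈ Metric.sphere (0 : Idx k → ℝ) 1 := fun n => by
    rw [mem_sphere_zero_iff_norm]; exact ht n
  obtain ⟨t0, ht0, φ, hφ, hlim⟩ := (isCompact_sphere (0 : Idx k → ℝ) 1).tendsto_subseq hsph
  have hs0 : Tendsto s atTop (𝓝 (0 : Idx k → ℝ)) := by
    rw [tendsto_pi_nhds]
    intro l
    have h4 : Tendsto (fun n : ℕ => 2 / ((n : ℝ) + 1)) atTop (𝓝 0) := by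
      have := (tendsto_one_div_add_atTop_nhds_zero_nat (𝕜 := ℝ)).const_mul 2
      rw [mul_zero] at this
      refine this.congr fun n => ?_
      ring
    exact tendsto_of_tendsto_of_tendsto_of_le_of_le tendsto_const_nhds h4
      (fun n => (hs n l).1.le) (fun n => (hs n l).2)
  have hpair : Tendsto (fun n => (t (φ n), s (φ n))) atTop (𝓝 (t0, (0 : Idx k → ℝ))) :=
    hlim.prodMk_nhds (hs0.comp hφ.tendsto_atTop)
  have h5 : t0 = 0 := by
    apply h2 k t0
    · intro a m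
      have h6 := ((cont (univ.erase a) m).tendsto (t0, 0)).comp hpair
      have h7 : Tendsto (fun _ : ℕ => (0 : ℝ)) atTop (𝓝 (∑ l : Idx k, t0 l *
          (∏ j ∈ univ.erase a, lam j (xx l) (yy l ((0 : Idx k → ℝ) l))) *
            ![1, xx l, yy l ((0 : Idx k → ℝ) l)] m)) :=
        h6.congr fun n => hr1 (φ n) a m
      exact tendsto_nhds_unique h7 tendsto_const_nhds
    · intro a b hab m
      have h6 := ((cont ((univ.erase a).erase b) m).tendsto (t0, 0)).comp hpair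
      have h7 : Tendsto (fun _ : ℕ => (0 : ℝ)) atTop (𝓝 (∑ l : Idx k, t0 l *
          (∏ j ∈ (univ.erase a).erase b, lam j (xx l) (yy l ((0 : Idx k → ℝ) l))) *
            ![1, xx l, yy l ((0 : Idx k → ℝ) l)] m)) :=
        h6.congr fun n => hr2 (φ n) a b hab m
      exact tendsto_nhds_unique h7 tendsto_const_nhds
  rw [mem_sphere_zero_iff_norm, h5, norm_zero] at ht0
  exact zero_ne_one ht0

end Pool.Agent.MCT
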