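import Mathlib
import Pool.Agent.MCT.StB

/-!
# MCT, module LamB: values of the lines at the points
-/

set_option autoImplicit false

namespace Pool.Agent.MCT

open Finset Filter
open scoped ComplexConjugate Topology

theorem thm_LamB : St_LamB := by
  intro k l j s
  refine ⟨?_, ?_, ?_⟩
  · unfold lam yy
    ring
  · intro h
    subst h
    unfold lam yy
    ring
  · intro h
    have hne : (j : ℕ) ≠ (l.1 : ℕ) := fun h' => h (Fin.ext h')
    have hl2 : (l.2 : ℕ) < k + 1 - (l.1 : ℕ) := l.2.isLt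
    have hl2' : (l.2 : ℕ) + 1 ≤ k + 1 := by omega
    have hl2r : ((l.2 : ℕ) : ℝ) + 1 ≤ k + 1 := by exact_mod_cast hl2'
    set θ : ℝ := (((l.2 : ℕ) : ℝ) + 1) / (4 * (k + 2)) with hθ
    have hθ0 : 0 < θ := by positivity
    have hθ1 : θ ≤ 1 / 4 := by
      rw [hθ, div_le_iff₀ (by positivity)]
      linarith
    have hx : xx l = ((l.1 : ℕ) : ℝ) + θ := rfl
    have hval : lam j (xx l) (yy l 0) =
        (((j : ℕ) : ℝ) - ((l.1 : ℕ) : ℝ)) * (((j : ℕ) : ℝ) - ((l.1 : ℕ) : ℝ) - 2 * θ) := by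
      unfold lam yy
      rw [hx]
      ring
    rw [hval]
    rcases lt_or_gt_of_ne hne with h1 | h1
    · have h2 : ((j : ℕ) : ℝ) + 1 ≤ ((l.1 : ℕ) : ℝ) := by exact_mod_cast h1
      nlinarith
    · have h2 : ((l.1 : ℕ) : ℝ) + 1 ≤ ((j : ℕ) : ℝ) := by exact_mod_cast h1
      nlinarith

end Pool.Agent.MCT
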