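import Mathlib
import Pool.Agent.MCT.StA

/-!
# MCT, Low3: cube roots of unity
-/

set_option autoImplicit false

namespace Pool.Agent.MCT

open Finset Filter Matrix
open scoped ComplexConjugate Topology

namespace Low3x

/-- the cube roots of unity -/
noncomputable def cr : Fin 3 → ℂ :=
  ![1, ⟨-1 / 2, Real.sqrt 3 / 2⟩, ⟨-1 / 2, -(Real.sqrt 3 / 2)⟩]

theorem cr_sum : ∑ r, cr r = 0 := by
  rw [Fin.sum_univ_three]
  apply Complex.ext
  · simp [cr]
    norm_num
  · simp [cr]

theorem cr_re (r s : Fin 3) : (conj (cr r) * cr s).re = if s = r then 1 else -1 / 2 := by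
  have h3 : Real.sqrt 3 * Real.sqrt 3 = 3 := Real.mul_self_sqrt (by norm_num)
  have h4 : Real.sqrt 3 / 2 * (Real.sqrt 3 / 2) = 3 / 4 := by
    linear_combination h3 / 4
  fin_cases r <;> fin_cases s <;> simp [cr, Complex.mul_re] <;> linarith

/-- the points -/
noncomputable def pb (k : ℕ) (l : Fin (3 * k)) : ℂ := cr (finProdFinEquiv.symm l).1

theorem dil (k : ℕ) : Pool.Agent.Helper45.NC.Dil (fun _ : Fin k => (0 : ℂ)) (pb k) := by
  have hs : ((Real.sqrt 3 : ℝ) : ℂ)⁻¹ * ((Real.sqrt 3 : ℝ) : ℂ)⁻¹ = 1 / 3 := by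
    rw [← mul_inv, ← Complex.ofReal_mul, Real.mul_self_sqrt (by norm_num)]
    norm_num
  refine ⟨Matrix.of fun l i => if (finProdFinEquiv.symm l).2 = i then
    ((Real.sqrt 3 : ℝ) : ℂ)⁻¹ else 0, ?_, ?_⟩
  · ext i j
    rw [Matrix.mul_apply, ← finProdFinEquiv.sum_comp, Fintype.sum_prod_type]
    simp only [Matrix.conjTranspose_apply, Matrix.of_apply, Equiv.symm_apply_apply]
    have h1 : ∀ r : Fin 3, ∑ m : Fin k, star (if m = i then ((Real.sqrt 3 : ℝ) : ℂ)⁻¹ else 0) *
        (if m = j then ((Real.sqrt 3 : ℝ) : ℂ)⁻¹ else 0) = if i = j then 1 / 3 else 0 := by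
      intro r
      rw [Finset.sum_eq_single i]
      · rw [if_pos rfl]
        split_ifs
        · rw [star_inv₀, Complex.star_def, Complex.conj_ofReal, hs]
        · rw [mul_zero]
      · intro m _ hm
        rw [if_neg hm, star_zero, zero_mul]
      · intro h
        exact absurd (Finset.mem_univ i) h
    rw [Finset.sum_congr rfl fun r _ => h1 r, Finset.sum_const, Finset.card_univ, Fintype.card_fin,
      Matrix.one_apply]
    split_ifs
    · norm_num
    · simp
  · ext i j
    rw [Matrix.mul_apply, ← finProdFinEquiv.sum_comp, Fintype.sum_prod_type]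
    simp only [Matrix.mul_diagonal, Matrix.conjTranspose_apply, Matrix.of_apply,
      Equiv.symm_apply_apply, pb]
    have h1 : ∀ r : Fin 3, ∑ m : Fin k, star (if m = i then ((Real.sqrt 3 : ℝ) : ℂ)⁻¹ else 0) *
        cr r * (if m = j then ((Real.sqrt 3 : ℝ) : ℂ)⁻¹ else 0) =
        cr r * if i = j then 1 / 3 else 0 := by
      intro r
      rw [Finset.sum_eq_single i]
      · rw [if_pos rfl]
        split_ifs
        · rw [star_inv₀, Complex.star_def, Complex.conj_ofReal, mul_right_comm, hs, mul_comm]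
        · rw [mul_zero, mul_zero]
      · intro m _ hm
        rw [if_neg hm, star_zero, zero_mul, zero_mul]
      · intro h
        exact absurd (Finset.mem_univ i) h
    rw [Finset.sum_congr rfl fun r _ => h1 r, ← Finset.sum_mul, cr_sum, zero_mul]
    simp [Matrix.diagonal_apply]

theorem few {k : ℕ} (S : Finset (Fin (3 * k))) (l₀ : Fin (3 * k)) (h : l₀ ∉ S) :
    (Finset.univ.filter fun i : Fin S.card =>
      (finProdFinEquiv.symm (S.orderEmbOfFin rfl i)).1 = (finProdFinEquiv.symm l₀).1).card < k := by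
  classical
  set ρ := (finProdFinEquiv.symm l₀).1
  have h1 : (Finset.univ.filter fun i : Fin S.card =>
      (finProdFinEquiv.symm (S.orderEmbOfFin rfl i)).1 = ρ).card ≤
      ((Finset.univ : Finset (Fin k)).erase (finProdFinEquiv.symm l₀).2).card := by
    refine Finset.card_le_card_of_injOn
      (fun i => (finProdFinEquiv.symm (S.orderEmbOfFin rfl i)).2) ?_ ?_
    · intro i hi
      have hi' := (Finset.mem_filter.1 hi).2
      refine Finset.mem_coe.2 (Finset.mem_erase.2 ⟨?_, Finset.mem_univ _⟩)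
      intro h2
      apply h
      have h3 : finProdFinEquiv.symm (S.orderEmbOfFin rfl i) = finProdFinEquiv.symm l₀ :=
        Prod.ext hi' h2
      rw [← finProdFinEquiv.symm.injective h3]
      exact S.orderEmbOfFin_mem rfl i
    · intro i hi j hj hij
      have hi' := (Finset.mem_filter.1 hi).2
      have hj' := (Finset.mem_filter.1 hj).2
      have h3 : finProdFinEquiv.symm (S.orderEmbOfFin rfl i) =
          finProdFinEquiv.symm (S.orderEmbOfFin rfl j) := Prod.ext (hi'.trans hj'.symm) hij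
      exact (S.orderEmbOfFin rfl).injective (finProdFinEquiv.symm.injective h3)
  refine lt_of_le_of_lt h1 ?_
  rw [Finset.card_erase_of_mem (Finset.mem_univ _), Finset.card_univ, Fintype.card_fin]
  have : 0 < k := (finProdFinEquiv.symm l₀).2.pos
  omega

theorem kerx {n k : ℕ} (W : Matrix (Fin n) (Fin k) ℂ) (R : Finset (Fin n)) (h : R.card < k) :
    ∃ x : Fin k → ℂ, x ≠ 0 ∧ ∀ i ∈ R, (W *ᵥ x) i = 0 := by
  let f : (Fin k → ℂ) →ₗ[ℂ] ({i // i ∈ R} → ℂ) :=
    (LinearMap.funLeft ℂ ℂ (fun i : {i // i ∈ R} => (i : Fin n))).comp W.mulVecLin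
  have h1 : Module.finrank ℂ ({i // i ∈ R} → ℂ) < Module.finrank ℂ (Fin k → ℂ) := by
    rw [Module.finrank_fintype_fun_eq_card, Module.finrank_fintype_fun_eq_card, Fintype.card_fin,
      Fintype.card_coe]
    exact h
  have h2 := LinearMap.ker_ne_bot_of_finrank_lt (f := f) h1
  obtain ⟨x, hx, hx0⟩ := Submodule.exists_mem_ne_zero_of_ne_bot h2
  refine ⟨x, hx0, fun i hi => ?_⟩
  have := congrFun (LinearMap.mem_ker.1 hx) ⟨i, hi⟩
  exact this

end Low3x

open Low3x in
theorem thm_Low3 : St_Low3 := by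
  intro k
  refine ⟨pb k, dil k, ?_⟩
  rintro S hS ⟨W, hW1, hW2⟩
  obtain ⟨l₀, hl₀⟩ : ∃ l₀, l₀ ∉ S := by
    by_contra hcon
    push Not at hcon
    have : S = Finset.univ := Finset.eq_univ_iff_forall.2 hcon
    rw [this, Finset.card_univ, Fintype.card_fin] at hS
    exact lt_irrefl _ hS
  obtain ⟨x, hx0, hx⟩ := kerx W _ (few S l₀ hl₀)
  set ρ := (finProdFinEquiv.symm l₀).1 with hρ
  set y := W *ᵥ x with hy
  have e1 : star y ⬝ᵥ y = star x ⬝ᵥ x := by
    rw [hy, star_mulVec, ← dotProduct_mulVec, mulVec_mulVec, hW1, one_mulVec]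
  have e2 : star y ⬝ᵥ (diagonal (fun i => pb k (S.orderEmbOfFin rfl i)) *ᵥ y) = 0 := by
    rw [hy, star_mulVec, ← dotProduct_mulVec, mulVec_mulVec, mulVec_mulVec, hW2]
    simp [dotProduct, mulVec_diagonal]
  have e3 : (conj (cr ρ) * (star y ⬝ᵥ (diagonal (fun i => pb k (S.orderEmbOfFin rfl i)) *ᵥ y))).re =
      -1 / 2 * (star y ⬝ᵥ y).re := by
    simp only [dotProduct, mulVec_diagonal]
    rw [Finset.mul_sum, Complex.re_sum, Complex.re_sum, Finset.mul_sum]
    refine Finset.sum_congr rfl fun i _ => ?_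
    by_cases hi : (finProdFinEquiv.symm (S.orderEmbOfFin rfl i)).1 = ρ
    · have : y i = 0 := hx i (Finset.mem_filter.2 ⟨Finset.mem_univ _, hi⟩)
      simp [this]
    · have h1 := cr_re ρ (finProdFinEquiv.symm (S.orderEmbOfFin rfl i)).1
      rw [if_neg hi] at h1
      have h2 : conj (cr ρ) * (star y i * (pb k (S.orderEmbOfFin rfl i) * y i)) =
          (conj (cr ρ) * cr (finProdFinEquiv.symm (S.orderEmbOfFin rfl i)).1) *
            (star y i * y i) := by
        rw [pb]
        ring
      have h3 : (star y i * y i) = ((Complex.normSq (y i) : ℝ) : ℂ) := by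
        rw [Pi.star_apply, Complex.star_def, Complex.normSq_eq_conj_mul_self]
      rw [h2, h3, Complex.re_mul_ofReal, h1, Complex.ofReal_re]
  rw [e2, mul_zero, Complex.zero_re, e1] at e3
  have e4 : (star x ⬝ᵥ x).re = ∑ i, Complex.normSq (x i) := by
    rw [dotProduct, Complex.re_sum]
    refine Finset.sum_congr rfl fun i _ => ?_
    rw [Pi.star_apply, Complex.star_def, ← Complex.normSq_eq_conj_mul_self, Complex.ofReal_re]
  rw [e4] at e3
  apply hx0
  funext i
  have h5 : ∑ i, Complex.normSq (x i) = 0 := by linarith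
  have h6 := (Finset.sum_eq_zero_iff_of_nonneg fun i _ => Complex.normSq_nonneg (x i)).1 h5 i
    (Finset.mem_univ _)
  exact Complex.normSq_eq_zero.1 h6

end Pool.Agent.MCT
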