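import Mathlib
import Pool.Agent.MCT.StB

set_option autoImplicit false

/-!
MP_ca8ee9_an, `St_LowA`: lower bound in matrix form.  (helper81)
-/

namespace Pool.Agent.MCT

open Finset Filter Matrix
open scoped ComplexConjugate Topology ComplexOrder MatrixOrder

namespace LowAx

variable {ι : Type} [Fintype ι] {k : ℕ}

private theorem gr0 (V : Matrix ι (Fin k) ℂ) (i j : Fin k) :
    (Vᴴ * V) i j = ∑ l, conj (V l i) * V l j := by
  rw [Matrix.mul_apply]
  rfl

private theorem gr1 [DecidableEq ι] (b : ι → ℂ) (V : Matrix ι (Fin k) ℂ) (i j : Fin k) :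
    (Vᴴ * Matrix.diagonal b * V) i j = ∑ l, b l * (conj (V l i) * V l j) := by
  rw [Matrix.mul_apply]
  refine Finset.sum_congr rfl (fun l _ => ?_)
  rw [Matrix.mul_diagonal, Matrix.conjTranspose_apply]
  show star (V l i) * b l * V l j = _
  rw [Complex.star_def]
  ring

private theorem phi_zero (b : ι → ℂ) (V : Matrix ι (Fin k) ℂ) (i j : Fin k) :
    Phi (fun l => hom (b l)) (fun l i => conj (V l i)) 0 i j = ∑ l, conj (V l i) * V l j := by
  unfold Phi
  refine Finset.sum_congr rfl (fun l _ => ?_)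
  rw [Complex.conj_conj]
  simp [hom]

private theorem phi_one_two (b : ι → ℂ) (V : Matrix ι (Fin k) ℂ) (i j : Fin k) :
    Phi (fun l => hom (b l)) (fun l i => conj (V l i)) 1 i j +
      Complex.I * Phi (fun l => hom (b l)) (fun l i => conj (V l i)) 2 i j =
      ∑ l, b l * (conj (V l i) * V l j) := by
  unfold Phi
  rw [Finset.mul_sum, ← Finset.sum_add_distrib]
  refine Finset.sum_congr rfl (fun l _ => ?_)
  have e : b l = ((b l).re : ℂ) + ((b l).im : ℂ) * Complex.I := (Complex.re_add_im _).symm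
  rw [Complex.conj_conj]
  conv_rhs => rw [e]
  simp only [hom, Matrix.cons_val_one, Matrix.cons_val]
  ring

private theorem phi_herm (w : ι → Fin 3 → ℝ) (v : ι → Fin k → ℂ) (m : Fin 3) (i j : Fin k) :
    conj (Phi w v m j i) = Phi w v m i j := by
  unfold Phi
  rw [map_sum]
  refine Finset.sum_congr rfl (fun l _ => ?_)
  rw [map_mul, map_mul, Complex.conj_conj, Complex.conj_ofReal]
  ring

/-- the two Gram matrices determine `Phi` -/
private theorem phi_eq [DecidableEq ι] (b : ι → ℂ) (V W : Matrix ι (Fin k) ℂ)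
    (h0 : Vᴴ * V = Wᴴ * W)
    (h1 : Vᴴ * Matrix.diagonal b * V = Wᴴ * Matrix.diagonal b * W) :
    Phi (fun l => hom (b l)) (fun l i => conj (V l i)) =
      Phi (fun l => hom (b l)) (fun l i => conj (W l i)) := by
  set P := Phi (fun l => hom (b l)) (fun l i => conj (V l i)) with hP
  set Q := Phi (fun l => hom (b l)) (fun l i => conj (W l i)) with hQ
  have e0 : ∀ i j, P 0 i j = Q 0 i j := by
    intro i j
    rw [hP, hQ, phi_zero, phi_zero, ← gr0, ← gr0, h0]
  have e1 : ∀ i j, P 1 i j + Complex.I * P 2 i j = Q 1 i j + Complex.I * Q 2 i j := by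
    intro i j
    rw [hP, hQ, phi_one_two, phi_one_two, ← gr1, ← gr1, h1]
  have e2 : ∀ i j, P 1 i j - Complex.I * P 2 i j = Q 1 i j - Complex.I * Q 2 i j := by
    intro i j
    have h := congrArg conj (e1 j i)
    simp only [map_add, map_mul, Complex.conj_I] at h
    rw [hP, hQ, phi_herm, phi_herm, phi_herm, phi_herm, ← hP, ← hQ] at h
    linear_combination h
  have e3 : ∀ i j, P 1 i j = Q 1 i j := fun i j => by linear_combination (e1 i j + e2 i j) / 2
  have e4 : ∀ i j, P 2 i j = Q 2 i j := fun i j => by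
    have hI : Complex.I * Complex.I = -1 := Complex.I_mul_I
    have h := e1 i j
    rw [e3 i j] at h
    linear_combination (-Complex.I) * h + (P 2 i j - Q 2 i j) * hI
  funext m i j
  fin_cases m
  · exact e0 i j
  · exact e3 i j
  · exact e4 i j

private theorem card_idx (k : ℕ) : Fintype.card (Idx k) = k * (k + 3) / 2 := by
  have h1 : Fintype.card (Idx k) = ∑ i : Fin k, (k + 1 - (i : ℕ)) := by
    rw [Fintype.card_sigma]
    simp
  have h2 : ∑ i : Fin k, (k + 1 - (i : ℕ)) = ∑ j ∈ range k, (j + 2) := by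
    rw [Finset.sum_range (fun j => j + 2), ← Equiv.sum_comp Fin.revPerm]
    refine Finset.sum_congr rfl fun i _ => ?_
    rw [Fin.revPerm_apply, Fin.val_rev]
    have := i.2
    omega
  have h3 : ∀ k : ℕ, (∑ j ∈ range k, (j + 2)) * 2 = k * (k + 3) := by
    intro k
    induction k with
    | zero => simp
    | succ k ih =>
      rw [Finset.sum_range_succ, add_mul, ih]
      ring
  rw [h1, h2, ← h3 k, Nat.mul_div_cancel _ (by norm_num)]

private theorem num1 {k d : ℕ} (hk : 1 ≤ k) (hd : d < k) :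
    (d + 1) * (d + 2) / 2 < k * (k + 3) / 2 := by
  have h1 : (d + 1) * (d + 2) ≤ k * (k + 1) := Nat.mul_le_mul (by omega) (by omega)
  have h2 : (d + 1) * (d + 2) / 2 ≤ k * (k + 1) / 2 := Nat.div_le_div_right h1
  have h3 : k * (k + 3) = k * (k + 1) + k * 2 := by ring
  rw [h3, Nat.add_mul_div_right _ _ (by norm_num)]
  omega

/-- rigid families span -/
private theorem spans (h2 : St_Sub) (h3 : St_Main) {k n : ℕ} (hk : 1 ≤ k) (hn : n = k * (k + 3) / 2)
    (b : Fin n → ℂ) (u : Fin n → Fin k → ℂ)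
    (hr : ∀ v : Fin n → Fin k → ℂ,
      Phi (fun l => hom (b l)) v = Phi (fun l => hom (b l)) u → ∀ l, v l ≠ 0) :
    Submodule.span ℂ (Set.range u) = ⊤ := by
  by_contra hne
  set Z := Submodule.span ℂ (Set.range u) with hZ
  have hd : Module.finrank ℂ Z < k := by
    have h := Submodule.finrank_lt hne
    rwa [Module.finrank_fin_fun] at h
  obtain ⟨v', l₀, h0, hP⟩ := h2 (Fin n) k (Module.finrank ℂ Z) (fun l => hom (b l)) u ∅ Z rfl
    (fun l _ => Submodule.subset_span ⟨l, rfl⟩)
    (fun u' => h3 (Module.finrank ℂ Z) {l : Fin n // l ∉ (∅ : Finset (Fin n))}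
      (fun l => b l.1) u' (by
        have hc : Fintype.card {l : Fin n // l ∉ (∅ : Finset (Fin n))} = n := by simp
        rw [hc, hn]
        exact num1 hk hd))
  exact hr v' hP l₀ h0

end LowAx

open LowAx in
theorem thm_LowA (h1 : St_Rigid) (h2 : St_Sub) (h3 : St_Main) : St_LowA := by
  intro k hk
  obtain ⟨b₀, u₀, hr₀⟩ := h1 k hk
  obtain ⟨n, hn⟩ : ∃ n, n = k * (k + 3) / 2 := ⟨_, rfl⟩
  rw [← hn]
  have e : Fin n ≃ Idx k := (Fintype.equivFinOfCardEq ((card_idx k).trans hn.symm)).symm
  set b : Fin n → ℂ := fun l => b₀ (e l) with hb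
  set u : Fin n → Fin k → ℂ := fun l => u₀ (e l) with hu
  have hr : ∀ v : Fin n → Fin k → ℂ,
      Phi (fun l => hom (b l)) v = Phi (fun l => hom (b l)) u → ∀ l, v l ≠ 0 := by
    intro v hv l
    have hA : Phi (fun l => hom (b₀ l)) (fun l => v (e.symm l)) = Phi (fun l => hom (b l)) v := by
      funext m i j
      unfold Phi
      rw [← Equiv.sum_comp e]
      simp only [Equiv.symm_apply_apply, hb]
    have hB : Phi (fun l => hom (b₀ l)) u₀ = Phi (fun l => hom (b l)) u := by
      funext m i j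
      unfold Phi
      rw [← Equiv.sum_comp e]
    have h := hr₀ (fun l => v (e.symm l)) (by rw [hA, hB, hv]) (e l)
    rwa [Equiv.symm_apply_apply] at h
  have hs := spans h2 h3 hk hn b u hr
  -- the matrix
  set U : Matrix (Fin n) (Fin k) ℂ := Matrix.of fun l i => conj (u l i) with hU
  have huU : u = fun l i => conj (U l i) := by
    funext l i
    simp [hU]
  obtain ⟨B, hB⟩ := CStarAlgebra.nonneg_iff_eq_star_mul_self.mp
    (Matrix.posSemidef_conjTranspose_mul_self U).nonneg
  rw [star_eq_conjTranspose] at hB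
  have hdet : B.det ≠ 0 := by
    intro h0
    obtain ⟨x, hx, hx0⟩ := Matrix.exists_mulVec_eq_zero_iff.2 h0
    have hx1 : (Uᴴ * U) *ᵥ x = 0 := by
      rw [hB, ← Matrix.mulVec_mulVec, hx0, Matrix.mulVec_zero]
    rw [Matrix.conjTranspose_mul_self_mulVec_eq_zero] at hx1
    -- `x` is orthogonal to all `u l`
    have hx2 : ∀ w ∈ Submodule.span ℂ (Set.range u), ∑ i, w i * conj (x i) = 0 := by
      intro w hw
      induction hw using Submodule.span_induction with
      | mem w hw =>
        obtain ⟨l, rfl⟩ := hw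
        have h := congrArg conj (congrFun hx1 l)
        rw [Matrix.mulVec, dotProduct, map_sum] at h
        simp only [map_mul, Pi.zero_apply, map_zero] at h
        rw [← h]
        refine Finset.sum_congr rfl fun i _ => ?_
        simp [hU]
      | zero => simp
      | add a c _ _ ha hc => simp only [Pi.add_apply, add_mul, Finset.sum_add_distrib, ha, hc, add_zero]
      | smul t a _ ha =>
        simp only [Pi.smul_apply, smul_eq_mul, mul_assoc, ← Finset.mul_sum, ha, mul_zero]
    have hx3 : ∑ i, x i * conj (x i) = 0 := hx2 x (by rw [hs]; trivial)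
    have hx4 : ∑ i, Complex.normSq (x i) = 0 := by
      have : ((∑ i, Complex.normSq (x i) : ℝ) : ℂ) = 0 := by
        rw [← hx3, Complex.ofReal_sum]
        exact Finset.sum_congr rfl fun i _ => (Complex.mul_conj _).symm
      exact_mod_cast this
    refine hx (funext fun i => ?_)
    have h5 := (Finset.sum_eq_zero_iff_of_nonneg fun i _ => Complex.normSq_nonneg (x i)).1 hx4 i
      (Finset.mem_univ i)
    exact Complex.normSq_eq_zero.1 h5
  have hunit : IsUnit B.det := isUnit_iff_ne_zero.2 hdet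
  have hBB : B * B⁻¹ = 1 := Matrix.mul_nonsing_inv B hunit
  have hBB' : B⁻¹ * B = 1 := Matrix.nonsing_inv_mul B hunit
  refine ⟨b, U * B⁻¹, ?_, ?_⟩
  · rw [Matrix.conjTranspose_mul]
    calc B⁻¹ᴴ * Uᴴ * (U * B⁻¹) = B⁻¹ᴴ * (Uᴴ * U) * B⁻¹ := by simp only [Matrix.mul_assoc]
      _ = (B * B⁻¹)ᴴ * (B * B⁻¹) := by
        rw [hB, Matrix.conjTranspose_mul]
        simp only [Matrix.mul_assoc]
      _ = 1 := by rw [hBB]; simp
  · intro V' hV' hD l hl
    have g0 : (V' * B)ᴴ * (V' * B) = Uᴴ * U := by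
      calc (V' * B)ᴴ * (V' * B) = Bᴴ * (V'ᴴ * V') * B := by
            rw [Matrix.conjTranspose_mul]
            simp only [Matrix.mul_assoc]
        _ = Uᴴ * U := by rw [hV', Matrix.mul_one, hB]
    have g1 : (V' * B)ᴴ * Matrix.diagonal b * (V' * B) = Uᴴ * Matrix.diagonal b * U := by
      calc (V' * B)ᴴ * Matrix.diagonal b * (V' * B) =
            Bᴴ * (V'ᴴ * Matrix.diagonal b * V') * B := by
            rw [Matrix.conjTranspose_mul]
            simp only [Matrix.mul_assoc]
        _ = Bᴴ * ((U * B⁻¹)ᴴ * Matrix.diagonal b * (U * B⁻¹)) * B := by rw [hD]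
        _ = (U * (B⁻¹ * B))ᴴ * Matrix.diagonal b * (U * (B⁻¹ * B)) := by
            simp only [Matrix.conjTranspose_mul, Matrix.mul_assoc]
        _ = Uᴴ * Matrix.diagonal b * U := by rw [hBB', Matrix.mul_one]
    have g2 := phi_eq b (V' * B) U g0 g1
    rw [← huU] at g2
    refine hr _ g2 l ?_
    funext i
    have g3 : (V' * B) l i = 0 := by
      rw [Matrix.mul_apply]
      refine Finset.sum_eq_zero fun j _ => ?_
      rw [show V' l j = 0 from congrFun hl j, zero_mul]
    simp only [g3, map_zero, Pi.zero_apply]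

end Pool.Agent.MCT
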