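import Mathlib
import Pool.Agent.MCT.StA

set_option autoImplicit false

namespace Pool.Agent.MCT

open Finset Filter
open scoped ComplexConjugate Topology

namespace Mainx

theorem continuous_hom : Continuous hom := by
  rw [continuous_pi_iff]
  intro m
  fin_cases m
  · simpa [hom] using continuous_const
  · simpa [hom] using Complex.continuous_re
  · simpa [hom] using Complex.continuous_im

end Mainx

open Mainx

theorem thm_Main (h1 : St_Dense) (h2 : St_Ind) (h3 : St_Closed) : St_Main := by
  intro k ι _ _ b v hcard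
  obtain ⟨bs, hgen, hlim⟩ := h1 ι b
  have hws : Tendsto (fun j l => hom (bs j l)) atTop (𝓝 (fun l => hom (b l))) := by
    rw [tendsto_pi_nhds]
    intro l
    exact (continuous_hom.tendsto (b l)).comp ((tendsto_pi_nhds.1 hlim) l)
  refine h3 ι k (fun l => hom (b l)) v (fun j l => hom (bs j l)) (fun _ => v)
    (fun j l => by simp [hom]) hws ?_ (fun j => h2 k ι (bs j) v (hgen j) hcard)
  rw [tendsto_pi_nhds]
  intro m
  rw [tendsto_pi_nhds]
  intro i
  rw [tendsto_pi_nhds]
  intro i'
  unfold Phi
  refine tendsto_finset_sum _ (fun l _ => ?_)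
  have h4 : Tendsto (fun j => ((hom (bs j l) m : ℝ) : ℂ)) atTop (𝓝 ((hom (b l) m : ℝ) : ℂ)) :=
    (Complex.continuous_ofReal.tendsto _).comp
      ((tendsto_pi_nhds.1 ((tendsto_pi_nhds.1 hws) l)) m)
  exact (h4.mul tendsto_const_nhds).mul tendsto_const_nhds

end Pool.Agent.MCT
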