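import Mathlib
import Pool.Agent.MCT.StA

set_option autoImplicit false

namespace Pool.Agent.MCT

open Finset Filter
open scoped ComplexConjugate Topology

namespace Minx

variable {ι : Type} [Fintype ι] {k : ℕ}

theorem phi_diag (w : ι → Fin 3 → ℝ) (hw : ∀ l, w l 0 = 1) (u : ι → Fin k → ℂ) (i : Fin k) :
    Phi w u 0 i i = ((∑ l, Complex.normSq (u l i) : ℝ) : ℂ) := by
  unfold Phi
  push_cast
  refine Finset.sum_congr rfl (fun l _ => ?_)
  rw [hw l, Complex.normSq_eq_conj_mul_self]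
  push_cast
  ring

theorem continuous_phi (w : ι → Fin 3 → ℝ) (m : Fin 3) (i j : Fin k) :
    Continuous (fun u : ι → Fin k → ℂ => Phi w u m i j) := by
  unfold Phi
  refine continuous_finset_sum _ (fun l _ => ?_)
  have h1 : Continuous (fun u : ι → Fin k → ℂ => u l i) :=
    (continuous_apply i).comp (continuous_apply l)
  have h2 : Continuous (fun u : ι → Fin k → ℂ => u l j) :=
    (continuous_apply j).comp (continuous_apply l)
  exact (continuous_const.mul h1).mul (Complex.continuous_conj.comp h2)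

theorem continuous_ff (w : ι → Fin 3 → ℝ) (T : Fin 3 → Fin k → Fin k → ℂ) (l₁ : ι) (K : ℝ) :
    Continuous (FF w T l₁ K) := by
  unfold FF
  refine Continuous.add ?_ (continuous_const.mul ?_)
  · refine continuous_finset_sum _ (fun i _ => ?_)
    exact Complex.continuous_normSq.comp ((continuous_apply i).comp (continuous_apply l₁))
  · refine continuous_finset_sum _ (fun m _ => continuous_finset_sum _ (fun i _ =>
      continuous_finset_sum _ (fun j _ => ?_)))
    exact Complex.continuous_normSq.comp ((continuous_phi w m i j).sub continuous_const)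

theorem ff_ge (w : ι → Fin 3 → ℝ) (hw : ∀ l, w l 0 = 1) (T : Fin 3 → Fin k → Fin k → ℂ) (l₁ : ι)
    (K : ℝ) (hK : 0 < K) (u : ι → Fin k → ℂ) (l : ι) (i : Fin k) :
    K * Complex.normSq (Phi w u 0 i i - T 0 i i) ≤ FF w T l₁ K u := by
  unfold FF
  have h1 : 0 ≤ ∑ i, Complex.normSq (u l₁ i) :=
    Finset.sum_nonneg (fun i _ => Complex.normSq_nonneg _)
  have h2 : Complex.normSq (Phi w u 0 i i - T 0 i i) ≤
      ∑ m, ∑ i, ∑ j, Complex.normSq (Phi w u m i j - T m i j) := by
    calc Complex.normSq (Phi w u 0 i i - T 0 i i)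
        ≤ ∑ j, Complex.normSq (Phi w u 0 i j - T 0 i j) :=
          Finset.single_le_sum (f := fun j => Complex.normSq (Phi w u 0 i j - T 0 i j))
            (fun j _ => Complex.normSq_nonneg _) (Finset.mem_univ i)
      _ ≤ ∑ i, ∑ j, Complex.normSq (Phi w u 0 i j - T 0 i j) :=
          Finset.single_le_sum (f := fun i => ∑ j, Complex.normSq (Phi w u 0 i j - T 0 i j))
            (fun i _ => Finset.sum_nonneg (fun j _ => Complex.normSq_nonneg _)) (Finset.mem_univ i)
      _ ≤ _ :=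
          Finset.single_le_sum (f := fun m => ∑ i, ∑ j, Complex.normSq (Phi w u m i j - T m i j))
            (fun m _ => Finset.sum_nonneg (fun i _ => Finset.sum_nonneg
              (fun j _ => Complex.normSq_nonneg _))) (Finset.mem_univ 0)
  nlinarith [mul_le_mul_of_nonneg_left h2 hK.le]

theorem bound (w : ι → Fin 3 → ℝ) (hw : ∀ l, w l 0 = 1) (T : Fin 3 → Fin k → Fin k → ℂ) (l₁ : ι)
    (K : ℝ) (hK : 0 < K) (u : ι → Fin k → ℂ) (C : ℝ) (hC : FF w T l₁ K u ≤ C) (l : ι) (i : Fin k) :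
    ‖u l i‖ ^ 2 ≤ Real.sqrt (C / K) + ‖T 0 i i‖ := by
  have h1 := (ff_ge w hw T l₁ K hK u l i).trans hC
  have h2 : Complex.normSq (Phi w u 0 i i - T 0 i i) ≤ C / K := by
    rw [le_div_iff₀ hK]; linarith
  have h3 : ‖Phi w u 0 i i - T 0 i i‖ ≤ Real.sqrt (C / K) := by
    apply Real.le_sqrt_of_sq_le
    rw [← Complex.normSq_eq_norm_sq]
    exact h2
  have h4 : ‖Phi w u 0 i i‖ ≤ Real.sqrt (C / K) + ‖T 0 i i‖ := by
    calc ‖Phi w u 0 i i‖ = ‖(Phi w u 0 i i - T 0 i i) + T 0 i i‖ := by ring_nf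
      _ ≤ ‖Phi w u 0 i i - T 0 i i‖ + ‖T 0 i i‖ := norm_add_le _ _
      _ ≤ _ := by linarith
  have h5 : ‖u l i‖ ^ 2 ≤ ‖Phi w u 0 i i‖ := by
    rw [phi_diag w hw u i, Complex.norm_real, Real.norm_of_nonneg
      (Finset.sum_nonneg (fun l _ => Complex.normSq_nonneg _)), ← Complex.normSq_eq_norm_sq]
    exact Finset.single_le_sum (f := fun l => Complex.normSq (u l i))
      (fun l _ => Complex.normSq_nonneg _) (Finset.mem_univ l)
  linarith

end Minx

open Minx

theorem thm_Min : St_Min := by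
  intro ι _ k w T l₁ K hw hK
  set C := FF w T l₁ K 0 with hCdef
  set S : Set (ι → Fin k → ℂ) := {u | FF w T l₁ K u ≤ C} with hS
  have hclosed : IsClosed S := isClosed_le (continuous_ff w T l₁ K) continuous_const
  have hbdd : Bornology.IsBounded S := by
    rw [Metric.isBounded_iff_subset_closedBall 0]
    refine ⟨∑ i : Fin k, (Real.sqrt (C / K) + ‖T 0 i i‖) + 1, fun u hu => ?_⟩
    have hnn : ∀ i : Fin k, 0 ≤ Real.sqrt (C / K) + ‖T 0 i i‖ := fun i => by positivity
    have hR : 0 ≤ ∑ i : Fin k, (Real.sqrt (C / K) + ‖T 0 i i‖) + 1 := by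
      have := Finset.sum_nonneg (s := (Finset.univ : Finset (Fin k))) (fun i _ => hnn i)
      linarith
    rw [mem_closedBall_zero_iff, pi_norm_le_iff_of_nonneg hR]
    intro l
    rw [pi_norm_le_iff_of_nonneg hR]
    intro i
    have h1 := bound w hw T l₁ K hK u C hu l i
    have h2 : Real.sqrt (C / K) + ‖T 0 i i‖ ≤ ∑ i : Fin k, (Real.sqrt (C / K) + ‖T 0 i i‖) :=
      Finset.single_le_sum (f := fun i : Fin k => Real.sqrt (C / K) + ‖T 0 i i‖)
        (fun i _ => hnn i) (Finset.mem_univ i)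
    by_contra hcon
    push Not at hcon
    have h3 : 1 ≤ ∑ i : Fin k, (Real.sqrt (C / K) + ‖T 0 i i‖) + 1 := by linarith [hnn i]
    nlinarith [norm_nonneg (u l i)]
  have hcomp : IsCompact S := Metric.isCompact_of_isClosed_isBounded hclosed hbdd
  have hne : S.Nonempty := ⟨0, by rw [hS, Set.mem_ofPred_eq]⟩
  obtain ⟨v', hv', hmin⟩ := hcomp.exists_isMinOn hne (continuous_ff w T l₁ K).continuousOn
  refine ⟨v', fun u => ?_⟩
  by_cases hu : FF w T l₁ K u ≤ C
  · exact hmin hu
  · push Not at hu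
    have : FF w T l₁ K v' ≤ C := hv'
    linarith

end Pool.Agent.MCT
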