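import Mathlib
import Pool.Agent.MCT.StB

/-!
MP_ca8ee9_an, part B: points on the curve by the intermediate value theorem.
-/

set_option autoImplicit false

namespace Pool.Agent.MCT

open Finset Filter
open scoped ComplexConjugate Topology

private lemma Pts_one (h1 : St_LamB) (k : ℕ) (hk : 1 ≤ k) (l : Idx k) {ε : ℝ} (he : 0 < ε)
    (he4 : 4 * k * ε ≤ 1) :
    ∃ s : ℝ, (0 < s ∧ s ≤ 2 * ε) ∧ ∑ j : Fin k, ε / lam j (xx l) (yy l s) = 1 := by
  have hL : ∀ j : Fin k, ∀ s, lam j (xx l) (yy l s) = lam j (xx l) (yy l 0) + s :=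
    fun j s => (h1 k l j s).1
  have h0 : lam l.1 (xx l) (yy l 0) = 0 := (h1 k l l.1 0).2.1 rfl
  have hne : ∀ j : Fin k, j ≠ l.1 → 1 / 2 ≤ lam j (xx l) (yy l 0) := fun j hj => (h1 k l j 0).2.2 hj
  have hnn : ∀ j : Fin k, 0 ≤ lam j (xx l) (yy l 0) := by
    intro j
    by_cases hj : j = l.1
    · rw [hj, h0]
    · linarith [hne j hj]
  have hcont : ContinuousOn (fun s : ℝ => ∑ j : Fin k, ε / lam j (xx l) (yy l s))
      (Set.Icc ε (2 * ε)) := by
    refine continuousOn_finsetSum _ fun j _ => ?_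
    refine ContinuousOn.div continuousOn_const ?_ ?_
    · have : (fun s : ℝ => lam j (xx l) (yy l s)) = fun s => lam j (xx l) (yy l 0) + s := by
        funext s; exact hL j s
      rw [this]
      fun_prop
    · intro s hs
      rw [hL j s]
      have h5 := hnn j
      have h6 := hs.1
      exact (by linarith : (0 : ℝ) < lam j (xx l) (yy l 0) + s).ne'
  have hup : 1 ≤ ∑ j : Fin k, ε / lam j (xx l) (yy l ε) := by
    have h2 : ε / lam l.1 (xx l) (yy l ε) = 1 := by
      rw [hL, h0, zero_add, div_self he.ne']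
    rw [← h2]
    refine Finset.single_le_sum (f := fun j : Fin k => ε / lam j (xx l) (yy l ε)) (fun j _ => ?_)
      (Finset.mem_univ l.1)
    have := hnn j
    change 0 ≤ ε / lam j (xx l) (yy l ε)
    rw [hL j ε]
    positivity
  have hlo : ∑ j : Fin k, ε / lam j (xx l) (yy l (2 * ε)) ≤ 1 := by
    rw [← Finset.add_sum_erase _ _ (Finset.mem_univ l.1)]
    have h2 : ε / lam l.1 (xx l) (yy l (2 * ε)) = 1 / 2 := by
      rw [hL, h0, zero_add]
      field_simp
    have h3 : ∑ j ∈ univ.erase l.1, ε / lam j (xx l) (yy l (2 * ε)) ≤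
        ∑ j ∈ univ.erase l.1, 2 * ε := by
      refine Finset.sum_le_sum fun j hj => ?_
      have h4 := hne j (Finset.ne_of_mem_erase hj)
      rw [hL j (2 * ε), div_le_iff₀ (by linarith)]
      nlinarith
    have h5 : ∑ j ∈ univ.erase l.1, 2 * ε ≤ k * (2 * ε) := by
      rw [Finset.sum_const, nsmul_eq_mul]
      have h6 : ((univ.erase l.1).card : ℝ) ≤ k := by
        have : (univ.erase l.1).card ≤ k := by
          refine (Finset.card_le_univ _).trans ?_
          simp
        exact_mod_cast this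
      have : (0 : ℝ) ≤ 2 * ε := by linarith
      exact mul_le_mul_of_nonneg_right h6 this
    rw [h2]
    linarith
  obtain ⟨s, hs, hs1⟩ := intermediate_value_Icc' (by linarith : ε ≤ 2 * ε) hcont ⟨hlo, hup⟩
  exact ⟨s, ⟨he.trans_le hs.1, hs.2⟩, hs1⟩

theorem thm_Pts (h1 : St_LamB) : St_Pts := by
  intro k hk δ hδ
  have hk0 : (0 : ℝ) < k := by exact_mod_cast hk
  have he : 0 < min (δ / 2) (1 / (4 * (k : ℝ))) := lt_min (by linarith) (by positivity)
  have he4 : 4 * k * min (δ / 2) (1 / (4 * (k : ℝ))) ≤ 1 := by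
    have h2 := min_le_right (δ / 2) (1 / (4 * (k : ℝ)))
    calc 4 * k * min (δ / 2) (1 / (4 * (k : ℝ))) ≤ 4 * k * (1 / (4 * (k : ℝ))) := by gcongr
      _ = 1 := by field_simp
  refine ⟨min (δ / 2) (1 / (4 * (k : ℝ))), he, ?_, ?_⟩
  · exact (min_le_left _ _).trans_lt (by linarith)
  · choose s hs hs1 using fun l : Idx k => Pts_one h1 k hk l he he4
    exact ⟨s, hs, hs1⟩

end Pool.Agent.MCT
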