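import Mathlib
import Pool.Agent.MCT.StB

set_option autoImplicit false

namespace Pool.Agent.MCT

open Finset
open scoped ComplexConjugate

/-- completing the square -/
private theorem rigid_square {k : ℕ} (ε : ℝ) (L : Fin k → ℝ) (hL : ∀ j, 0 < L j)
    (hs : ∑ j, ε / L j = 1) (h : Fin k → ℂ) :
    ∑ j, L j * Complex.normSq (h j - ε * (∑ i, h i) / L j) =
      ∑ j, L j * Complex.normSq (h j) - ε * Complex.normSq (∑ j, h j) := by
  set σ : ℂ := ∑ i, h i with hσ
  have h1 : ∀ j, L j * Complex.normSq (h j - ε * σ / L j) =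
      L j * Complex.normSq (h j) - 2 * ε * (h j * conj σ).re + (ε / L j) * (ε * Complex.normSq σ) := by
    intro j
    have h2 : ((ε : ℂ) * σ / (L j : ℂ)) = ((ε / L j : ℝ) : ℂ) * σ := by
      push_cast
      ring
    have h0 : L j ≠ 0 := (hL j).ne'
    rw [h2, Complex.normSq_sub, Complex.normSq_mul, Complex.normSq_ofReal, map_mul,
      Complex.conj_ofReal]
    have h3 : (h j * (((ε / L j : ℝ) : ℂ) * conj σ)).re = (ε / L j) * (h j * conj σ).re := by
      rw [← mul_assoc, mul_comm (h j), mul_assoc, Complex.re_ofReal_mul]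
    rw [h3]
    field_simp
    ring
  rw [sum_congr rfl fun j _ => h1 j, sum_add_distrib, sum_sub_distrib, ← sum_mul, hs, one_mul,
    ← mul_sum, ← Complex.re_sum, ← sum_mul, ← hσ, Complex.mul_conj]
  rw [Complex.ofReal_re]
  ring

private theorem rigid_G {k : ℕ} {ι : Type} [Fintype ι] (ε : ℝ) (x y : ι → ℝ)
    (v : ι → Fin k → ℂ) (w : ι → Fin 3 → ℝ) (hw : ∀ l, w l = ![1, x l, y l]) :
    ((∑ l, (∑ j : Fin k, lam j (x l) (y l) * Complex.normSq (v l j) -
      ε * Complex.normSq (∑ j, v l j)) : ℝ) : ℂ) =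
    ∑ j : Fin k, ((((j : ℕ) : ℝ) ^ 2 : ℝ) * Phi w v 0 j j - ((2 * ((j : ℕ) : ℝ) : ℝ) : ℂ) *
      Phi w v 1 j j + Phi w v 2 j j) - ε * ∑ i, ∑ j, Phi w v 0 i j := by
  have h1 : ∀ l, ((Complex.normSq (∑ j, v l j) : ℝ) : ℂ) = ∑ i, ∑ j, v l i * conj (v l j) := by
    intro l
    rw [← Complex.mul_conj, map_sum, sum_mul_sum]
  have h2 : ∀ l, ∀ j : Fin k, ((lam j (x l) (y l) * Complex.normSq (v l j) : ℝ) : ℂ) =
      ((((j : ℕ) : ℝ) ^ 2 : ℝ) : ℂ) * ((w l 0 : ℂ) * v l j * conj (v l j)) -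
      ((2 * ((j : ℕ) : ℝ) : ℝ) : ℂ) * ((w l 1 : ℂ) * v l j * conj (v l j)) +
      ((w l 2 : ℂ) * v l j * conj (v l j)) := by
    intro l j
    rw [Complex.ofReal_mul, ← Complex.mul_conj, hw]
    unfold lam
    simp
    ring
  push_cast
  rw [sum_sub_distrib]
  congr 1
  · rw [sum_comm]
    refine sum_congr rfl fun j _ => ?_
    unfold Phi
    rw [mul_sum, mul_sum, ← sum_sub_distrib, ← sum_add_distrib]
    refine sum_congr rfl fun l _ => ?_
    have := h2 l j
    push_cast at this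
    rw [this]
  · rw [← mul_sum]
    congr 1
    unfold Phi
    have h3 : ∀ l, ((Complex.normSq (∑ j, v l j) : ℝ) : ℂ) =
        ∑ i, ∑ j, (w l 0 : ℂ) * v l i * conj (v l j) := by
      intro l
      rw [h1, hw]
      simp
    rw [sum_congr rfl fun l _ => h3 l, sum_comm]
    refine sum_congr rfl fun i _ => ?_
    rw [sum_comm]

theorem thm_Rigid (h1 : St_Indep) : St_Rigid := by
  intro k hk
  obtain ⟨ε, x, y, hε, hpos, hsum, hind⟩ := h1 k hk
  let b : Idx k → ℂ := fun l => ⟨x l, y l⟩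
  let u : Idx k → Fin k → ℂ := fun l j => ((1 / lam j (x l) (y l) : ℝ) : ℂ)
  refine ⟨b, u, ?_⟩
  intro v hv l0
  have hw : ∀ l, hom (b l) = ![1, x l, y l] := fun l => rfl
  have hne : ∀ l, ∀ j : Fin k, lam j (x l) (y l) ≠ 0 := fun l j => (hpos l j).ne'
  -- the sum of the squares vanishes
  have hG : (∑ l, (∑ j : Fin k, lam j (x l) (y l) * Complex.normSq (v l j) -
      ε * Complex.normSq (∑ j, v l j)) : ℝ) =
      ∑ l, (∑ j : Fin k, lam j (x l) (y l) * Complex.normSq (u l j) -
      ε * Complex.normSq (∑ j, u l j)) := by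
    have h2 := rigid_G ε x y v (fun l => hom (b l)) hw
    have h3 := rigid_G ε x y u (fun l => hom (b l)) hw
    rw [hv, ← h3] at h2
    exact_mod_cast h2
  have hgu : ∀ l, (∑ j : Fin k, lam j (x l) (y l) * Complex.normSq (u l j) -
      ε * Complex.normSq (∑ j, u l j)) = 0 := by
    intro l
    have hS : ε * ∑ j : Fin k, 1 / lam j (x l) (y l) = 1 := by
      rw [mul_sum]
      exact (sum_congr rfl fun j _ => by ring).trans (hsum l)
    have h2 : ∑ j : Fin k, lam j (x l) (y l) * Complex.normSq (u l j) =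
        ∑ j : Fin k, 1 / lam j (x l) (y l) := by
      refine sum_congr rfl fun j _ => ?_
      have h3 := hne l j
      simp only [u]
      rw [Complex.normSq_ofReal]
      field_simp
    have h3 : ∑ j, u l j = ((∑ j : Fin k, 1 / lam j (x l) (y l) : ℝ) : ℂ) := by
      push_cast
      exact sum_congr rfl fun j _ => by simp only [u]; push_cast; rfl
    rw [h2, h3, Complex.normSq_ofReal]
    have h4 : (∑ j : Fin k, 1 / lam j (x l) (y l)) - ε * ((∑ j : Fin k, 1 / lam j (x l) (y l)) *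
        (∑ j : Fin k, 1 / lam j (x l) (y l))) = (∑ j : Fin k, 1 / lam j (x l) (y l)) *
        (1 - ε * ∑ j : Fin k, 1 / lam j (x l) (y l)) := by ring
    rw [h4, hS]
    ring
  let z : Idx k → ℂ := fun l => ε * ∑ j, v l j
  have hsq : ∀ l, ∑ j : Fin k, lam j (x l) (y l) *
      Complex.normSq (v l j - z l / (lam j (x l) (y l) : ℝ)) =
      ∑ j : Fin k, lam j (x l) (y l) * Complex.normSq (v l j) -
      ε * Complex.normSq (∑ j, v l j) :=
    fun l => rigid_square ε (fun j : Fin k => lam j (x l) (y l)) (hpos l) (hsum l) (v l)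
  have hzero : ∑ l, ∑ j : Fin k, lam j (x l) (y l) *
      Complex.normSq (v l j - z l / (lam j (x l) (y l) : ℝ)) = 0 := by
    rw [sum_congr rfl fun l _ => hsq l, hG, sum_congr rfl fun l _ => hgu l, sum_const_zero]
  have hv' : ∀ l, ∀ j : Fin k, v l j = z l / (lam j (x l) (y l) : ℝ) := by
    intro l j
    have hnn : ∀ l, ∀ j : Fin k, 0 ≤ lam j (x l) (y l) *
        Complex.normSq (v l j - z l / (lam j (x l) (y l) : ℝ)) :=
      fun l j => mul_nonneg (hpos l j).le (Complex.normSq_nonneg _)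
    have h2 := (sum_eq_zero_iff_of_nonneg (fun l _ => sum_nonneg fun j _ => hnn l j)).1 hzero l
      (mem_univ l)
    have h3 := (sum_eq_zero_iff_of_nonneg (fun j _ => hnn l j)).1 h2 j (mem_univ j)
    have h4 := (mul_eq_zero.1 h3).resolve_left (hne l j)
    exact sub_eq_zero.1 (Complex.normSq_eq_zero.1 h4)
  have hr := hind (fun l => Complex.normSq (z l) - 1) (by
    intro a c m
    have h2 := congrFun (congrFun (congrFun hv m) a) c
    unfold Phi at h2
    have h3 : ∀ l, ((hom (b l) m : ℝ) : ℂ) * v l a * conj (v l c) =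
        ((Complex.normSq (z l) * (1 / lam a (x l) (y l)) * (1 / lam c (x l) (y l)) *
          (![1, x l, y l] : Fin 3 → ℝ) m : ℝ) : ℂ) := by
      intro l
      rw [hv' l a, hv' l c, map_div₀, Complex.conj_ofReal, hw]
      push_cast
      rw [← Complex.mul_conj]
      ring
    have h4 : ∀ l, ((hom (b l) m : ℝ) : ℂ) * u l a * conj (u l c) =
        (((1 / lam a (x l) (y l)) * (1 / lam c (x l) (y l)) *
          (![1, x l, y l] : Fin 3 → ℝ) m : ℝ) : ℂ) := by
      intro l
      simp only [u]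
      rw [Complex.conj_ofReal, hw]
      push_cast
      ring
    rw [sum_congr rfl fun l _ => h3 l, sum_congr rfl fun l _ => h4 l, ← Complex.ofReal_sum,
      ← Complex.ofReal_sum] at h2
    have h5 := Complex.ofReal_injective h2
    rw [← sub_eq_zero, ← sum_sub_distrib] at h5
    rw [← h5]
    exact sum_congr rfl fun l _ => by ring)
  intro hv0
  have h2 := congrFun hr l0
  simp only [Pi.zero_apply] at h2
  have h3 : z l0 = 0 := by
    simp only [z]
    rw [hv0]
    simp
  rw [h3] at h2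
  simp at h2

end Pool.Agent.MCT
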