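import Mathlib
import Pool.Agent.MCT.StA
import Pool.Agent.MCT.First

set_option autoImplicit false

namespace Pool.Agent.MCT

open Finset Filter Firstx
open scoped ComplexConjugate Topology

namespace Secondx

/-- from a nonnegative even-ish polynomial -/
theorem poly_two {A₁ A₂ A₄ : ℝ} (h : ∀ s : ℝ, 0 ≤ s * A₁ + s ^ 2 * A₂ + s ^ 4 * A₄) :
    A₁ = 0 ∧ 0 ≤ A₂ := by
  have h1 : A₁ = 0 := by
    apply poly_lin (A₂ := A₂) (A₃ := 0) (A₄ := A₄)
    intro s
    have := h s
    linarith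
  refine ⟨h1, ?_⟩
  subst h1
  by_contra hneg
  push Not at hneg
  -- for small s the value is negative
  have h2 : ∀ s : ℝ, s ≠ 0 → 0 ≤ A₂ + s ^ 2 * A₄ := by
    intro s hs
    have h3 := h s
    have hs2 : 0 < s ^ 2 := by positivity
    have : 0 ≤ s ^ 2 * (A₂ + s ^ 2 * A₄) := by nlinarith
    by_contra h4
    push Not at h4
    nlinarith [mul_neg_of_pos_of_neg hs2 h4]
  have h3 : Tendsto (fun s : ℝ => A₂ + s ^ 2 * A₄) (𝓝[≠] 0) (𝓝 A₂) := by
    have h4 : Continuous (fun s : ℝ => A₂ + s ^ 2 * A₄) := by fun_prop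
    have h5 := (h4.tendsto 0).mono_left (nhdsWithin_le_nhds (s := {0}ᶜ))
    simpa using h5
  have h4 : 0 ≤ A₂ := ge_of_tendsto h3 (by
    filter_upwards [self_mem_nhdsWithin] with s hs
    exact h2 s hs)
  linarith

end Secondx

open Secondx

theorem thm_Second (h1 : St_Zeta) : St_Second := by
  intro ι _ _ k w T l₁ K v hT hw hK hcard hv hmin
  obtain ⟨ζ, hζ, hζ0⟩ := h1 ι k w v hcard
  set D : Fin 3 → Fin k → Fin k → ℂ := fun m i j => Phi w v m i j - T m i j with hDdef
  set wb : Fin 3 → ℝ := fun m => ∑ l, Complex.normSq (ζ l) * w l m with hwb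
  have hphi : ∀ (ξ : Fin k → ℂ) (s : ℝ) m i j,
      Phi w (fun l i => v l i + (s : ℂ) * (ζ l * ξ i)) m i j =
      Phi w v m i j + (s : ℂ) ^ 2 * ((wb m : ℂ) * (ξ i * conj (ξ j))) := by
    intro ξ s m i j
    rw [phi_add w v (fun l i => ζ l * ξ i) s m i j]
    have e1 : PP w v (fun l i => ζ l * ξ i) m i j = 0 := by
      have a1 : ∑ l, conj (ζ l) * (w l m : ℂ) * v l i = 0 := hζ0 m i
      have a2 : ∑ l, ζ l * (w l m : ℂ) * conj (v l j) = 0 := by
        have := congrArg conj (hζ0 m j)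
        rw [map_sum, map_zero] at this
        rw [← this]
        refine Finset.sum_congr rfl (fun l _ => ?_)
        simp only [map_mul, Complex.conj_conj, Complex.conj_ofReal]
      have e : PP w v (fun l i => ζ l * ξ i) m i j =
          ξ i * (∑ l, ζ l * (w l m : ℂ) * conj (v l j)) +
          conj (ξ j) * (∑ l, conj (ζ l) * (w l m : ℂ) * v l i) := by
        unfold PP
        rw [Finset.mul_sum, Finset.mul_sum, ← Finset.sum_add_distrib]
        refine Finset.sum_congr rfl (fun l _ => ?_)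
        simp only [map_mul]
        ring
      rw [e, a1, a2]
      simp
    have e2 : Phi w (fun l i => ζ l * ξ i) m i j = (wb m : ℂ) * (ξ i * conj (ξ j)) := by
      unfold Phi
      rw [hwb]
      push_cast
      rw [Finset.sum_mul]
      refine Finset.sum_congr rfl (fun l _ => ?_)
      rw [Complex.normSq_eq_conj_mul_self]
      simp only [map_mul]
      ring
    rw [e1, e2]
    ring
  have hF : ∀ (ξ : Fin k → ℂ) (s : ℝ),
      FF w T l₁ K (fun l i => v l i + (s : ℂ) * (ζ l * ξ i)) - FF w T l₁ K v =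
      s * (∑ i, 2 * (conj (ζ l₁ * ξ i) * v l₁ i).re) +
      s ^ 2 * (∑ i, Complex.normSq (ζ l₁ * ξ i) +
        2 * (K * ∑ m, ∑ i, ∑ j, (conj ((wb m : ℂ) * (ξ i * conj (ξ j))) * D m i j).re)) +
      s ^ 4 * (K * ∑ m, ∑ i, ∑ j, Complex.normSq ((wb m : ℂ) * (ξ i * conj (ξ j)))) := by
    intro ξ s
    have g1 : ∑ i, Complex.normSq (v l₁ i + (s : ℂ) * (ζ l₁ * ξ i)) =
        ∑ i, Complex.normSq (v l₁ i) +
        s * ∑ i, 2 * (conj (ζ l₁ * ξ i) * v l₁ i).re + s ^ 2 * ∑ i, Complex.normSq (ζ l₁ * ξ i) := by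
      rw [Finset.mul_sum, Finset.mul_sum, ← Finset.sum_add_distrib, ← Finset.sum_add_distrib]
      exact Finset.sum_congr rfl (fun i _ => normSq_lin _ _ _)
    have g2 : ∑ m, ∑ i, ∑ j, Complex.normSq
        (Phi w (fun l i => v l i + (s : ℂ) * (ζ l * ξ i)) m i j - T m i j) =
        ∑ m, ∑ i, ∑ j, Complex.normSq (Phi w v m i j - T m i j) +
        s ^ 2 * (2 * ∑ m, ∑ i, ∑ j, (conj ((wb m : ℂ) * (ξ i * conj (ξ j))) * D m i j).re) +
        s ^ 4 * (∑ m, ∑ i, ∑ j, Complex.normSq ((wb m : ℂ) * (ξ i * conj (ξ j)))) := by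
      simp only [Finset.mul_sum, ← Finset.sum_add_distrib]
      refine Finset.sum_congr rfl (fun m _ => Finset.sum_congr rfl (fun i _ =>
        Finset.sum_congr rfl (fun j _ => ?_)))
      have g3 := normSq_lin (Phi w v m i j - T m i j) ((wb m : ℂ) * (ξ i * conj (ξ j))) (s ^ 2)
      rw [hphi ξ s m i j]
      have g4 : Phi w v m i j + (s : ℂ) ^ 2 * ((wb m : ℂ) * (ξ i * conj (ξ j))) - T m i j =
          (Phi w v m i j - T m i j) + ((s ^ 2 : ℝ) : ℂ) * ((wb m : ℂ) * (ξ i * conj (ξ j))) := by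
        push_cast
        ring
      rw [g4, g3]
      ring
    unfold FF
    rw [g1, g2]
    ring
  have hpoly : ∀ ξ : Fin k → ℂ, (∑ i, 2 * (conj (ζ l₁ * ξ i) * v l₁ i).re = 0) ∧
      0 ≤ (∑ i, Complex.normSq (ζ l₁ * ξ i) +
        2 * (K * ∑ m, ∑ i, ∑ j, (conj ((wb m : ℂ) * (ξ i * conj (ξ j))) * D m i j).re)) := by
    intro ξ
    apply poly_two (A₄ := K * ∑ m, ∑ i, ∑ j, Complex.normSq ((wb m : ℂ) * (ξ i * conj (ξ j))))
    intro s
    rw [← hF ξ s]
    exact sub_nonneg.2 (hmin _)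
  -- the component `ζ l₁` vanishes
  have hz1 : ζ l₁ = 0 := by
    have h2 := (hpoly (fun i => conj (ζ l₁) * v l₁ i)).1
    have h3 : ∀ i, 2 * (conj (ζ l₁ * (conj (ζ l₁) * v l₁ i)) * v l₁ i).re =
        2 * (Complex.normSq (ζ l₁) * Complex.normSq (v l₁ i)) := by
      intro i
      have : conj (ζ l₁ * (conj (ζ l₁) * v l₁ i)) * v l₁ i =
          ((Complex.normSq (ζ l₁) * Complex.normSq (v l₁ i) : ℝ) : ℂ) := by
        push_cast
        rw [Complex.normSq_eq_conj_mul_self, Complex.normSq_eq_conj_mul_self]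
        simp only [map_mul, Complex.conj_conj]
        ring
      rw [this, Complex.ofReal_re]
    simp only [h3] at h2
    by_contra hne
    apply hv
    funext i
    have h4 := (Finset.sum_eq_zero_iff_of_nonneg (fun i _ => by
      have := Complex.normSq_nonneg (ζ l₁)
      have := Complex.normSq_nonneg (v l₁ i)
      positivity)).1 h2 i (Finset.mem_univ _)
    have h5 : Complex.normSq (ζ l₁) ≠ 0 := by
      rw [Ne, Complex.normSq_eq_zero]; exact hne
    have h6 : Complex.normSq (v l₁ i) = 0 := by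
      rcases mul_eq_zero.1 h4 with h | h
      · norm_num at h
      · exact (mul_eq_zero.1 h).resolve_left h5
    exact Complex.normSq_eq_zero.1 h6
  have hwb0 : 0 < wb 0 := by
    have e : wb 0 = ∑ l, Complex.normSq (ζ l) := by
      rw [hwb]
      exact Finset.sum_congr rfl (fun l _ => by rw [hw l, mul_one])
    rw [e]
    obtain ⟨l, hl⟩ : ∃ l, ζ l ≠ 0 := by
      by_contra hcon
      push Not at hcon
      exact hζ (funext hcon)
    exact Finset.sum_pos' (fun l _ => Complex.normSq_nonneg _)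
      ⟨l, Finset.mem_univ _, Complex.normSq_pos.2 hl⟩
  have hmain : ∀ ξ : Fin k → ℂ, (bil (LL w T K v) (co wb) ξ ξ).re ≤ 0 := by
    intro ξ
    have h2 := (hpoly ξ).2
    rw [hz1] at h2
    simp only [zero_mul, map_zero, Finset.sum_const_zero, zero_add] at h2
    have h3 : ∑ m, ∑ i, ∑ j, (conj ((wb m : ℂ) * (ξ i * conj (ξ j))) * D m i j).re =
        (∑ i, ∑ m, ∑ j, (conj (ξ i) * ((wb m : ℂ) * D m i j * ξ j))).re := by
      rw [Finset.sum_comm, Complex.re_sum]
      refine Finset.sum_congr rfl (fun i _ => ?_)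
      rw [Complex.re_sum]
      refine Finset.sum_congr rfl (fun m _ => ?_)
      rw [Complex.re_sum]
      refine Finset.sum_congr rfl (fun j _ => ?_)
      congr 1
      simp only [map_mul, Complex.conj_conj, Complex.conj_ofReal]
      ring
    have h4 : bil (LL w T K v) (co wb) ξ ξ =
        ((-(2 * K) : ℝ) : ℂ) * ∑ i, ∑ m, ∑ j, (conj (ξ i) * ((wb m : ℂ) * D m i j * ξ j)) := by
      unfold bil ap co LL
      rw [Finset.mul_sum]
      refine Finset.sum_congr rfl (fun i _ => ?_)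
      rw [Finset.mul_sum, Finset.mul_sum]
      refine Finset.sum_congr rfl (fun m _ => ?_)
      rw [Finset.mul_sum, Finset.mul_sum]
      refine Finset.sum_congr rfl (fun j _ => ?_)
      push_cast
      ring
    rw [h3] at h2
    rw [h4, Complex.re_ofReal_mul]
    nlinarith
  refine ⟨fun m => wb m / wb 0, div_self hwb0.ne', fun x => ?_⟩
  have h5 : bil (LL w T K v) (co (fun m => wb m / wb 0)) x x =
      (((wb 0)⁻¹ : ℝ) : ℂ) * bil (LL w T K v) (co wb) x x := by
    unfold bil ap co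
    rw [Finset.mul_sum]
    refine Finset.sum_congr rfl (fun i _ => ?_)
    rw [Finset.mul_sum, Finset.mul_sum, Finset.mul_sum]
    refine Finset.sum_congr rfl (fun m _ => ?_)
    rw [Finset.mul_sum, Finset.mul_sum, Finset.mul_sum]
    refine Finset.sum_congr rfl (fun j _ => ?_)
    push_cast
    ring
  rw [h5, Complex.re_ofReal_mul]
  exact mul_nonpos_of_nonneg_of_nonpos (inv_nonneg.2 hwb0.le) (hmain x)

end Pool.Agent.MCT
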