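import Mathlib
import Pool.Agent.MCT.StA

set_option autoImplicit false

namespace Pool.Agent.MCT

open Finset Filter
open scoped ComplexConjugate Topology

namespace Subx

theorem sum_split {ι : Type} [Fintype ι] [DecidableEq ι] (I : Finset ι) (f : ι → ℂ) :
    ∑ l, f l = ∑ l ∈ I, f l + ∑ x : {l // l ∉ I}, f x.1 := by
  rw [← Finset.sum_add_sum_compl I f]
  congr 1
  exact Finset.sum_subtype (p := fun l => l ∉ I) Iᶜ (fun x => by simp) f

theorem phi_comb {σ : Type} [Fintype σ] {k d : ℕ} (w : σ → Fin 3 → ℝ) (u : σ → Fin d → ℂ)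
    (z : Fin d → Fin k → ℂ) (m : Fin 3) (i j : Fin k) :
    ∑ x, (w x m : ℂ) * (∑ s, u x s * z s i) * conj (∑ s, u x s * z s j) =
      ∑ s, ∑ t, z s i * conj (z t j) * Phi w u m s t := by
  unfold Phi
  simp only [Finset.mul_sum, map_sum, map_mul, Finset.sum_mul]
  calc ∑ x, ∑ t, ∑ s, (w x m : ℂ) * (u x s * z s i) * (conj (u x t) * conj (z t j))
      = ∑ t, ∑ x, ∑ s, (w x m : ℂ) * (u x s * z s i) * (conj (u x t) * conj (z t j)) :=
        Finset.sum_comm
    _ = ∑ t, ∑ s, ∑ x, (w x m : ℂ) * (u x s * z s i) * (conj (u x t) * conj (z t j)) :=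
        Finset.sum_congr rfl (fun t _ => Finset.sum_comm)
    _ = ∑ s, ∑ t, ∑ x, (w x m : ℂ) * (u x s * z s i) * (conj (u x t) * conj (z t j)) :=
        Finset.sum_comm
    _ = _ := by
        refine Finset.sum_congr rfl (fun s _ => Finset.sum_congr rfl (fun t _ =>
          Finset.sum_congr rfl (fun x _ => ?_)))
        ring

end Subx

open Subx

theorem thm_Sub : St_Sub := by
  intro ι _ _ k d w v I Z hZ hin hdel
  let z : Module.Basis (Fin d) ℂ Z := Module.finBasisOfFinrankEq ℂ Z hZ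
  let u : {l // l ∉ I} → Fin d → ℂ := fun x s => z.repr ⟨v x.1, hin x.1 x.2⟩ s
  have hvu : ∀ (x : {l // l ∉ I}) (i : Fin k),
      v x.1 i = ∑ s, u x s * (z s : Fin k → ℂ) i := by
    intro x i
    have h1 := congrArg (Subtype.val) (z.sum_repr ⟨v x.1, hin x.1 x.2⟩)
    simp only [Submodule.coe_sum, Submodule.coe_smul] at h1
    have h2 := congrFun h1 i
    rw [Finset.sum_apply] at h2
    simp only [Pi.smul_apply, smul_eq_mul] at h2
    exact h2.symm
  obtain ⟨u', l₀, hl₀, hu'⟩ := hdel u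
  let vv : ι → Fin k → ℂ := fun l =>
    if h : l ∉ I then fun i => ∑ s, u' ⟨l, h⟩ s * (z s : Fin k → ℂ) i else v l
  have hv1 : ∀ x : {l // l ∉ I}, vv x.1 = fun i => ∑ s, u' x s * (z s : Fin k → ℂ) i :=
    fun x => dif_pos x.2
  have hv2 : ∀ l, l ∈ I → vv l = v l := fun l hl => dif_neg (by simpa using hl)
  refine ⟨vv, l₀.1, ?_, ?_⟩
  · rw [hv1]
    funext i
    simp [hl₀]
  · funext m i j
    have e1 : Phi w vv m i j =
        ∑ l ∈ I, (w l m : ℂ) * v l i * conj (v l j) +
        ∑ x : {l // l ∉ I}, (w x.1 m : ℂ) * (∑ s, u' x s * (z s : Fin k → ℂ) i) *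
          conj (∑ s, u' x s * (z s : Fin k → ℂ) j) := by
      unfold Phi
      rw [sum_split I]
      congr 1
      · refine Finset.sum_congr rfl (fun l hl => ?_)
        rw [hv2 l hl]
      · refine Finset.sum_congr rfl (fun x _ => ?_)
        rw [hv1 x]
    have e2 : Phi w v m i j =
        ∑ l ∈ I, (w l m : ℂ) * v l i * conj (v l j) +
        ∑ x : {l // l ∉ I}, (w x.1 m : ℂ) * (∑ s, u x s * (z s : Fin k → ℂ) i) *
          conj (∑ s, u x s * (z s : Fin k → ℂ) j) := by
      unfold Phi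
      rw [sum_split I]
      congr 1
      refine Finset.sum_congr rfl (fun x _ => ?_)
      rw [hvu x i, hvu x j]
    rw [e1, e2, phi_comb (fun x : {l // l ∉ I} => w x.1) u' (fun s => (z s : Fin k → ℂ)),
      phi_comb (fun x : {l // l ∉ I} => w x.1) u (fun s => (z s : Fin k → ℂ)), hu']

end Pool.Agent.MCT
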