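import Mathlib
import Pool.Agent.MCT.StA

set_option autoImplicit false

namespace Pool.Agent.MCT

open Finset Filter
open scoped ComplexConjugate Topology

theorem thm_Zeta : St_Zeta := by
  intro ι _ k w v hcard
  let F : (ι → ℂ) →ₗ[ℂ] (Fin 3 × Fin k → ℂ) :=
    { toFun := fun η p => ∑ l, η l * (w l p.1 : ℂ) * v l p.2
      map_add' := by
        intro x y
        funext p
        simp only [Pi.add_apply]
        rw [← Finset.sum_add_distrib]
        refine Finset.sum_congr rfl (fun l _ => ?_)
        ring
      map_smul' := by
        intro c x
        funext p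
        simp only [Pi.smul_apply, smul_eq_mul, RingHom.id_apply]
        rw [Finset.mul_sum]
        refine Finset.sum_congr rfl (fun l _ => ?_)
        ring }
  have hk : LinearMap.ker F ≠ ⊥ := by
    apply LinearMap.ker_ne_bot_of_finrank_lt
    rw [Module.finrank_pi, Module.finrank_pi, Fintype.card_prod, Fintype.card_fin, Fintype.card_fin]
    exact hcard
  obtain ⟨η, hη, hη0⟩ := Submodule.exists_mem_ne_zero_of_ne_bot hk
  refine ⟨fun l => conj (η l), ?_, fun m i => ?_⟩
  · intro h
    apply hη0
    funext l
    have := congrFun h l
    simpa using this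
  · have h1 := congrFun (LinearMap.mem_ker.1 hη) (m, i)
    simp only [Pi.zero_apply] at h1
    simp only [Complex.conj_conj]
    exact h1

end Pool.Agent.MCT
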