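import Mathlib
import Pool.Agent.MCT.StA
import Pool.Agent.MCT.StB
import Pool.Agent.MCT.Closed
import Pool.Agent.MCT.Sub
import Pool.Agent.MCT.Min
import Pool.Agent.MCT.First
import Pool.Agent.MCT.Zeta
import Pool.Agent.MCT.Second
import Pool.Agent.MCT.Core
import Pool.Agent.MCT.DetPoly
import Pool.Agent.MCT.Minor
import Pool.Agent.MCT.Sing
import Pool.Agent.MCT.Block
import Pool.Agent.MCT.Ind
import Pool.Agent.MCT.GenEx
import Pool.Agent.MCT.Dense
import Pool.Agent.MCT.Main
import Pool.Agent.MCT.Supp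
import Pool.Agent.MCT.FinalA
import Pool.Agent.MCT.FinalDil
import Pool.Agent.MCT.FinalB
import Pool.Agent.MCT.Low3
import Pool.Agent.MCT.LamB
import Pool.Agent.MCT.Pts
import Pool.Agent.MCT.Cauchy
import Pool.Agent.MCT.Elim
import Pool.Agent.MCT.Indep
import Pool.Agent.MCT.Rigid
import Pool.Agent.MCT.LowA

/-! Assembly of the matrix Caratheodory theorem. -/

set_option autoImplicit false

namespace Pool.Agent.MCT

open Finset Filter Matrix Pool.Agent.Helper45.NC
open scoped ComplexConjugate Topology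

theorem f_Core : St_Core := thm_Core thm_Min thm_First (thm_Second thm_Zeta)

theorem f_Minor : St_Minor := thm_Minor thm_DetPoly

theorem f_Block : St_Block := thm_Block f_Minor (thm_Sing f_Minor)

theorem f_Ind : St_Ind := thm_Ind thm_Closed thm_Sub f_Core f_Block

theorem f_Main : St_Main := thm_Main (thm_Dense thm_GenEx) f_Ind thm_Closed

theorem f_FinalA : St_FinalA := thm_FinalA (thm_Supp f_Main)

theorem f_FinalDil : St_FinalDil := thm_FinalDil f_FinalA

theorem f_FinalB : St_FinalB := thm_FinalB f_FinalA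

theorem f_LowA : St_LowA :=
  thm_LowA (thm_Rigid (thm_Indep (thm_Pts thm_LamB) (thm_Elim thm_LamB thm_Cauchy) thm_LamB))
    thm_Sub f_Main

/-- a proper sub-multiset of the values of `b` is given by a proper injection -/
theorem exists_inj {m n : ℕ} (e : Fin m → ℂ) (b : Fin n → ℂ) (h : ms e < ms b) :
    ∃ j : Fin m → Fin n, Function.Injective j ∧ (∀ r, b (j r) = e r) ∧ ∃ l, ∀ r, j r ≠ l := by
  classical
  obtain ⟨c, hc⟩ := Multiset.le_iff_exists_add.1 h.le
  obtain ⟨c', hc'⟩ := exists_ms c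
  have h1 : ms (Sum.elim e c') = ms b := by rw [ms_sum, hc', hc]
  obtain ⟨σ, hσ⟩ := exists_equiv_of_ms_eq (Sum.elim e c') b h1
  have hne : c ≠ 0 := by
    rintro rfl
    rw [add_zero] at hc
    exact absurd hc.symm h.ne
  have hpos : 0 < c.card := Multiset.card_pos.2 hne
  refine ⟨fun r => σ (Sum.inl r), fun x y hxy => Sum.inl_injective (σ.injective hxy), ?_,
    σ (Sum.inr ⟨0, hpos⟩), ?_⟩
  · intro r
    have := congrFun hσ (Sum.inl r)
    simpa using this
  · intro r hr
    exact absurd (σ.injective hr) (by simp)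

/-- lower bound for arbitrary compressions, in terms of multisets of eigenvalues -/
theorem f_LowB (k : ℕ) (hk : 1 ≤ k) : ∃ (A : Matrix (Fin k) (Fin k) ℂ)
    (B : Matrix (Fin (k * (k + 3) / 2)) (Fin (k * (k + 3) / 2)) ℂ),
    Bᴴ * B = B * Bᴴ ∧
    (∃ V : Matrix (Fin (k * (k + 3) / 2)) (Fin k) ℂ, Vᴴ * V = 1 ∧ A = Vᴴ * B * V) ∧
    ∀ (m : ℕ) (B' : Matrix (Fin m) (Fin m) ℂ), B'ᴴ * B' = B' * B'ᴴ →
      B'.charpoly.roots < B.charpoly.roots →
      ¬ ∃ V' : Matrix (Fin m) (Fin k) ℂ, V'ᴴ * V' = 1 ∧ A = V'ᴴ * B' * V' := by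
  obtain ⟨b, V, hV, hno⟩ := f_LowA k hk
  refine ⟨Vᴴ * Matrix.diagonal b * V, Matrix.diagonal b, diag_normal b, ⟨V, hV, rfl⟩, ?_⟩
  rintro m B' hB' hlt ⟨V', hV', hA⟩
  obtain ⟨R, e, hR1, hR2, hR⟩ := normal_diag B' hB'
  have hBe : B' = R * Matrix.diagonal e * Rᴴ := by
    rw [← hR, Matrix.mul_assoc, hR2, Matrix.mul_one]
  have hcB : B'.charpoly = (Matrix.diagonal e).charpoly := by
    have h5 : Rᴴ * B' * R = Matrix.diagonal e := by
      rw [Matrix.mul_assoc, hR, ← Matrix.mul_assoc, hR1, Matrix.one_mul]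
    rw [← h5, Matrix.charpoly_mul_comm, ← Matrix.mul_assoc, hR2, Matrix.one_mul]
  rw [hcB, Matrix.charpoly_diagonal, Matrix.charpoly_diagonal, roots_prod_ms, roots_prod_ms] at hlt
  obtain ⟨j, hj, hbj, l₀, hl₀⟩ := exists_inj e b hlt
  -- extend by zero rows
  let E : Matrix (Fin (k * (k + 3) / 2)) (Fin m) ℂ := Matrix.of fun l r => if j r = l then 1 else 0
  have hE1 : Eᴴ * E = 1 := by
    ext r s
    rw [Matrix.mul_apply]
    simp only [E, Matrix.conjTranspose_apply, Matrix.of_apply, Matrix.one_apply]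
    by_cases h : r = s
    · subst h
      simp
    · rw [if_neg h]
      refine Finset.sum_eq_zero (fun l _ => ?_)
      by_cases h1 : j r = l
      · have h2 : j s ≠ l := fun h3 => h (hj (h1.trans h3.symm))
        simp [h2]
      · simp [h1]
  have hE2 : Eᴴ * Matrix.diagonal b * E = Matrix.diagonal e := by
    ext r s
    rw [Matrix.mul_apply]
    simp only [E, Matrix.mul_diagonal, Matrix.conjTranspose_apply, Matrix.of_apply,
      Matrix.diagonal_apply]
    by_cases h : r = s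
    · subst h
      simp [hbj]
    · rw [if_neg h]
      refine Finset.sum_eq_zero (fun l _ => ?_)
      by_cases h1 : j r = l
      · have h2 : j s ≠ l := fun h3 => h (hj (h1.trans h3.symm))
        simp [h2]
      · simp [h1]
  set W : Matrix (Fin m) (Fin k) ℂ := Rᴴ * V' with hW
  have hW1 : Wᴴ * W = 1 := by
    rw [hW, Matrix.conjTranspose_mul, Matrix.conjTranspose_conjTranspose]
    calc V'ᴴ * R * (Rᴴ * V') = V'ᴴ * (R * Rᴴ) * V' := by simp only [Matrix.mul_assoc]
      _ = 1 := by rw [hR2, Matrix.mul_one, hV']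
  have hW2 : Wᴴ * Matrix.diagonal e * W = Vᴴ * Matrix.diagonal b * V := by
    rw [hW, Matrix.conjTranspose_mul, Matrix.conjTranspose_conjTranspose, hA]
    calc V'ᴴ * R * Matrix.diagonal e * (Rᴴ * V') = V'ᴴ * (R * Matrix.diagonal e * Rᴴ) * V' := by
          simp only [Matrix.mul_assoc]
      _ = _ := by rw [← hBe]
  apply hno (E * W) ?_ ?_ l₀
  · funext i
    rw [Matrix.mul_apply]
    refine Finset.sum_eq_zero (fun r _ => ?_)
    have : E l₀ r = 0 := by
      simp only [E, Matrix.of_apply]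
      rw [if_neg (hl₀ r)]
    rw [this, zero_mul]
  · rw [Matrix.conjTranspose_mul]
    calc Wᴴ * Eᴴ * (E * W) = Wᴴ * (Eᴴ * E) * W := by simp only [Matrix.mul_assoc]
      _ = 1 := by rw [hE1, Matrix.mul_one, hW1]
  · rw [Matrix.conjTranspose_mul]
    calc Wᴴ * Eᴴ * Matrix.diagonal b * (E * W) = Wᴴ * (Eᴴ * Matrix.diagonal b * E) * W := by
          simp only [Matrix.mul_assoc]
      _ = _ := by rw [hE2, hW2]

end Pool.Agent.MCT
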