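import Mathlib
import Pool.Agent.MCT.StA
import Pool.Agent.MCT.Sub

set_option autoImplicit false

namespace Pool.Agent.MCT

open Finset Filter
open scoped ComplexConjugate Topology

namespace Suppx

/-- one step: the support can be made smaller if it is large -/
theorem step (h1 : St_Main) (k : ℕ) (ι : Type) [Fintype ι] [DecidableEq ι] (b : ι → ℂ)
    (v : ι → Fin k → ℂ) (S : Finset ι) (hS : ∀ l, l ∉ S → v l = 0)
    (hcard : (k + 1) * (k + 2) / 2 < S.card) :
    ∃ v' : ι → Fin k → ℂ, ∃ S' : Finset ι, S'.card < S.card ∧ (∀ l, l ∉ S' → v' l = 0) ∧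
      Phi (fun l => hom (b l)) v' = Phi (fun l => hom (b l)) v := by
  obtain ⟨u', l₀, hl₀, hu'⟩ := h1 k {l // l ∈ S} (fun x => b x.1) (fun x => v x.1)
    (by rw [Fintype.card_coe]; exact hcard)
  let vv : ι → Fin k → ℂ := fun l => if h : l ∈ S then u' ⟨l, h⟩ else 0
  have hv1 : ∀ x : {l // l ∈ S}, vv x.1 = u' x := fun x => dif_pos x.2
  have hv2 : ∀ l, l ∉ S → vv l = 0 := fun l hl => dif_neg hl
  have hsum : ∀ (f : ι → ℂ), (∀ l, l ∉ S → f l = 0) → ∑ l, f l = ∑ x : {l // l ∈ S}, f x.1 := by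
    intro f hf
    rw [← Finset.sum_subset (Finset.subset_univ S) (fun l _ hl => hf l hl)]
    exact Finset.sum_subtype (p := fun l => l ∈ S) S (fun x => Iff.rfl) f
  refine ⟨vv, S.erase l₀.1, ?_, ?_, ?_⟩
  · exact Finset.card_erase_lt_of_mem l₀.2
  · intro l hl
    rw [Finset.mem_erase, not_and_or, not_not] at hl
    rcases hl with rfl | hl
    · rw [hv1 l₀, hl₀]
    · exact hv2 l hl
  · have h3 : Phi (fun l => hom (b l)) vv = Phi (fun x : {l // l ∈ S} => hom (b x.1)) u' := by
      funext m i j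
      unfold Phi
      rw [hsum _ (fun l hl => by rw [hv2 l hl]; simp)]
      refine Finset.sum_congr rfl (fun x _ => ?_)
      rw [hv1 x]
    have h4 : Phi (fun l => hom (b l)) v =
        Phi (fun x : {l // l ∈ S} => hom (b x.1)) (fun x => v x.1) := by
      funext m i j
      unfold Phi
      rw [hsum _ (fun l hl => by rw [hS l hl]; simp)]
    rw [h3, h4, hu']

end Suppx

open Suppx

theorem thm_Supp (h1 : St_Main) : St_Supp := by
  intro k ι _ _ b v
  suffices H : ∀ (N : ℕ) (v : ι → Fin k → ℂ) (S : Finset ι), S.card = N →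
      (∀ l, l ∉ S → v l = 0) → ∃ v' : ι → Fin k → ℂ, ∃ S' : Finset ι,
        S'.card ≤ (k + 1) * (k + 2) / 2 ∧ (∀ l, l ∉ S' → v' l = 0) ∧
        Phi (fun l => hom (b l)) v' = Phi (fun l => hom (b l)) v by
    exact H _ v Finset.univ rfl (fun l hl => absurd (Finset.mem_univ l) hl)
  intro N
  induction N using Nat.strong_induction_on with
  | _ N ih =>
    intro v S hN hS
    by_cases hc : (k + 1) * (k + 2) / 2 < S.card
    · obtain ⟨v', S', h2, h3, h4⟩ := step h1 k ι b v S hS hc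
      obtain ⟨v'', S'', h5, h6, h7⟩ := ih S'.card (by omega) v' S' rfl h3
      exact ⟨v'', S'', h5, h6, h7.trans h4⟩
    · exact ⟨v, S, by omega, hS, rfl⟩

end Pool.Agent.MCT
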